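import Mathlib
import Pool.Agent.Helper71.FT.Defs
import Pool.Agent.Helper27.TT.Defs

/-!
# Twisted torus knots `T(n, k n ± r; r, s)`: definitions

Closed braids, Markov moves, Burau matrices and the Alexander polynomial are those of
`Pool.Agent.Helper62.OB.Defs`.
-/

set_option autoImplicit false

namespace Pool.Agent.Helper71.TG

open Polynomial LaurentPolynomial
open Pool.Agent.Helper62.OB Pool.Agent.Helper71.FT

/-- One full twist on the first `b` strands. -/
def twb (m b : ℕ) : BraidGroup m := rn m 0 (b - 1) ^ b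

/-- The crossing of `b` parallel strands with `a` parallel strands, `s` full twists on the first `b`
strands and `k` full twists on all the `m + 1` strands (`s`, `k` integers). -/
def tg (m a b : ℕ) (s k : ℤ) : BraidGroup m :=
  cross m a b * twb m b ^ s * (rn m 0 m ^ (m + 1)) ^ k

/-- The exponents `k n R + (a + b s) ⌊R b / n⌋ + min (R b mod n) a`. -/
def sx (n a b : ℕ) (s k : ℤ) (R : ℕ) : ℤ :=
  k * n * R + (a + b * s) * ((R * b / n : ℕ) : ℤ) + ((min (R * b % n) a : ℕ) : ℤ)

/-- The numbers `max (R b mod n - a) 0`. -/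
def la (n a b R : ℕ) : ℕ := R * b % n - a

/-- the numbers: `a + b = n`, `l b = n q + ε`, `1 ≤ l < n / 2` -/
structure Dat (n a b l q : ℕ) (ε : ℤ) : Prop where
  hn : a + b = n
  ha : 2 ≤ a
  hb : 2 ≤ b
  hε : ε = 1 ∨ ε = -1
  hl : (l : ℤ) * b = n * q + ε
  h2 : 2 * l < n

end Pool.Agent.Helper71.TG
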