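import Mathlib
import Pool.Agent.Helper71.TG.Defs
import Pool.Agent.Helper71.FT.BurD
import Pool.Agent.Helper62.OB.Poly
import Pool.Agent.Helper62.OB.St.BraidAlg
import Pool.Agent.Helper62.SAT.Markov

/-!
# TG-E: conjugates, inverses, and the twisted torus braids

* `alex_conj`: `Y = 1 - ψ`, `v = (T 0, ..., T m)`; `det_rank_one` (`OB/St/LinAlg.lean`) for `Y` and for `B Y B⁻¹` (`B` the matrix of `γ`; `B *ᵥ 1 = 1`, `v ᵥ* B = v` by
  `burau_fix` in `FT/BurD.lean`) with `g = e_0` and with `g B`: `B Y B⁻¹ + 1 ⊗ g = B (Y + 1 ⊗ (g B)) B⁻¹`, so both determinants are `(∑ T i) * alexander`; `∑ T i ≠ 0`.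
* `alex_inv`: `1 - ψ⁻¹ + 1 ⊗ g = -ψ⁻¹ (1 - ψ + 1 ⊗ (-g))` (`ψ *ᵥ 1 = 1`), so `alexander β⁻¹ = -det (-ψ⁻¹) * alexander β`; the braids whose matrix has determinant
  `± T k` form a subgroup that contains the generators (`det (bmat m t i) = -t`: `Matrix.det_one_add_vecMulVec` or similar; or from `bmat * bmatInv = 1`: a unit of
  `ℤ[T;T⁻¹]` is `± T k`, if Mathlib has it).
* `tt_plus`, `tt_minus`: `rn m 0 m ^ b = cross m a b * twb m b` (`braidalg_pow_aux` in `OB/St/BraidAlg.lean` with `v = b`, `k = b`; `a + b = m + 1`), and `rn m 0 m ^ (m + 1)` is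
  central (`central`).  `tt m q b s = rn m 0 (b - 1) ^ (b * s) * rn m 0 m ^ q = twb m b ^ s * rn m 0 m ^ q` (`Helper27/TT/Defs.lean`).
  For `q = k (m + 1) + b`: `twb ^ s * (cross * twb) * F ^ k`, `F = rn m 0 m ^ (m + 1)`; conjugate by `twb ^ s`.
  For `q + b = k (m + 1)`: `rn m 0 m ^ q = F ^ k * (cross * twb)⁻¹`, and `tt = twb ^ s * twb⁻¹ * cross⁻¹ * F ^ k = (cross * twb ^ (1 - s) * F ^ (-k))⁻¹` (`g = 1` works).
-/

set_option autoImplicit false

namespace Pool.Agent.Helper71.TG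

open Polynomial LaurentPolynomial
open Pool.Agent.Helper62.OB Pool.Agent.Helper71.FT

theorem alex_conj (m : ℕ) (β γ : BraidGroup m) : alexander (γ * β * γ⁻¹) = alexander β :=
  Pool.Agent.Helper62.SAT.alexander_conj m β γ

/-- The determinant of the Burau matrix of a braid is a unit `± T k`. -/
private theorem Braid_det (m : ℕ) (γ : BraidGroup m) :
    ∃ k : ℤ, (Pool.Agent.Helper62.SAT.bu m γ).det = T k ∨
      (Pool.Agent.Helper62.SAT.bu m γ).det = -(T k) := by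
  induction γ using Pool.Agent.Helper62.SAT.braid_induction with
  | h1 => exact ⟨0, Or.inl (by rw [Pool.Agent.Helper62.SAT.bu_one, Matrix.det_one, T_zero])⟩
  | hs i =>
    refine ⟨1, Or.inr ?_⟩
    rw [Pool.Agent.Helper62.SAT.bu_sigma, bmat, Matrix.vecMulVec_eq Unit,
      Matrix.det_one_add_replicateCol_mul_replicateRow, brow_bcol_self]
    ring
  | hs' i =>
    refine ⟨-1, Or.inr ?_⟩
    have h : (T (-1) : ℤ[T;T⁻¹]) * T 1 = 1 := by rw [← T_add]; rfl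
    rw [Pool.Agent.Helper62.SAT.bu_sigma_inv, bmatInv, ← Matrix.smul_vecMulVec,
      Matrix.vecMulVec_eq Unit, Matrix.det_one_add_replicateCol_mul_replicateRow,
      dotProduct_smul, brow_bcol_self, smul_eq_mul]
    linear_combination (-1 : ℤ[T;T⁻¹]) * h
  | hm γ δ hγ hδ =>
    obtain ⟨k, hk | hk⟩ := hγ <;> obtain ⟨l, hl | hl⟩ := hδ
    · exact ⟨k + l, Or.inl (by
        rw [Pool.Agent.Helper62.SAT.bu_mul, Matrix.det_mul, hk, hl, T_add])⟩
    · exact ⟨k + l, Or.inr (by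
        rw [Pool.Agent.Helper62.SAT.bu_mul, Matrix.det_mul, hk, hl, T_add, mul_neg])⟩
    · exact ⟨k + l, Or.inr (by
        rw [Pool.Agent.Helper62.SAT.bu_mul, Matrix.det_mul, hk, hl, T_add, neg_mul])⟩
    · exact ⟨k + l, Or.inl (by
        rw [Pool.Agent.Helper62.SAT.bu_mul, Matrix.det_mul, hk, hl, T_add, neg_mul_neg])⟩

/-- The reduced matrix has the same determinant. -/
private theorem Braid_det_red (m : ℕ) (γ : BraidGroup m) :
    (Pool.Agent.Helper62.SAT.red (Pool.Agent.Helper62.SAT.bu m γ)).det =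
      (Pool.Agent.Helper62.SAT.bu m γ).det := by
  have h := Pool.Agent.Helper62.SAT.det_split (Pool.Agent.Helper62.SAT.bu m γ)
    (1 : Matrix Unit Unit ℤ[T;T⁻¹])
    (Pool.Agent.Helper62.SAT.red (Pool.Agent.Helper62.SAT.bu m γ))
    (Pool.Agent.Helper62.SAT.E0 ℤ[T;T⁻¹] m) (Pool.Agent.Helper62.SAT.F0 ℤ[T;T⁻¹] m)
    (Pool.Agent.Helper62.SAT.E0' ℤ[T;T⁻¹] m) (Pool.Agent.Helper62.SAT.G0 ℤ[T;T⁻¹] m)
    (Pool.Agent.Helper62.SAT.E0'_mul_E0 _ m) (Pool.Agent.Helper62.SAT.F0_mul_G0 _ m)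
    (Pool.Agent.Helper62.SAT.F0_mul_E0 _ m) (Pool.Agent.Helper62.SAT.E0'_mul_G0 _ m)
    (Pool.Agent.Helper62.SAT.base_sum _ m)
    (by rw [Pool.Agent.Helper62.SAT.bu_E0, Matrix.mul_one])
    (Pool.Agent.Helper62.SAT.F0_mul _ (Pool.Agent.Helper62.SAT.bu_E0 m γ))
  rw [h, Matrix.det_one, one_mul]

theorem alex_inv (m : ℕ) (β : BraidGroup m) : UpToUnit (alexander β⁻¹) (alexander β) := by
  set U := Pool.Agent.Helper62.SAT.red (Pool.Agent.Helper62.SAT.bu m β) with hU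
  set V := Pool.Agent.Helper62.SAT.red (Pool.Agent.Helper62.SAT.bu m β⁻¹) with hV
  have hVU : V * U = 1 := by
    rw [hV, hU, ← Pool.Agent.Helper62.SAT.red_mul _ _ (Pool.Agent.Helper62.SAT.bu_E0 m β⁻¹),
      Pool.Agent.Helper62.SAT.bu_inv_mul, Pool.Agent.Helper62.SAT.red_one]
  have h1 : 1 - V = (-V) * (1 - U) := by
    rw [mul_sub, mul_one, neg_mul, hVU]
    abel
  have h2 := Pool.Agent.Helper62.SAT.red_alex m β⁻¹
  rw [← hV, h1, Matrix.det_mul, hU, Pool.Agent.Helper62.SAT.red_alex m β, Matrix.det_neg,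
    Fintype.card_fin] at h2
  have h3 : alexander β⁻¹ = ((-1) ^ m * V.det) * alexander β := by
    apply mul_left_cancel₀ (Pool.Agent.Helper62.SAT.geom_ne m)
    rw [← h2]
    ring
  have h4 : V.det = (Pool.Agent.Helper62.SAT.bu m β⁻¹).det := Braid_det_red m β⁻¹
  obtain ⟨k, hk⟩ := Braid_det m β⁻¹
  rw [← h4] at hk
  refine ⟨k, ?_⟩
  rw [h3]
  rcases neg_one_pow_eq_or ℤ[T;T⁻¹] m with hm | hm <;> rcases hk with hk | hk <;> rw [hm, hk]
  · exact Or.inl (by ring)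
  · exact Or.inr (by ring)
  · exact Or.inr (by ring)
  · exact Or.inl (by ring)

theorem cyc_upToUnit {f g : ℤ[T;T⁻¹]} (h : UpToUnit f g) (hf : IsCyclotomicProduct f) :
    IsCyclotomicProduct g := by
  obtain ⟨M, hM, h1⟩ := hf
  exact ⟨M, hM, Pool.Agent.Helper62.SAT.UpToUnit.trans
    (Pool.Agent.Helper62.SAT.UpToUnit.symm h) h1⟩

private theorem tt_pow_b (m a b : ℕ) (hb : 1 ≤ b) (hab : a + b = m + 1) :
    rn m 0 m ^ b = cross m a b * twb m b := by
  rw [braidalg_pow_aux m b hb (by omega) b le_rfl]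
  unfold cross twb
  congr 2
  apply List.map_congr_left
  intro k _
  rw [Nat.sub_self, zero_add, show m + 1 - b = a by omega]

private theorem tt_centF (m : ℕ) (x : BraidGroup m) :
    Commute (rn m 0 m ^ (m + 1)) x := central m x

theorem tt_plus (m a b s k q : ℕ) (ha : 1 ≤ a) (hb : 1 ≤ b) (hab : a + b = m + 1)
    (hq : q = k * (m + 1) + b) :
    ∃ g : BraidGroup m, Pool.Agent.Helper27.TT.tt m q b s = g * tg m a b (s + 1) k * g⁻¹ := by
  refine ⟨twb m b ^ s, ?_⟩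
  have e1 : Pool.Agent.Helper27.TT.tt m q b s =
      twb m b ^ s * ((rn m 0 m ^ (m + 1)) ^ k * (cross m a b * twb m b)) := by
    unfold Pool.Agent.Helper27.TT.tt
    rw [← tt_pow_b m a b hb hab, hq, pow_add, mul_comm k (m + 1), pow_mul (rn m 0 m) (m + 1) k,
      pow_mul]
    rfl
  have e2 : tg m a b (s + 1) k =
      cross m a b * (twb m b * twb m b ^ s) * (rn m 0 m ^ (m + 1)) ^ k := by
    unfold tg
    rw [zpow_natCast, show ((s : ℤ) + 1) = ((s + 1 : ℕ) : ℤ) by push_cast; ring, zpow_natCast,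
      pow_succ']
  rw [e1, e2]
  have c1 : (rn m 0 m ^ (m + 1)) ^ k * (cross m a b * twb m b) =
      (cross m a b * twb m b) * (rn m 0 m ^ (m + 1)) ^ k :=
    (Commute.pow_left (tt_centF m _) k).eq
  have c2 : (rn m 0 m ^ (m + 1)) ^ k * (twb m b ^ s)⁻¹ =
      (twb m b ^ s)⁻¹ * (rn m 0 m ^ (m + 1)) ^ k :=
    (Commute.pow_left (tt_centF m _) k).eq
  rw [c1]
  calc twb m b ^ s * ((cross m a b * twb m b) * (rn m 0 m ^ (m + 1)) ^ k)
      = twb m b ^ s * (cross m a b * (twb m b * twb m b ^ s)) *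
          ((twb m b ^ s)⁻¹ * (rn m 0 m ^ (m + 1)) ^ k) := by group
    _ = twb m b ^ s * (cross m a b * (twb m b * twb m b ^ s)) *
          ((rn m 0 m ^ (m + 1)) ^ k * (twb m b ^ s)⁻¹) := by rw [c2]
    _ = twb m b ^ s * (cross m a b * (twb m b * twb m b ^ s) * (rn m 0 m ^ (m + 1)) ^ k) *
          (twb m b ^ s)⁻¹ := by simp only [mul_assoc]

theorem tt_minus (m a b s k q : ℕ) (ha : 1 ≤ a) (hb : 1 ≤ b) (hab : a + b = m + 1)
    (hq : q + b = k * (m + 1)) :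
    ∃ g : BraidGroup m, Pool.Agent.Helper27.TT.tt m q b s =
      g * (tg m a b (1 - s) (-k))⁻¹ * g⁻¹ := by
  refine ⟨1, ?_⟩
  have e0 : rn m 0 m ^ q * (cross m a b * twb m b) = (rn m 0 m ^ (m + 1)) ^ k := by
    rw [← tt_pow_b m a b hb hab, ← pow_add, hq, mul_comm k (m + 1), pow_mul]
  have e1 : Pool.Agent.Helper27.TT.tt m q b s =
      twb m b ^ s * ((rn m 0 m ^ (m + 1)) ^ k * (cross m a b * twb m b)⁻¹) := by
    unfold Pool.Agent.Helper27.TT.tt
    rw [← e0, mul_assoc, mul_inv_cancel, mul_one, pow_mul]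
    rfl
  have e2 : (tg m a b (1 - s) (-k))⁻¹ =
      (rn m 0 m ^ (m + 1)) ^ k * (twb m b ^ s * ((twb m b)⁻¹ * (cross m a b)⁻¹)) := by
    unfold tg
    rw [mul_inv_rev, mul_inv_rev, ← zpow_neg, ← zpow_neg, neg_neg, zpow_natCast, neg_sub, zpow_sub,
      zpow_natCast, zpow_one]
    simp only [mul_assoc]
  have c1 : (rn m 0 m ^ (m + 1)) ^ k * twb m b ^ s = twb m b ^ s * (rn m 0 m ^ (m + 1)) ^ k :=
    (Commute.pow_left (tt_centF m _) k).eq
  rw [e1, e2, one_mul, inv_one, mul_one, mul_inv_rev, ← mul_assoc (twb m b ^ s), ← c1]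
  simp only [mul_assoc]

end Pool.Agent.Helper71.TG
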