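import Mathlib
import Pool.Agent.Helper71.TG.Defs
import Pool.Agent.Helper71.FT.BurB
import Pool.Agent.Helper27.TT.B1

/-!
# TG-A: the Burau matrix of the crossing with twists on the first `b` strands

* `twb_act`: `burau_twist` in `Helper27/TT/B1.lean` gives the matrix of `rn m 0 (b - 1) ^ (b * s)` for natural `s`: entries
  `(if i < b then T (b s) [i = j] + g j else [i = j])` with `(1 - T b) * g j = (1 - T 1) * (1 - T (b s)) * T j` for `j < b`.  Take
  `E = ∑_{i < s} T (b i)` (so `(1 - T b) * E = 1 - T (b s)`; cancel `1 - T b` and get `g j = (1 - T 1) * E * T j`).  For negative `s` the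
  matrix is the inverse: with `E' = -T (-b s) * E` the map `f ↦ T (-b s) f_i + (1 - T 1) E' ∑_{l < b} T l f_l` (`i < b`) is the inverse of
  the one above, as `(1 - T 1) * ∑_{l < b} T l = 1 - T b` (`b1_geom`).  See `burau_twists` in `Helper71/FT/BurD.lean` for the same argument.
* `low_mul_s`: as `low_mul` in `Helper71/FT/BurB.lean` (copy the private lemmas): with `h = twb^s f`, `G_i (cross h) = G_{i+b} h - T i * G_b h` for
  `i ≤ a` and `G_{a+j} (cross h) = G_n h - T a * G_b h + T a * G_j h` for `j ≤ b`, `G_i u = ∑_{l < i} T l * u l`; and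
  `G_j h = S * G_j f + (1 - T j) * E * G_b f` for `j ≤ b`, so `G_b h = G_b f`, and `G_j h = G_j f` for `j ≥ b`.
-/

set_option autoImplicit false

namespace Pool.Agent.Helper71.TG

open Polynomial LaurentPolynomial
open Pool.Agent.Helper62.OB Pool.Agent.Helper71.FT

/-- the matrix of the crossing with twists in the coordinates `G_{i+1}` -/
noncomputable def crossS (m a b : ℕ) (S E : ℤ[T;T⁻¹]) : Matrix (Fin (m + 1)) (Fin (m + 1)) ℤ[T;T⁻¹] :=
  Matrix.of fun i k => if i.val + 1 ≤ a then
      (if k.val = i.val + b then 1 else 0) - T ((i.val : ℤ) + 1) * (if k.val + 1 = b then 1 else 0)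
    else (if k.val = m then 1 else 0) -
      T (a : ℤ) * (1 - E * (1 - T ((i.val : ℤ) + 1 - a))) * (if k.val + 1 = b then 1 else 0) +
      T (a : ℤ) * S * (if k.val + a = i.val then 1 else 0)

private theorem twb_T_ne (k : ℤ) (hk : k ≠ 0) : (1 - T k : ℤ[T;T⁻¹]) ≠ 0 := by
  intro h
  have h2 : (T 0 : ℤ[T;T⁻¹]) = T k := by
    rw [T_zero]
    exact sub_eq_zero.1 h
  have h3 := congrArg (fun f : ℤ[T;T⁻¹] => f.coeff 0) h2
  simp at h3
  omega

private theorem twb_geom (b k : ℕ) :
    (1 - T (b : ℤ)) * ∑ i ∈ Finset.range k, (T ((b : ℤ) * i) : ℤ[T;T⁻¹]) = 1 - T ((b : ℤ) * k) := by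
  induction k with
  | zero => rw [Finset.sum_range_zero, mul_zero, Nat.cast_zero, mul_zero, T_zero, sub_self]
  | succ k ih =>
    rw [Finset.sum_range_succ, mul_add, ih]
    have h3 : (T ((b : ℤ) * ((k + 1 : ℕ) : ℤ)) : ℤ[T;T⁻¹]) = T (b : ℤ) * T ((b : ℤ) * k) := by
      rw [← T_add]
      congr 1
      push_cast
      ring
    rw [h3]
    ring

private theorem twb_sum (m b : ℕ) (hbm : b ≤ m) (h : ℕ → ℤ[T;T⁻¹]) :
    ∑ j : Fin (m + 1), (if j.val < b then h j.val else 0) = ∑ l ∈ Finset.range b, h l := by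
  rw [Fin.sum_univ_eq_sum_range (fun i => if i < b then h i else 0) (m + 1), ← Finset.sum_filter]
  apply Finset.sum_congr _ (fun _ _ => rfl)
  ext a
  simp only [Finset.mem_filter, Finset.mem_range]
  omega

private theorem twb_act_nat (m b : ℕ) (hb : 1 ≤ b) (hbm : b ≤ m) (k : ℕ) :
    ∃ E : ℤ[T;T⁻¹], (1 - T (b : ℤ)) * E = 1 - T ((b : ℤ) * k) ∧
      ∀ (f : ℕ → ℤ[T;T⁻¹]) (i : Fin (m + 1)),
        (burau m (twb m b ^ k) : Matrix (Fin (m + 1)) (Fin (m + 1)) ℤ[T;T⁻¹]).mulVec
          (fun j => f j.val) i =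
          if i.val < b then T ((b : ℤ) * k) * f i.val +
            (1 - T 1) * E * (∑ l ∈ Finset.range b, T (l : ℤ) * f l)
          else f i.val := by
  obtain ⟨g, hg0, hg, hM⟩ := Pool.Agent.Helper27.TT.burau_twist m b k hb hbm
  have e : (((b * k : ℕ) : ℕ) : ℤ) = (b : ℤ) * k := by push_cast; rfl
  rw [e] at hg
  refine ⟨_, twb_geom b k, fun f i => ?_⟩
  set E : ℤ[T;T⁻¹] := ∑ i ∈ Finset.range k, (T ((b : ℤ) * i) : ℤ[T;T⁻¹]) with hE
  have hE1 : (1 - T (b : ℤ)) * E = 1 - T ((b : ℤ) * k) := twb_geom b k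
  have hgj : ∀ j : Fin (m + 1), g j = if j.val < b then (1 - T 1) * E * T (j.val : ℤ) else 0 := by
    intro j
    by_cases hj : j.val < b
    · rw [if_pos hj]
      apply mul_left_cancel₀ (twb_T_ne (b : ℤ) (by omega))
      rw [hg j hj, ← hE1]
      ring
    · rw [if_neg hj]
      exact hg0 j (by omega)
  unfold twb
  rw [← pow_mul, Matrix.mulVec, dotProduct]
  simp only [hM, e]
  by_cases hi : i.val < b
  · simp only [if_pos hi]
    have h1 : ∀ j : Fin (m + 1), ((if i = j then T ((b : ℤ) * k) else 0) + g j) * f j.val =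
        (if i = j then T ((b : ℤ) * k) * f j.val else 0) +
          (1 - T 1) * E * (if j.val < b then T (j.val : ℤ) * f j.val else 0) := by
      intro j
      rw [hgj j]
      split_ifs <;> ring
    rw [Finset.sum_congr rfl fun j _ => h1 j, Finset.sum_add_distrib, Finset.sum_ite_eq,
      if_pos (Finset.mem_univ i), ← Finset.mul_sum,
      twb_sum m b hbm (fun l => T (l : ℤ) * f l)]
  · simp only [if_neg hi]
    simp

theorem twb_act (m b : ℕ) (hb : 1 ≤ b) (hbm : b ≤ m) (s : ℤ) :
    ∃ E : ℤ[T;T⁻¹], (1 - T (b : ℤ)) * E = 1 - T (b * s) ∧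
      ∀ (f : ℕ → ℤ[T;T⁻¹]) (i : Fin (m + 1)),
        (burau m (twb m b ^ s) : Matrix (Fin (m + 1)) (Fin (m + 1)) ℤ[T;T⁻¹]).mulVec
          (fun j => f j.val) i =
          if i.val < b then T (b * s) * f i.val +
            (1 - T 1) * E * (∑ l ∈ Finset.range b, T (l : ℤ) * f l)
          else f i.val := by
  rcases Int.eq_nat_or_neg s with ⟨k, hk⟩
  obtain ⟨E, hE, h⟩ := twb_act_nat m b hb hbm k
  rcases hk with rfl | rfl
  · refine ⟨E, hE, fun f i => ?_⟩
    rw [zpow_natCast]
    exact h f i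
  · have hT : (T ((b : ℤ) * -(k : ℤ)) : ℤ[T;T⁻¹]) * T ((b : ℤ) * k) = 1 := by
      rw [← T_add, mul_neg, neg_add_cancel, T_zero]
    refine ⟨-(T ((b : ℤ) * -(k : ℤ)) * E), ?_, fun f i => ?_⟩
    · linear_combination (-T ((b : ℤ) * -(k : ℤ))) * hE + hT
    · obtain ⟨S, hS⟩ : ∃ S : ℤ[T;T⁻¹], ∑ l ∈ Finset.range b, T (l : ℤ) * f l = S := ⟨_, rfl⟩
      rw [hS]
      obtain ⟨u, hu⟩ : ∃ u : ℕ → ℤ[T;T⁻¹], ∀ l, u l = if l < b then
          T ((b : ℤ) * -(k : ℤ)) * f l + (1 - T 1) * -(T ((b : ℤ) * -(k : ℤ)) * E) * S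
          else f l := ⟨_, fun _ => rfl⟩
      have hSu : ∑ l ∈ Finset.range b, T (l : ℤ) * u l = S := by
        have h1 : ∀ l ∈ Finset.range b, (T (l : ℤ) : ℤ[T;T⁻¹]) * u l =
            T ((b : ℤ) * -(k : ℤ)) * (T (l : ℤ) * f l) +
              ((1 - T 1) * -(T ((b : ℤ) * -(k : ℤ)) * E) * S) * T (l : ℤ) := by
          intro l hl
          rw [hu, if_pos (Finset.mem_range.1 hl)]
          ring
        rw [Finset.sum_congr rfl h1, Finset.sum_add_distrib, ← Finset.mul_sum, ← Finset.mul_sum,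
          hS]
        have h2 := Pool.Agent.Helper27.TT.b1_geom b
        linear_combination (-(T ((b : ℤ) * -(k : ℤ)) * E * S)) * h2 +
          (-(T ((b : ℤ) * -(k : ℤ)) * S)) * hE + S * hT
      have hfix : (burau m (twb m b ^ k) : Matrix (Fin (m + 1)) (Fin (m + 1)) ℤ[T;T⁻¹]).mulVec
          (fun j => u j.val) = fun j => f j.val := by
        funext j
        rw [h u j, hSu, hu]
        by_cases hj : j.val < b
        · rw [if_pos hj, if_pos hj]
          linear_combination (f j.val - (1 - T 1) * E * S) * hT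
        · rw [if_neg hj, if_neg hj]
      rw [zpow_neg, zpow_natCast, map_inv, ← hfix, Matrix.mulVec_mulVec, Units.inv_mul,
        Matrix.one_mulVec, hu]

private theorem lms_low (m i : ℕ) (hi : i ≤ m) (u : ℕ → ℤ[T;T⁻¹]) :
    ∑ l ∈ Finset.range (m + 1), (if l ≤ i then T (l : ℤ) else 0) * u l =
      ∑ l ∈ Finset.range (i + 1), T (l : ℤ) * u l := by
  rw [← Finset.sum_subset (Finset.range_mono (by omega : i + 1 ≤ m + 1))]
  · refine Finset.sum_congr rfl fun l hl => ?_
    rw [if_pos (by have := Finset.mem_range.mp hl; omega)]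
  · intro l _ hl
    rw [if_neg (by rw [Finset.mem_range] at hl; omega), zero_mul]

private theorem lms_mulVec (m : ℕ) (u : ℕ → ℤ[T;T⁻¹]) (i : Fin (m + 1)) :
    (lowM m).mulVec (fun j => u j.val) i = ∑ l ∈ Finset.range (i.val + 1), T (l : ℤ) * u l := by
  rw [← lms_low m i.val (by have := i.isLt; omega) u,
    ← Fin.sum_univ_eq_sum_range (fun l => (if l ≤ i.val then T (l : ℤ) else 0) * u l) (m + 1)]
  rfl

private theorem lms_single (m c : ℕ) (hc : c ≤ m) (u : ℕ → ℤ[T;T⁻¹]) :
    ∑ k ∈ Finset.range (m + 1), (if k = c then 1 else 0) * u k = u c := by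
  rw [Finset.sum_eq_single c]
  · rw [if_pos rfl, one_mul]
  · intro k _ hk
    rw [if_neg hk, zero_mul]
  · intro h
    exact absurd (Finset.mem_range.mpr (by omega)) h

private theorem lms_crossC (m a b : ℕ) (hb : 1 ≤ b) (hab : a + b = m + 1) (g : ℕ → ℤ[T;T⁻¹])
    (i : Fin (m + 1)) : (crossC m a b).mulVec (fun j => g j.val) i =
      if i.val + 1 ≤ a then g (i.val + b) - T ((i.val : ℤ) + 1) * g (b - 1)
      else g m - T (a : ℤ) * g (b - 1) + T (a : ℤ) * g (i.val - a) := by
  have hi := i.isLt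
  have h3 : (crossC m a b).mulVec (fun j => g j.val) i =
      ∑ k ∈ Finset.range (m + 1), (if i.val + 1 ≤ a then
        (if k = i.val + b then 1 else 0) -
          T ((i.val : ℤ) + 1) * (if k + 1 = b then 1 else 0)
        else (if k = m then 1 else 0) - T (a : ℤ) * (if k + 1 = b then 1 else 0) +
        T (a : ℤ) * (if k + a = i.val then 1 else 0)) * g k := by
    rw [← Fin.sum_univ_eq_sum_range (fun k => (if i.val + 1 ≤ a then
        (if k = i.val + b then 1 else 0) -
          T ((i.val : ℤ) + 1) * (if k + 1 = b then 1 else 0)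
        else (if k = m then 1 else 0) - T (a : ℤ) * (if k + 1 = b then 1 else 0) +
        T (a : ℤ) * (if k + a = i.val then 1 else 0)) * g k) (m + 1)]
    rfl
  have hbk : ∀ k : ℕ, (k + 1 = b) = (k = b - 1) := fun k => by
    apply propext
    omega
  rw [h3]
  by_cases hia : i.val + 1 ≤ a
  · simp only [if_pos hia, sub_mul, mul_assoc, hbk]
    rw [Finset.sum_sub_distrib, ← Finset.mul_sum, lms_single m (i.val + b) (by omega),
      lms_single m (b - 1) (by omega)]
  · have hka : ∀ k : ℕ, (k + a = i.val) = (k = i.val - a) := fun k => by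
      apply propext
      omega
    simp only [if_neg hia, sub_mul, add_mul, mul_assoc, hbk, hka]
    rw [Finset.sum_add_distrib, Finset.sum_sub_distrib, ← Finset.mul_sum, ← Finset.mul_sum,
      lms_single m m le_rfl, lms_single m (b - 1) (by omega),
      lms_single m (i.val - a) (by omega)]

private theorem lms_crossS (m a b : ℕ) (hb : 1 ≤ b) (hab : a + b = m + 1) (S E : ℤ[T;T⁻¹])
    (g : ℕ → ℤ[T;T⁻¹])
    (i : Fin (m + 1)) : (crossS m a b S E).mulVec (fun j => g j.val) i =
      if i.val + 1 ≤ a then g (i.val + b) - T ((i.val : ℤ) + 1) * g (b - 1)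
      else g m - T (a : ℤ) * (1 - E * (1 - T ((i.val : ℤ) + 1 - a))) * g (b - 1) +
        T (a : ℤ) * S * g (i.val - a) := by
  have hi := i.isLt
  have h3 : (crossS m a b S E).mulVec (fun j => g j.val) i =
      ∑ k ∈ Finset.range (m + 1), (if i.val + 1 ≤ a then
        (if k = i.val + b then 1 else 0) -
          T ((i.val : ℤ) + 1) * (if k + 1 = b then 1 else 0)
        else (if k = m then 1 else 0) -
          T (a : ℤ) * (1 - E * (1 - T ((i.val : ℤ) + 1 - a))) * (if k + 1 = b then 1 else 0) +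
        T (a : ℤ) * S * (if k + a = i.val then 1 else 0)) * g k := by
    rw [← Fin.sum_univ_eq_sum_range (fun k => (if i.val + 1 ≤ a then
        (if k = i.val + b then 1 else 0) -
          T ((i.val : ℤ) + 1) * (if k + 1 = b then 1 else 0)
        else (if k = m then 1 else 0) -
          T (a : ℤ) * (1 - E * (1 - T ((i.val : ℤ) + 1 - a))) * (if k + 1 = b then 1 else 0) +
        T (a : ℤ) * S * (if k + a = i.val then 1 else 0)) * g k) (m + 1)]
    rfl
  have hbk : ∀ k : ℕ, (k + 1 = b) = (k = b - 1) := fun k => by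
    apply propext
    omega
  rw [h3]
  by_cases hia : i.val + 1 ≤ a
  · simp only [if_pos hia, sub_mul, mul_assoc, hbk]
    rw [Finset.sum_sub_distrib, ← Finset.mul_sum, lms_single m (i.val + b) (by omega),
      lms_single m (b - 1) (by omega)]
  · have hka : ∀ k : ℕ, (k + a = i.val) = (k = i.val - a) := fun k => by
      apply propext
      omega
    have h5 : ∀ k : ℕ, ((if k = m then 1 else 0) -
          T (a : ℤ) * (1 - E * (1 - T ((i.val : ℤ) + 1 - a))) * (if k = b - 1 then 1 else 0) +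
        T (a : ℤ) * S * (if k = i.val - a then 1 else 0)) * g k =
        (if k = m then 1 else 0) * g k -
          T (a : ℤ) * (1 - E * (1 - T ((i.val : ℤ) + 1 - a))) *
            ((if k = b - 1 then 1 else 0) * g k) +
        T (a : ℤ) * S * ((if k = i.val - a then 1 else 0) * g k) := fun k => by ring
    simp only [if_neg hia, hbk, hka]
    rw [Finset.sum_congr rfl fun k _ => h5 k, Finset.sum_add_distrib, Finset.sum_sub_distrib,
      ← Finset.mul_sum, ← Finset.mul_sum,
      lms_single m m le_rfl, lms_single m (b - 1) (by omega),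
      lms_single m (i.val - a) (by omega)]

private theorem lms_sum_le (b : ℕ) (S E F : ℤ[T;T⁻¹]) (f : ℕ → ℤ[T;T⁻¹]) (n : ℕ) (hn : n ≤ b) :
    ∑ l ∈ Finset.range n, T (l : ℤ) *
        (if l < b then S * f l + (1 - T 1) * E * F else f l) =
      S * (∑ l ∈ Finset.range n, T (l : ℤ) * f l) + (1 - T (n : ℤ)) * E * F := by
  induction n with
  | zero =>
    rw [Finset.sum_range_zero, Finset.sum_range_zero, Nat.cast_zero, T_zero]
    ring
  | succ n ih =>
    have e2 : (T ((n + 1 : ℕ) : ℤ) : ℤ[T;T⁻¹]) = T (n : ℤ) * T 1 := by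
      rw [← T_add]
      congr 1
    rw [Finset.sum_range_succ, ih (by omega), if_pos (by omega),
      Finset.sum_range_succ (fun l => T (l : ℤ) * f l) n, e2]
    ring

private theorem lms_sum_ge (b : ℕ) (S E : ℤ[T;T⁻¹]) (f : ℕ → ℤ[T;T⁻¹])
    (hE : (1 - T (b : ℤ)) * E = 1 - S) (j : ℕ) :
    ∑ l ∈ Finset.range (b + j), T (l : ℤ) *
        (if l < b then S * f l + (1 - T 1) * E * (∑ l ∈ Finset.range b, T (l : ℤ) * f l)
          else f l) =
      ∑ l ∈ Finset.range (b + j), T (l : ℤ) * f l := by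
  induction j with
  | zero =>
    rw [add_zero, lms_sum_le b S E _ f b le_rfl, hE]
    ring
  | succ j ih =>
    rw [← Nat.add_assoc, Finset.sum_range_succ, ih, if_neg (by omega),
      Finset.sum_range_succ (fun l => T (l : ℤ) * f l) (b + j)]

theorem low_mul_s (m a b : ℕ) (ha : 1 ≤ a) (hb : 1 ≤ b) (hab : a + b = m + 1) (s : ℤ)
    (E : ℤ[T;T⁻¹]) (hE : (1 - T (b : ℤ)) * E = 1 - T (b * s))
    (h : ∀ (f : ℕ → ℤ[T;T⁻¹]) (i : Fin (m + 1)),
        (burau m (twb m b ^ s) : Matrix (Fin (m + 1)) (Fin (m + 1)) ℤ[T;T⁻¹]).mulVec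
          (fun j => f j.val) i =
          if i.val < b then T (b * s) * f i.val +
            (1 - T 1) * E * (∑ l ∈ Finset.range b, T (l : ℤ) * f l)
          else f i.val) :
    lowM m * (burau m (cross m a b * twb m b ^ s) :
      Matrix (Fin (m + 1)) (Fin (m + 1)) ℤ[T;T⁻¹]) = crossS m a b (T (b * s)) E * lowM m := by
  have key : ∀ v : Fin (m + 1) → ℤ[T;T⁻¹],
      (lowM m * (burau m (cross m a b * twb m b ^ s) :
        Matrix (Fin (m + 1)) (Fin (m + 1)) ℤ[T;T⁻¹])).mulVec v =
      (crossS m a b (T (b * s)) E * lowM m).mulVec v := by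
    intro v
    obtain ⟨f, hf⟩ : ∃ f : ℕ → ℤ[T;T⁻¹], v = fun j => f j.val := by
      refine ⟨fun j => if h : j < m + 1 then v ⟨j, h⟩ else 0, ?_⟩
      funext j
      show v j = if h : j.val < m + 1 then v ⟨j.val, h⟩ else 0
      rw [dif_pos j.isLt]
    subst hf
    rw [map_mul, Units.val_mul, ← Matrix.mul_assoc, low_mul m a b ha hb hab,
      ← Matrix.mulVec_mulVec, ← Matrix.mulVec_mulVec, ← Matrix.mulVec_mulVec]
    have h1 : (burau m (twb m b ^ s) : Matrix (Fin (m + 1)) (Fin (m + 1)) ℤ[T;T⁻¹]).mulVec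
        (fun j => f j.val) = fun i : Fin (m + 1) => (fun l : ℕ => if l < b then
          T (b * s) * f l + (1 - T 1) * E * (∑ l ∈ Finset.range b, T (l : ℤ) * f l)
          else f l) i.val := by
      funext i
      exact h f i
    have h2 : ∀ u : ℕ → ℤ[T;T⁻¹], (lowM m).mulVec (fun j => u j.val) = fun i : Fin (m + 1) =>
        (fun k : ℕ => ∑ l ∈ Finset.range (k + 1), T (l : ℤ) * u l) i.val := by
      intro u
      funext i
      exact lms_mulVec m u i
    rw [h1, h2 f, h2 (fun l : ℕ => if l < b then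
          T (b * s) * f l + (1 - T 1) * E * (∑ l ∈ Finset.range b, T (l : ℤ) * f l)
          else f l)]
    funext i
    have hi := i.isLt
    rw [lms_crossC m a b hb hab (fun k : ℕ => ∑ l ∈ Finset.range (k + 1), T (l : ℤ) *
        (if l < b then
          T (b * s) * f l + (1 - T 1) * E * (∑ l ∈ Finset.range b, T (l : ℤ) * f l)
          else f l)) i,
      lms_crossS m a b hb hab (T (b * s)) E
        (fun k : ℕ => ∑ l ∈ Finset.range (k + 1), T (l : ℤ) * f l) i]
    have e2 : b - 1 + 1 = b := by omega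
    have hG := lms_sum_ge b (T (b * s)) E f hE
    have hGb := hG 0
    rw [add_zero] at hGb
    by_cases hia : i.val + 1 ≤ a
    · rw [if_pos hia, if_pos hia, e2, hGb]
      have e1 : i.val + b + 1 = b + (i.val + 1) := by omega
      rw [e1, hG]
    · rw [if_neg hia, if_neg hia, e2, hGb]
      have e1 : m + 1 = b + a := by omega
      have e3 : ((i.val - a + 1 : ℕ) : ℤ) = (i.val : ℤ) + 1 - a := by
        have : a ≤ i.val := by omega
        push_cast [Nat.cast_sub this]
        ring
      have hGm := hG a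
      rw [← e1] at hGm
      rw [hGm, lms_sum_le b (T (b * s)) E _ f (i.val - a + 1) (by omega), e3]
      ring
  refine Matrix.ext fun i j => ?_
  have h := congrFun (key (Pi.single j 1)) i
  rw [Matrix.mulVec_single_one, Matrix.mulVec_single_one] at h
  exact h

end Pool.Agent.Helper71.TG
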