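import Mathlib
import Pool.Agent.Helper71.TG.BurA

/-!
# TG-B: the determinant in the coordinates `G_i`

As `det_low` in `Helper71/FT/BurB.lean` (copy and adapt the private lemmas `dl_unit`, `dl_last`, `dl_sub`): the last row of
`crossS` is the last unit vector (row `i = m`: `m + 1 - a = b` and `1 - E * (1 - T b) = S`, and `k + a = m` iff `k + 1 = b`), expand along it.
-/

set_option autoImplicit false

namespace Pool.Agent.Helper71.TG

open Polynomial LaurentPolynomial
open Pool.Agent.Helper62.OB Pool.Agent.Helper71.FT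

/-- the entries of the column `b - 1` -/
noncomputable def colS (a : ℕ) (E : ℤ[T;T⁻¹]) (j : ℕ) : ℤ[T;T⁻¹] :=
  if j ≤ a then T (j : ℤ) else T (a : ℤ) * (1 - E * (1 - T ((j : ℤ) - a)))

private theorem dls_unit (m : ℕ) : IsUnit (lowM m).det := by
  rw [Matrix.det_of_lowerTriangular (lowM m) (by
    intro i j hij
    have h : i < j := hij
    have h2 : i.val < j.val := h
    show (if j.val ≤ i.val then T (j.val : ℤ) else 0) = (0 : ℤ[T;T⁻¹])
    rw [if_neg (by omega)])]
  have h : ∀ s : Finset (Fin (m + 1)), IsUnit (∏ i ∈ s, lowM m i i) := by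
    intro s
    induction s using Finset.induction_on with
    | empty => rw [Finset.prod_empty]; exact isUnit_one
    | insert a s ha ih =>
      rw [Finset.prod_insert ha]
      refine IsUnit.mul ?_ ih
      have e : lowM m a a = T (a.val : ℤ) := by
        show (if a.val ≤ a.val then T (a.val : ℤ) else 0) = T (a.val : ℤ)
        rw [if_pos le_rfl]
      rw [e]
      exact isUnit_T _
  exact h Finset.univ

private theorem dls_last (m a b : ℕ) (hb : 1 ≤ b) (hab : a + b = m + 1) (S E : ℤ[T;T⁻¹])
    (hE : (1 - T (b : ℤ)) * E = 1 - S) (k : Fin (m + 1)) :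
    crossS m a b S E (Fin.last m) k = if k = Fin.last m then 1 else 0 := by
  have hk : (k = Fin.last m) = (k.val = m) := by
    apply propext
    rw [Fin.ext_iff, Fin.val_last]
  have hka : (k.val + a = m) = (k.val + 1 = b) := by
    apply propext
    omega
  have hbz : (m : ℤ) + 1 - a = b := by omega
  show (if m + 1 ≤ a then
      (if k.val = m + b then 1 else 0) - T ((m : ℤ) + 1) * (if k.val + 1 = b then 1 else 0)
    else (if k.val = m then 1 else 0) -
      T (a : ℤ) * (1 - E * (1 - T ((m : ℤ) + 1 - a))) * (if k.val + 1 = b then 1 else 0) +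
      T (a : ℤ) * S * (if k.val + a = m then 1 else 0)) =
        (if k = Fin.last m then 1 else 0 : ℤ[T;T⁻¹])
  rw [if_neg (by omega), hbz]
  simp only [hk, hka]
  linear_combination (T (a : ℤ) * (if k.val + 1 = b then 1 else 0)) * hE

private theorem dls_sub (m a b : ℕ) (hab : a + b = m + 1) (S E : ℤ[T;T⁻¹]) (i k : Fin m) :
    crossS m a b S E i.castSucc k.castSucc =
      (if i.val + 1 < a ∧ k.val = i.val + b then 1 else 0) +
          (if a < i.val + 1 ∧ k.val + a = i.val then T (a : ℤ) * S else 0) -
          (if k.val + 1 = b then colS a E (i.val + 1) else 0) := by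
  have hi := i.isLt
  have hk := k.isLt
  show (if i.val + 1 ≤ a then
      (if k.val = i.val + b then 1 else 0) - T ((i.val : ℤ) + 1) * (if k.val + 1 = b then 1 else 0)
    else (if k.val = m then 1 else 0) -
      T (a : ℤ) * (1 - E * (1 - T ((i.val : ℤ) + 1 - a))) * (if k.val + 1 = b then 1 else 0) +
      T (a : ℤ) * S * (if k.val + a = i.val then 1 else 0)) = _
  unfold colS
  by_cases h1 : i.val + 1 ≤ a
  · rw [if_pos h1, if_pos h1]
    have e1 : (i.val + 1 < a ∧ k.val = i.val + b) = (k.val = i.val + b) := by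
      apply propext
      constructor
      · exact fun h => h.2
      · intro h
        exact ⟨by omega, h⟩
    have e2 : (a < i.val + 1 ∧ k.val + a = i.val) = False := by
      apply propext
      constructor
      · intro h
        omega
      · exact False.elim
    simp only [e1, e2, if_false]
    push_cast
    split_ifs <;> ring
  · rw [if_neg h1, if_neg h1]
    have e1 : (i.val + 1 < a ∧ k.val = i.val + b) = False := by
      apply propext
      constructor
      · intro h
        omega
      · exact False.elim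
    have e2 : (a < i.val + 1 ∧ k.val + a = i.val) = (k.val + a = i.val) := by
      apply propext
      constructor
      · exact fun h => h.2
      · intro h
        exact ⟨by omega, h⟩
    have e3 : ¬ k.val = m := by omega
    have e4 : (((i.val + 1 : ℕ) : ℤ) - a) = (i.val : ℤ) + 1 - a := by push_cast; rfl
    simp only [e1, e2, e3, if_false, e4]
    split_ifs <;> ring

theorem det_low_s (m a b : ℕ) (ha : 1 ≤ a) (hb : 1 ≤ b) (hab : a + b = m + 1)
    (β : BraidGroup m) (S E : ℤ[T;T⁻¹]) (hE : (1 - T (b : ℤ)) * E = 1 - S)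
    (h : lowM m * (burau m β : Matrix (Fin (m + 1)) (Fin (m + 1)) ℤ[T;T⁻¹]) =
      crossS m a b S E * lowM m) (c : ℤ[T;T⁻¹]) :
    (1 - c • (burau m β : Matrix (Fin (m + 1)) (Fin (m + 1)) ℤ[T;T⁻¹])).det =
      (1 - c) * (Matrix.of fun i k : Fin m => (if i = k then 1 else 0) -
        c * ((if i.val + 1 < a ∧ k.val = i.val + b then 1 else 0) +
          (if a < i.val + 1 ∧ k.val + a = i.val then T (a : ℤ) * S else 0) -
          (if k.val + 1 = b then colS a E (i.val + 1) else 0)) :
            Matrix (Fin m) (Fin m) ℤ[T;T⁻¹]).det := by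
  have h1 : lowM m * (1 - c • (burau m β : Matrix (Fin (m + 1)) (Fin (m + 1)) ℤ[T;T⁻¹])) =
      (1 - c • crossS m a b S E) * lowM m := by
    rw [Matrix.mul_sub, Matrix.sub_mul, Matrix.mul_one, Matrix.one_mul, Matrix.mul_smul,
      Matrix.smul_mul, h]
  have h2 : (1 - c • (burau m β : Matrix (Fin (m + 1)) (Fin (m + 1)) ℤ[T;T⁻¹])).det =
      (1 - c • crossS m a b S E).det := by
    have h3 := congrArg Matrix.det h1
    rw [Matrix.det_mul, Matrix.det_mul, mul_comm _ (lowM m).det] at h3
    exact (dls_unit m).mul_left_cancel h3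
  rw [h2, Matrix.det_succ_row _ (Fin.last m), Finset.sum_eq_single (Fin.last m)]
  · have e1 : (1 - c • crossS m a b S E : Matrix (Fin (m + 1)) (Fin (m + 1)) ℤ[T;T⁻¹]) (Fin.last m)
        (Fin.last m) = 1 - c := by
      rw [Matrix.sub_apply, Matrix.one_apply_eq, Matrix.smul_apply, dls_last m a b hb hab S E hE,
        if_pos rfl, smul_eq_mul, mul_one]
    have e2 : (-1 : ℤ[T;T⁻¹]) ^ ((Fin.last m : Fin (m + 1)).val + (Fin.last m : Fin (m + 1)).val) = 1 := by
      rw [← two_mul, pow_mul]
      norm_num
    rw [e1, e2, one_mul]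
    congr 2
    ext i k
    rw [Matrix.submatrix_apply, Fin.succAbove_last, Matrix.sub_apply, Matrix.smul_apply,
      dls_sub m a b hab, smul_eq_mul, Matrix.of_apply, Matrix.one_apply]
    simp only [Fin.castSucc_inj]
  · intro k _ hk
    have e1 : (1 - c • crossS m a b S E : Matrix (Fin (m + 1)) (Fin (m + 1)) ℤ[T;T⁻¹]) (Fin.last m) k = 0 := by
      rw [Matrix.sub_apply, Matrix.one_apply_ne (Ne.symm hk), Matrix.smul_apply,
        dls_last m a b hb hab S E hE, if_neg hk, smul_zero, sub_zero]
    rw [e1, mul_zero, zero_mul]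
  · intro h
    exact absurd (Finset.mem_univ _) h

end Pool.Agent.Helper71.TG
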