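import Mathlib
import Pool.Agent.Helper71.TG.BurB
import Pool.Agent.Helper71.TG.BurC
import Pool.Agent.Helper71.FT.BurD

/-!
# TG-D: the Alexander polynomial

As `alex_formula` in `Helper71/FT/BurD.lean` (`burau_fix`, `burau_twists` are there): `N` the matrix of `cross m a b * twb m b ^ s`,
`c = T (k * (m + 1))`, `det (1 - c • N) = (1 - c) * (∑ T i) * alexander`, and by `twb_act`, `low_mul_s`, `det_low_s`, `det_companion_s`
(`ω = T a * T (b s)`, `col = colS a E`) `det (1 - c • N) = (1 - c) * ∑_R c ^ R * (ω ^ (R b / n) * colS a E (R b % n))`.  Cancel `1 - c ≠ 0` and multiply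
by `1 - T b`: with `j = R b % n`, `λ = j - a` (`la`), `(1 - T b) * colS a E j = T (min j a) * (T (b s) * (1 - T λ) + T λ - T b)` (for `j ≤ a`: `λ = 0`; for
`j > a`: `(1 - T b) * E = 1 - T (b s)`).  Note `b ≤ m` as `1 ≤ a`.
-/

set_option autoImplicit false

namespace Pool.Agent.Helper71.TG

open Polynomial LaurentPolynomial
open Pool.Agent.Helper62.OB Pool.Agent.Helper71.FT

private theorem alexs_T_ne (k : ℤ) (hk : k ≠ 0) : (1 - T k : ℤ[T;T⁻¹]) ≠ 0 := by
  intro h
  have h2 : (T 0 : ℤ[T;T⁻¹]) = T k := by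
    rw [T_zero]
    exact sub_eq_zero.1 h
  have h3 := congrArg (fun f : ℤ[T;T⁻¹] => f.coeff 0) h2
  simp at h3
  omega

private theorem alexs_term (a b : ℕ) (E : ℤ[T;T⁻¹]) (s : ℤ)
    (hE : (1 - T (b : ℤ)) * E = 1 - T (b * s)) (j : ℕ) :
    (1 - T (b : ℤ)) * colS a E j =
      T ((min j a : ℕ) : ℤ) * (T (b * s) - T (b * s + ((j - a : ℕ) : ℤ)) + T ((j - a : ℕ) : ℤ) -
        T (b : ℤ)) := by
  unfold colS
  by_cases h : j ≤ a
  · rw [if_pos h, Nat.sub_eq_zero_of_le h, Nat.min_eq_left h]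
    simp only [Nat.cast_zero, add_zero, T_zero]
    ring
  · have h1 : ((j - a : ℕ) : ℤ) = (j : ℤ) - a := by omega
    rw [if_neg h, Nat.min_eq_right (by omega), h1, T_add]
    linear_combination (-(T (a : ℤ)) * (1 - T ((j : ℤ) - a))) * hE

theorem alex_formula_s (m a b : ℕ) (ha : 1 ≤ a) (hb : 1 ≤ b) (hab : a + b = m + 1)
    (hc : Nat.Coprime a b) (s k : ℤ) (hk : k ≠ 0) :
    (1 - T (b : ℤ)) * ((∑ i ∈ Finset.range (m + 1), (T (i : ℤ) : ℤ[T;T⁻¹])) *
      alexander (tg m a b s k)) =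
      ∑ R ∈ Finset.range (m + 1),
        (T (sx (m + 1) a b s k R + b * s) - T (sx (m + 1) a b s k R + b * s + la (m + 1) a b R) +
          T (sx (m + 1) a b s k R + la (m + 1) a b R) - T (sx (m + 1) a b s k R + b)) := by
  have hbm : b ≤ m := by omega
  have hne : k * ((m : ℤ) + 1) ≠ 0 := mul_ne_zero hk (by omega)
  obtain ⟨E, hE, hact⟩ := twb_act m b hb hbm s
  have hlowm := low_mul_s m a b ha hb hab s E hE hact
  obtain ⟨g, hg, hW⟩ := burau_twists m k
  set c : ℤ[T;T⁻¹] := T (k * ((m : ℤ) + 1)) with hcdef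
  set N : Matrix (Fin (m + 1)) (Fin (m + 1)) ℤ[T;T⁻¹] :=
    (burau m (cross m a b * twb m b ^ s) : Matrix (Fin (m + 1)) (Fin (m + 1)) ℤ[T;T⁻¹]) with hN
  set ψ : Matrix (Fin (m + 1)) (Fin (m + 1)) ℤ[T;T⁻¹] :=
    (burau m (tg m a b s k) : Matrix (Fin (m + 1)) (Fin (m + 1)) ℤ[T;T⁻¹]) with hψ
  have hNrow : ∀ i, ∑ k, N i k = 1 := by
    intro i
    have h1 := congrFun (burau_fix m (cross m a b * twb m b ^ s)).1 i
    rw [Matrix.mulVec, dotProduct, ← hN] at h1
    simpa using h1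
  have hψe : ∀ i j, ψ i j = c * N i j + g j := by
    intro i j
    have h1 : ψ = N * (burau m ((rn m 0 m ^ (m + 1)) ^ k) :
        Matrix (Fin (m + 1)) (Fin (m + 1)) ℤ[T;T⁻¹]) := by
      rw [hψ, hN, tg, map_mul (burau m) (cross m a b * twb m b ^ s), Units.val_mul]
    rw [h1, Matrix.mul_apply]
    have h2 : ∀ l, N i l * (burau m ((rn m 0 m ^ (m + 1)) ^ k) :
        Matrix (Fin (m + 1)) (Fin (m + 1)) ℤ[T;T⁻¹]) l j =
        (if l = j then c * N i l else 0) + N i l * g j := by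
      intro l
      rw [hW]
      split_ifs <;> ring
    rw [Finset.sum_congr rfl fun l _ => h2 l, Finset.sum_add_distrib, Finset.sum_ite_eq',
      if_pos (Finset.mem_univ j), ← Finset.sum_mul, hNrow, one_mul]
  have hY : (1 - ψ) + Matrix.of (fun _ j => g j) = 1 - c • N := by
    refine Matrix.ext fun i j => ?_
    rw [Matrix.add_apply, Matrix.sub_apply, Matrix.sub_apply, Matrix.of_apply, hψe,
      Matrix.smul_apply, smul_eq_mul]
    ring
  have hrank := det_rank_one m (1 - ψ) g (fun i : Fin (m + 1) => T (i.val : ℤ)) (by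
      intro i
      have h1 := congrFun (burau_fix m (tg m a b s k)).1 i
      rw [Matrix.mulVec, dotProduct] at h1
      simp only [Matrix.sub_apply, Finset.sum_sub_distrib]
      rw [← hψ] at h1
      have h2 : ∑ j, ψ i j = 1 := by simpa using h1
      rw [h2]
      simp [Matrix.one_apply]) (by
      intro j
      have h1 := congrFun (burau_fix m (tg m a b s k)).2 j
      rw [Matrix.vecMul, dotProduct] at h1
      simp only [Matrix.sub_apply, mul_sub, Finset.sum_sub_distrib]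
      rw [← hψ] at h1
      rw [h1]
      simp [Matrix.one_apply]) (by simp)
  rw [hY, hg] at hrank
  have hlow := det_low_s m a b ha hb hab (cross m a b * twb m b ^ s) (T (b * s)) E hE hlowm c
  rw [← hN] at hlow
  have hcomp := det_companion_s m a b ha hb hab hc c (T (a : ℤ) * T (b * s)) (colS a E)
    (by simp [colS])
  rw [hcomp] at hlow
  rw [hlow] at hrank
  have hsum : (∑ i : Fin (m + 1), (T (i.val : ℤ) : ℤ[T;T⁻¹])) =
      ∑ i ∈ Finset.range (m + 1), T (i : ℤ) :=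
    Fin.sum_univ_eq_sum_range (fun i => (T (i : ℤ) : ℤ[T;T⁻¹])) (m + 1)
  have hal : alexander (tg m a b s k) = ((1 - ψ).submatrix Fin.succ Fin.succ).det := by
    rw [alexander, ← hψ]
  have hmain : (∑ i ∈ Finset.range (m + 1), (T (i : ℤ) : ℤ[T;T⁻¹])) * alexander (tg m a b s k) =
      ∑ R ∈ Finset.range (m + 1), c ^ R * ((T (a : ℤ) * T (b * s)) ^ (R * b / (m + 1)) *
        colS a E (R * b % (m + 1))) := by
    apply mul_left_cancel₀ (alexs_T_ne _ hne)
    rw [hal, ← mul_assoc, ← hsum, ← hrank]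
  rw [hmain, Finset.mul_sum]
  refine Finset.sum_congr rfl fun R _ => ?_
  have h1 := alexs_term a b E s hE (R * b % (m + 1))
  have h2 : (T (sx (m + 1) a b s k R) : ℤ[T;T⁻¹]) =
      c ^ R * ((T (a : ℤ) * T (b * s)) ^ (R * b / (m + 1)) *
        T ((min (R * b % (m + 1)) a : ℕ) : ℤ)) := by
    rw [hcdef, ← T_add, T_pow, T_pow, ← T_add, ← T_add]
    congr 1
    unfold sx
    push_cast
    ring
  have h3 : ∀ x : ℤ, (T (sx (m + 1) a b s k R + x) : ℤ[T;T⁻¹]) =
      T (sx (m + 1) a b s k R) * T x := fun x => T_add _ _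
  rw [add_assoc (sx (m + 1) a b s k R), h3, h3, h3, h3, h2]
  unfold la
  linear_combination (c ^ R * (T (a : ℤ) * T (b * s)) ^ (R * b / (m + 1))) * h1

end Pool.Agent.Helper71.TG
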