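import Mathlib
import Pool.Agent.Helper71.TG.Defs
import Pool.Agent.Helper71.FT.Tri

/-!
# TG-F: the ring identity
-/

set_option autoImplicit false

namespace Pool.Agent.Helper71.TG

open Finset

variable {n a b l q : ℕ} {ε : ℤ}

/-- the term `R` of the sum, at `x = y ^ 2` -/
noncomputable def tR {K : Type*} [Field K] (n a b : ℕ) (s k : ℤ) (y : K) (R : ℕ) : K :=
  y ^ (2 * (sx n a b s k R + b * s)) - y ^ (2 * (sx n a b s k R + b * s + la n a b R)) +
    y ^ (2 * (sx n a b s k R + la n a b R)) - y ^ (2 * (sx n a b s k R + b))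

/-- the mirror image of the term `R` -/
noncomputable def tM {K : Type*} [Field K] (n a b : ℕ) (s k : ℤ) (y : K) (N : ℤ) (R : ℕ) : K :=
  y ^ (2 * (N - (sx n a b s k R + b * s))) - y ^ (2 * (N - (sx n a b s k R + b * s + la n a b R))) +
    y ^ (2 * (N - (sx n a b s k R + la n a b R))) - y ^ (2 * (N - (sx n a b s k R + b)))

theorem sx_eq {R Q j : ℕ} (h : R * b = n * Q + j) (hj : j < n) (s k : ℤ) :
    sx n a b s k R = k * n * R + (a + b * s) * Q + (min j a : ℕ) := by
  have h1 : R * b / n = Q := by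
    rw [h, Nat.mul_add_div (by omega), Nat.div_eq_of_lt hj, add_zero]
  have h2 : R * b % n = j := by
    rw [h, Nat.mul_add_mod, Nat.mod_eq_of_lt hj]
  unfold sx
  rw [h1, h2]

theorem Dat.npos (D : Dat n a b l q ε) : 0 < n := by
  have := D.hn
  have := D.ha
  omega

theorem Dat.nat_one (D : Dat n a b l q ε) (h : ε = 1) : l * b = n * q + 1 := by
  have h1 := D.hl
  rw [h] at h1
  exact_mod_cast h1

theorem Dat.nat_neg (D : Dat n a b l q ε) (h : ε = -1) : l * b + 1 = n * q := by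
  have h1 := D.hl
  rw [h] at h1
  have h2 : ((l * b + 1 : ℕ) : ℤ) = ((n * q : ℕ) : ℤ) := by
    push_cast
    linarith
  exact_mod_cast h2

theorem Dat.lpos (D : Dat n a b l q ε) : 1 ≤ l := by
  have h1 := D.hn
  have h2 := D.ha
  by_contra hcon
  have h5 : l = 0 := by omega
  rcases D.hε with h | h
  · have h4 := D.nat_one h
    rw [h5] at h4
    omega
  · have h4 := D.nat_neg h
    rw [h5, zero_mul, zero_add] at h4
    have h6 : n ∣ 1 := ⟨q, h4⟩
    have := Nat.dvd_one.1 h6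
    omega

theorem Dat.qpos (D : Dat n a b l q ε) : 1 ≤ q := by
  have h1 := D.lpos
  have h3 := D.hb
  by_contra hcon
  have h5 : q = 0 := by omega
  have h6 : 1 * 2 ≤ l * b := Nat.mul_le_mul h1 h3
  rcases D.hε with h | h
  · have h4 := D.nat_one h
    rw [h5] at h4
    omega
  · have h4 := D.nat_neg h
    rw [h5] at h4
    omega

theorem Dat.cop (D : Dat n a b l q ε) : Nat.Coprime n b := by
  rw [Nat.coprime_iff_gcd_eq_one]
  have d1 := Nat.gcd_dvd_left n b
  have d2 := Nat.gcd_dvd_right n b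
  have d3 : Nat.gcd n b ∣ l * b := d2.mul_left l
  have d4 : Nat.gcd n b ∣ n * q := d1.mul_right q
  rcases D.hε with h | h
  · rw [D.nat_one h] at d3
    exact Nat.dvd_one.1 ((Nat.dvd_add_right d4).1 d3)
  · rw [← D.nat_neg h] at d4
    exact Nat.dvd_one.1 ((Nat.dvd_add_right d3).1 d4)

theorem Dat.mid (D : Dat n a b l q ε) {R : ℕ} (h0 : R ≠ 0) (h1 : R < n - 1) :
    R * b % n ≠ 0 ∧ R * b % n ≠ a := by
  have hn := D.npos
  have hab := D.hn
  constructor
  · intro h
    have h3 : n ∣ R * b := Nat.dvd_of_mod_eq_zero h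
    have h4 : n ∣ R := D.cop.dvd_of_dvd_mul_right h3
    exact absurd (Nat.le_of_dvd (Nat.pos_of_ne_zero h0) h4) (by omega)
  · intro h
    have h2 := Nat.div_add_mod (R * b) n
    have h3 : n ∣ (R + 1) * b := by
      refine ⟨R * b / n + 1, ?_⟩
      rw [add_mul, mul_add]
      omega
    have h4 : n ∣ R + 1 := D.cop.dvd_of_dvd_mul_right h3
    exact absurd (Nat.le_of_dvd (Nat.succ_pos R) h4) (by omega)

theorem Dat.last (D : Dat n a b l q ε) : (n - 1) * b = n * (b - 1) + a := by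
  have h1 := D.hn
  have h2 := D.hb
  obtain ⟨b', rfl⟩ : ∃ b', b = b' + 2 := ⟨b - 2, by omega⟩
  subst h1
  rw [show a + (b' + 2) - 1 = a + b' + 1 by omega, show b' + 2 - 1 = b' + 1 by omega]
  ring

theorem sx_last (D : Dat n a b l q ε) (s k : ℤ) :
    sx n a b s k (n - 1) = k * n ^ 2 + a * b + s * b ^ 2 - k * n - b * s := by
  have h1 := D.hn
  have h2 := D.hb
  have hn := D.npos
  rw [sx_eq (D.last) (by omega), min_self, Nat.cast_sub (by omega)]
  push_cast [show 1 ≤ b by omega]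
  ring

theorem sx_zero (s k : ℤ) : sx n a b s k 0 = 0 := by
  unfold sx
  rw [zero_mul, Nat.zero_div, Nat.zero_mod]
  simp

section sums

variable {K : Type*} [Field K]

/-- the functions -/
noncomputable def F1 (n a b : ℕ) (s k : ℤ) (y : K) (R : ℕ) : K :=
  if 1 ≤ R * b % n ∧ R * b % n ≤ a then y ^ (2 * sx n a b s k R) else 0

/-- the functions -/
noncomputable def F2 (n a b : ℕ) (s k : ℤ) (y : K) (R : ℕ) : K :=
  if 1 ≤ R * b % n ∧ R * b % n ≤ a then 0
  else y ^ (2 * (sx n a b s k R - if R * b % n = 0 then b * s else 0))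

/-- the functions -/
noncomputable def F3 (n a b : ℕ) (s k : ℤ) (y : K) (R : ℕ) : K :=
  if 1 ≤ R * b % n ∧ R * b % n ≤ a then 0
  else y ^ (2 * (sx n a b s k R + if R * b % n = 0 then b - b * s else
    ((R * b % n : ℕ) : ℤ) - a))

/-- the functions -/
noncomputable def G1 (n a b : ℕ) (s k : ℤ) (y : K) (R : ℕ) : K :=
  if R * b % n < a then y ^ (2 * sx n a b s k R) else 0

/-- the functions -/
noncomputable def G2 (n a b : ℕ) (s k : ℤ) (y : K) (R : ℕ) : K :=
  if R * b % n < a then 0 else y ^ (2 * sx n a b s k R)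

/-- the functions -/
noncomputable def G3 (n a b : ℕ) (s k : ℤ) (y : K) (R : ℕ) : K :=
  if R * b % n < a then 0 else y ^ (2 * (sx n a b s k R + (((R * b % n : ℕ) : ℤ) - a)))

theorem tR_F (s k : ℤ) (y : K) (hy : y ≠ 0) (R : ℕ) : tR n a b s k y R =
    (1 - y ^ (2 * (b : ℤ))) * F1 n a b s k y R +
      (y ^ (2 * (b * s)) - y ^ (2 * (b : ℤ))) * F2 n a b s k y R +
      (1 - y ^ (2 * (b * s))) * F3 n a b s k y R := by
  unfold tR F1 F2 F3 la
  by_cases h : 1 ≤ R * b % n ∧ R * b % n ≤ a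
  · rw [if_pos h, if_pos h, if_pos h, Nat.sub_eq_zero_of_le h.2, Nat.cast_zero, add_zero, add_zero,
      mul_zero, mul_zero, add_zero, add_zero, mul_add 2 (sx n a b s k R) (b : ℤ), zpow_add₀ hy]
    ring
  · rw [if_neg h, if_neg h, if_neg h, mul_zero, zero_add]
    by_cases h0 : R * b % n = 0
    · rw [if_pos h0, if_pos h0, h0, Nat.zero_sub, Nat.cast_zero, add_zero, add_zero, sub_mul,
        sub_mul, one_mul, ← zpow_add₀ hy, ← zpow_add₀ hy, ← zpow_add₀ hy]
      have e1 : 2 * ((b : ℤ) * s) + 2 * (sx n a b s k R - b * s) = 2 * sx n a b s k R := by ring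
      have e2 : 2 * (b : ℤ) + 2 * (sx n a b s k R - b * s) =
          2 * (sx n a b s k R + (b - b * s)) := by ring
      have e3 : 2 * ((b : ℤ) * s) + 2 * (sx n a b s k R + (b - b * s)) =
          2 * (sx n a b s k R + b) := by ring
      rw [e1, e2, e3]
      ring
    · rw [if_neg h0, if_neg h0]
      have h1 : a ≤ R * b % n := by omega
      rw [Nat.cast_sub h1, sub_zero, sub_mul, sub_mul, one_mul, ← zpow_add₀ hy, ← zpow_add₀ hy,
        ← zpow_add₀ hy]
      have e1 : 2 * ((b : ℤ) * s) + 2 * sx n a b s k R = 2 * (sx n a b s k R + b * s) := by ring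
      have e2 : 2 * (b : ℤ) + 2 * sx n a b s k R = 2 * (sx n a b s k R + b) := by ring
      have e3 : 2 * ((b : ℤ) * s) + 2 * (sx n a b s k R + (((R * b % n : ℕ) : ℤ) - a)) =
          2 * (sx n a b s k R + b * s + (((R * b % n : ℕ) : ℤ) - a)) := by ring
      rw [e1, e2, e3]
      ring

theorem tR_G (s k : ℤ) (y : K) (hy : y ≠ 0) (R : ℕ) : tR n a b s k y R =
    (1 - y ^ (2 * (b : ℤ))) * G1 n a b s k y R +
      (y ^ (2 * (b * s)) - y ^ (2 * (b : ℤ))) * G2 n a b s k y R +
      (1 - y ^ (2 * (b * s))) * G3 n a b s k y R := by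
  unfold tR G1 G2 G3 la
  by_cases h : R * b % n < a
  · rw [if_pos h, if_pos h, if_pos h, Nat.sub_eq_zero_of_le h.le, Nat.cast_zero, add_zero, add_zero,
      mul_zero, mul_zero, add_zero, add_zero, mul_add 2 (sx n a b s k R) (b : ℤ), zpow_add₀ hy]
    ring
  · rw [if_neg h, if_neg h, if_neg h, mul_zero, zero_add]
    have h1 : a ≤ R * b % n := by omega
    rw [Nat.cast_sub h1, sub_mul, sub_mul, one_mul, ← zpow_add₀ hy, ← zpow_add₀ hy,
      ← zpow_add₀ hy]
    have e1 : 2 * ((b : ℤ) * s) + 2 * sx n a b s k R = 2 * (sx n a b s k R + b * s) := by ring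
    have e2 : 2 * (b : ℤ) + 2 * sx n a b s k R = 2 * (sx n a b s k R + b) := by ring
    have e3 : 2 * ((b : ℤ) * s) + 2 * (sx n a b s k R + (((R * b % n : ℕ) : ℤ) - a)) =
        2 * (sx n a b s k R + b * s + (((R * b % n : ℕ) : ℤ) - a)) := by ring
    rw [e1, e2, e3]
    ring

/-- the abstract identity -/
theorem abs_id (n l : ℕ) (F1 F2 F3 G1 G2 G3 : ℕ → K) (B S u z P d1 d2 d3 : K)
    (h1 : ∀ R, F1 (l + R) = u * z * G1 R) (h2 : ∀ R, F2 (l + R) = u * G2 R)
    (h3 : ∀ R, F3 (l + R) = u * z * G3 R)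
    (p1 : ∀ R, F1 (n + R) = P * F1 R) (p2 : ∀ R, F2 (n + R) = P * F2 R)
    (p3 : ∀ R, F3 (n + R) = P * F3 R)
    (s1 : ∑ R ∈ range n, G1 R = ∑ R ∈ range n, F1 R + d1)
    (s2 : ∑ R ∈ range n, G2 R = ∑ R ∈ range n, F2 R + d2)
    (s3 : ∑ R ∈ range n, G3 R = ∑ R ∈ range n, F3 R + d3)
    (hd : (1 - B) * d1 + (S - B) * d2 + (1 - S) * d3 = 0) :
    (1 - u) * (1 - u * z) * (∑ R ∈ range n, ((1 - B) * F1 R + (S - B) * F2 R + (1 - S) * F3 R)) =
      (1 - P) * ((∑ R ∈ range l, ((1 - B) * F1 R + (S - B) * F2 R + (1 - S) * F3 R)) -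
        u * ∑ R ∈ range l, ((1 - B) * F1 R + z * (S - B) * F2 R + (1 - S) * F3 R)) +
      u * (1 - z) * (S - B) * d2 := by
  have t1 := FT.sum_shift F1 n l
  have t2 := FT.sum_shift F2 n l
  have t3 := FT.sum_shift F3 n l
  have r : ∀ (F : ℕ → K), (∀ R, F (n + R) = P * F R) →
      ∑ R ∈ range l, (F (n + R) - F R) = (P - 1) * ∑ R ∈ range l, F R := by
    intro F hF
    rw [mul_sum]
    refine sum_congr rfl fun R _ => ?_
    rw [hF]
    ring
  rw [r F1 p1, sum_congr rfl fun R _ => h1 R, ← mul_sum, s1] at t1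
  rw [r F2 p2, sum_congr rfl fun R _ => h2 R, ← mul_sum, s2] at t2
  rw [r F3 p3, sum_congr rfl fun R _ => h3 R, ← mul_sum, s3] at t3
  simp only [sum_add_distrib, ← mul_sum]
  generalize (∑ R ∈ range n, F1 R) = A1 at *
  generalize (∑ R ∈ range n, F2 R) = A2 at *
  generalize (∑ R ∈ range n, F3 R) = A3 at *
  generalize (∑ R ∈ range l, F1 R) = C1 at *
  generalize (∑ R ∈ range l, F2 R) = C2 at *
  generalize (∑ R ∈ range l, F3 R) = C3 at *
  linear_combination -(1 - u) * (1 - B) * t1 - (1 - u * z) * (S - B) * t2 -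
    (1 - u) * (1 - S) * t3 + (u * z - u ^ 2 * z) * hd

/-- `κ` -/
def kap (n a b l q : ℕ) (s k : ℤ) : ℤ := k * n * l + (a + b * s) * q

theorem stepP (D : Dat n a b l q ε) (h : ε = 1) (s k : ℤ) (R : ℕ) :
    (R * b % n < a ∧ (l + R) * b % n = R * b % n + 1 ∧
      sx n a b s k (l + R) = sx n a b s k R + kap n a b l q s k + 1) ∨
    (a ≤ R * b % n ∧ (l + R) * b % n = R * b % n + 1 ∧
      sx n a b s k (l + R) = sx n a b s k R + kap n a b l q s k) ∨
    (R * b % n = a + b - 1 ∧ (l + R) * b % n = 0 ∧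
      sx n a b s k (l + R) = sx n a b s k R + kap n a b l q s k + b * s) := by
  have hn := D.npos
  have hl := D.nat_one h
  have hab := D.hn
  have hb := D.hb
  have h1 := Nat.div_add_mod (R * b) n
  have h2 := Nat.mod_lt (R * b) hn
  rw [sx_eq (Q := R * b / n) (j := R * b % n) h1.symm h2]
  set Q := R * b / n
  set j := R * b % n
  unfold kap
  rcases Nat.lt_or_ge (j + 1) n with h3 | h3
  · have e1 : (l + R) * b = n * (Q + q) + (j + 1) := by
      rw [add_mul, mul_add, hl]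
      omega
    rw [FT.mod_eq e1 h3, sx_eq e1 h3]
    rcases Nat.lt_or_ge j a with h4 | h4
    · left
      refine ⟨h4, rfl, ?_⟩
      rw [min_eq_left h4.le, min_eq_left (show j + 1 ≤ a by omega)]
      push_cast
      ring
    · right
      left
      refine ⟨h4, rfl, ?_⟩
      rw [min_eq_right h4, min_eq_right (show a ≤ j + 1 by omega)]
      push_cast
      ring
  · right
    right
    have e1 : (l + R) * b = n * (Q + q + 1) + 0 := by
      rw [add_mul, mul_add, mul_add, hl]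
      omega
    rw [FT.mod_eq e1 hn, sx_eq e1 hn]
    refine ⟨by omega, rfl, ?_⟩
    rw [min_eq_right (show a ≤ j by omega), min_eq_left (Nat.zero_le a)]
    push_cast
    ring

theorem stepM (D : Dat n a b l q ε) (h : ε = -1) (s k : ℤ) (R : ℕ) :
    (1 ≤ R * b % n ∧ R * b % n ≤ a ∧ (l + R) * b % n = R * b % n - 1 ∧
      sx n a b s k (l + R) = sx n a b s k R + kap n a b l q s k - 1) ∨
    (a < R * b % n ∧ (l + R) * b % n = R * b % n - 1 ∧
      sx n a b s k (l + R) = sx n a b s k R + kap n a b l q s k) ∨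
    (R * b % n = 0 ∧ (l + R) * b % n = a + b - 1 ∧
      sx n a b s k (l + R) = sx n a b s k R + kap n a b l q s k - b * s) := by
  have hn := D.npos
  have hl := D.nat_neg h
  have hab := D.hn
  have ha := D.ha
  have hb := D.hb
  have hq := D.qpos
  have h1 := Nat.div_add_mod (R * b) n
  have h2 := Nat.mod_lt (R * b) hn
  rw [sx_eq (Q := R * b / n) (j := R * b % n) h1.symm h2]
  set Q := R * b / n
  set j := R * b % n
  unfold kap
  rcases Nat.eq_zero_or_pos j with h3 | h3
  · right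
    right
    obtain ⟨q', rfl⟩ : ∃ q', q = q' + 1 := ⟨q - 1, by omega⟩
    have e1 : (l + R) * b = n * (Q + q') + (n - 1) := by
      rw [mul_add] at hl
      rw [add_mul, mul_add]
      omega
    rw [FT.mod_eq e1 (by omega), sx_eq e1 (by omega), h3]
    refine ⟨rfl, by omega, ?_⟩
    rw [min_eq_right (show a ≤ n - 1 by omega), min_eq_left (Nat.zero_le a)]
    push_cast
    ring
  · obtain ⟨i, hi⟩ : ∃ i, j = i + 1 := ⟨j - 1, by omega⟩
    have e1 : (l + R) * b = n * (Q + q) + i := by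
      rw [add_mul, mul_add, ← hl]
      omega
    rw [FT.mod_eq e1 (by omega), sx_eq e1 (by omega), hi]
    rcases Nat.lt_or_ge a j with h4 | h4
    · right
      left
      refine ⟨by omega, by omega, ?_⟩
      rw [min_eq_right (show a ≤ i + 1 by omega), min_eq_right (show a ≤ i by omega)]
      push_cast
      ring
    · left
      refine ⟨by omega, by omega, by omega, ?_⟩
      rw [min_eq_left (show i + 1 ≤ a by omega), min_eq_left (show i ≤ a by omega)]
      push_cast
      ring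

theorem shiftP (D : Dat n a b l q ε) (h : ε = 1) (s k : ℤ) (y : K) (hy : y ≠ 0) (R : ℕ) :
    F1 n a b s k y (l + R) = y ^ (2 * kap n a b l q s k) * y ^ (2 * ε) * G1 n a b s k y R ∧
    F2 n a b s k y (l + R) = y ^ (2 * kap n a b l q s k) * G2 n a b s k y R ∧
    F3 n a b s k y (l + R) = y ^ (2 * kap n a b l q s k) * y ^ (2 * ε) * G3 n a b s k y R := by
  have hb := D.hb
  have ha := D.ha
  unfold F1 F2 F3 G1 G2 G3
  rw [h]
  rcases stepP D h s k R with ⟨h1, h2, h3⟩ | ⟨h1, h2, h3⟩ | ⟨h1, h2, h3⟩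
  · rw [h2, h3, if_pos (show 1 ≤ R * b % n + 1 ∧ R * b % n + 1 ≤ a by omega),
      if_pos (show 1 ≤ R * b % n + 1 ∧ R * b % n + 1 ≤ a by omega),
      if_pos (show 1 ≤ R * b % n + 1 ∧ R * b % n + 1 ≤ a by omega), if_pos h1, if_pos h1,
      if_pos h1, mul_zero, mul_zero]
    refine ⟨?_, rfl, rfl⟩
    rw [← zpow_add₀ hy, ← zpow_add₀ hy]
    congr 1
    ring
  · rw [h2, h3, if_neg (show ¬ (1 ≤ R * b % n + 1 ∧ R * b % n + 1 ≤ a) by omega),
      if_neg (show ¬ (1 ≤ R * b % n + 1 ∧ R * b % n + 1 ≤ a) by omega),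
      if_neg (show ¬ (1 ≤ R * b % n + 1 ∧ R * b % n + 1 ≤ a) by omega),
      if_neg (show ¬ R * b % n < a by omega), if_neg (show ¬ R * b % n < a by omega),
      if_neg (show ¬ R * b % n < a by omega), if_neg (Nat.succ_ne_zero _),
      if_neg (Nat.succ_ne_zero _), mul_zero, sub_zero]
    refine ⟨rfl, ?_, ?_⟩
    · rw [← zpow_add₀ hy]
      congr 1
      ring
    · rw [← zpow_add₀ hy, ← zpow_add₀ hy]
      congr 1
      push_cast
      ring
  · rw [h2, h3, if_neg (show ¬ (1 ≤ 0 ∧ 0 ≤ a) by omega),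
      if_neg (show ¬ (1 ≤ 0 ∧ 0 ≤ a) by omega),
      if_neg (show ¬ (1 ≤ 0 ∧ 0 ≤ a) by omega),
      if_neg (show ¬ R * b % n < a by omega), if_neg (show ¬ R * b % n < a by omega),
      if_neg (show ¬ R * b % n < a by omega), if_pos rfl, if_pos rfl, mul_zero]
    refine ⟨rfl, ?_, ?_⟩
    · rw [← zpow_add₀ hy]
      congr 1
      ring
    · rw [← zpow_add₀ hy, ← zpow_add₀ hy, h1]
      congr 1
      push_cast [show 1 ≤ a + b by omega]
      ring

theorem shiftM (D : Dat n a b l q ε) (h : ε = -1) (s k : ℤ) (y : K) (hy : y ≠ 0) (R : ℕ) :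
    G1 n a b s k y (l + R) = y ^ (2 * kap n a b l q s k) * y ^ (2 * ε) * F1 n a b s k y R ∧
    G2 n a b s k y (l + R) = y ^ (2 * kap n a b l q s k) * F2 n a b s k y R ∧
    G3 n a b s k y (l + R) = y ^ (2 * kap n a b l q s k) * y ^ (2 * ε) * F3 n a b s k y R := by
  have hb := D.hb
  have ha := D.ha
  unfold F1 F2 F3 G1 G2 G3
  rw [h]
  rcases stepM D h s k R with ⟨h0, h1, h2, h3⟩ | ⟨h1, h2, h3⟩ | ⟨h1, h2, h3⟩
  · rw [h2, h3, if_pos (And.intro h0 h1), if_pos (And.intro h0 h1), if_pos (And.intro h0 h1),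
      if_pos (show R * b % n - 1 < a by omega), if_pos (show R * b % n - 1 < a by omega),
      if_pos (show R * b % n - 1 < a by omega), mul_zero, mul_zero]
    refine ⟨?_, rfl, rfl⟩
    rw [← zpow_add₀ hy, ← zpow_add₀ hy]
    congr 1
    ring
  · rw [h2, h3, if_neg (show ¬ (1 ≤ R * b % n ∧ R * b % n ≤ a) by omega),
      if_neg (show ¬ (1 ≤ R * b % n ∧ R * b % n ≤ a) by omega),
      if_neg (show ¬ (1 ≤ R * b % n ∧ R * b % n ≤ a) by omega),
      if_neg (show ¬ R * b % n - 1 < a by omega), if_neg (show ¬ R * b % n - 1 < a by omega),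
      if_neg (show ¬ R * b % n - 1 < a by omega), if_neg (show ¬ R * b % n = 0 by omega),
      if_neg (show ¬ R * b % n = 0 by omega), mul_zero, sub_zero]
    refine ⟨rfl, ?_, ?_⟩
    · rw [← zpow_add₀ hy]
      congr 1
      ring
    · rw [← zpow_add₀ hy, ← zpow_add₀ hy, Nat.cast_sub (show 1 ≤ R * b % n by omega)]
      congr 1
      push_cast
      ring
  · rw [h2, h3, h1, if_neg (show ¬ (1 ≤ 0 ∧ 0 ≤ a) by omega),
      if_neg (show ¬ (1 ≤ 0 ∧ 0 ≤ a) by omega),
      if_neg (show ¬ (1 ≤ 0 ∧ 0 ≤ a) by omega),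
      if_neg (show ¬ a + b - 1 < a by omega), if_neg (show ¬ a + b - 1 < a by omega),
      if_neg (show ¬ a + b - 1 < a by omega), if_pos rfl, if_pos rfl, mul_zero]
    refine ⟨rfl, ?_, ?_⟩
    · rw [← zpow_add₀ hy]
      congr 1
      ring
    · rw [← zpow_add₀ hy, ← zpow_add₀ hy]
      congr 1
      push_cast [show 1 ≤ a + b by omega]
      ring

theorem sx_add_n (D : Dat n a b l q ε) (s k : ℤ) (R : ℕ) :
    sx n a b s k (n + R) = sx n a b s k R + (k * n ^ 2 + a * b + s * b ^ 2) := by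
  have hn := D.npos
  have h1 := Nat.div_add_mod (R * b) n
  have h2 := Nat.mod_lt (R * b) hn
  rw [sx_eq (Q := R * b / n) (j := R * b % n) h1.symm h2,
    sx_eq (Q := R * b / n + b) (j := R * b % n) (by rw [add_mul, mul_add]; omega) h2]
  push_cast
  ring

theorem perF (D : Dat n a b l q ε) (s k : ℤ) (y : K) (hy : y ≠ 0) (R : ℕ) :
    F1 n a b s k y (n + R) = y ^ (2 * (k * n ^ 2 + a * b + s * b ^ 2)) * F1 n a b s k y R ∧
    F2 n a b s k y (n + R) = y ^ (2 * (k * n ^ 2 + a * b + s * b ^ 2)) * F2 n a b s k y R ∧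
    F3 n a b s k y (n + R) = y ^ (2 * (k * n ^ 2 + a * b + s * b ^ 2)) * F3 n a b s k y R := by
  unfold F1 F2 F3
  rw [FT.mod_add_n, sx_add_n D]
  refine ⟨?_, ?_, ?_⟩ <;>
  · rw [mul_ite, mul_zero, ← zpow_add₀ hy]
    congr 2
    ring

theorem perG (D : Dat n a b l q ε) (s k : ℤ) (y : K) (hy : y ≠ 0) (R : ℕ) :
    G1 n a b s k y (n + R) = y ^ (2 * (k * n ^ 2 + a * b + s * b ^ 2)) * G1 n a b s k y R ∧
    G2 n a b s k y (n + R) = y ^ (2 * (k * n ^ 2 + a * b + s * b ^ 2)) * G2 n a b s k y R ∧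
    G3 n a b s k y (n + R) = y ^ (2 * (k * n ^ 2 + a * b + s * b ^ 2)) * G3 n a b s k y R := by
  unfold G1 G2 G3
  rw [FT.mod_add_n, sx_add_n D]
  refine ⟨?_, ?_, ?_⟩ <;>
  · rw [mul_ite, mul_zero, ← zpow_add₀ hy]
    congr 2
    ring

theorem sum_FG (D : Dat n a b l q ε) (F G : ℕ → K)
    (h : ∀ R, R * b % n ≠ 0 → R * b % n ≠ a → G R = F R) :
    ∑ R ∈ range n, G R = ∑ R ∈ range n, F R + (G 0 - F 0 + (G (n - 1) - F (n - 1))) := by
  have hn1 : n = (n - 2) + 1 + 1 := by
    have := D.hn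
    have := D.ha
    omega
  have h1 : ∑ R ∈ range ((n - 2) + 1 + 1), (G R - F R) = G 0 - F 0 + (G (n - 1) - F (n - 1)) := by
    rw [sum_range_succ, sum_range_succ']
    have h2 : ∑ R ∈ range (n - 2), (G (R + 1) - F (R + 1)) = 0 := by
      refine sum_eq_zero fun R hR => ?_
      have := mem_range.1 hR
      obtain ⟨m1, m2⟩ := D.mid (Nat.succ_ne_zero R) (by omega)
      rw [h _ m1 m2, sub_self]
    have h3 : n - 2 + 1 = n - 1 := by omega
    rw [h2, h3]
    ring
  rw [← hn1, sum_sub_distrib] at h1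
  linear_combination h1

theorem sumsFG (D : Dat n a b l q ε) (s k : ℤ) (y : K) :
    (∑ R ∈ range n, G1 n a b s k y R = ∑ R ∈ range n, F1 n a b s k y R +
      (1 - y ^ (2 * sx n a b s k (n - 1)))) ∧
    (∑ R ∈ range n, G2 n a b s k y R = ∑ R ∈ range n, F2 n a b s k y R +
      (y ^ (2 * sx n a b s k (n - 1)) - y ^ (2 * (-(b * s))))) ∧
    (∑ R ∈ range n, G3 n a b s k y R = ∑ R ∈ range n, F3 n a b s k y R +
      (y ^ (2 * sx n a b s k (n - 1)) - y ^ (2 * (b - b * s)))) := by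
  have ha := D.ha
  have hn := D.npos
  have h2 : (n - 1) * b % n = a := FT.mod_eq D.last (by have := D.hn; have := D.hb; omega)
  have h0 : 0 * b % n = 0 := by rw [zero_mul, Nat.zero_mod]
  refine ⟨?_, ?_, ?_⟩
  · rw [sum_FG D (F1 n a b s k y) (G1 n a b s k y)]
    · unfold F1 G1
      rw [h2, h0, sx_zero, if_pos (show 0 < a by omega), if_neg (show ¬ (1 ≤ 0 ∧ 0 ≤ a) by omega),
        if_neg (lt_irrefl a), if_pos (show 1 ≤ a ∧ a ≤ a by omega), mul_zero, zpow_zero]
      ring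
    · intro R m1 m2
      unfold F1 G1
      by_cases h3 : R * b % n < a
      · rw [if_pos h3, if_pos ⟨Nat.pos_of_ne_zero m1, h3.le⟩]
      · rw [if_neg h3, if_neg (by omega)]
  · rw [sum_FG D (F2 n a b s k y) (G2 n a b s k y)]
    · unfold F2 G2
      rw [h2, h0, sx_zero, if_pos (show 0 < a by omega), if_neg (show ¬ (1 ≤ 0 ∧ 0 ≤ a) by omega),
        if_neg (lt_irrefl a), if_pos (show 1 ≤ a ∧ a ≤ a by omega), if_pos rfl, zero_sub]
      congr 1
      ring_nf
    · intro R m1 m2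
      unfold F2 G2
      by_cases h3 : R * b % n < a
      · rw [if_pos h3, if_pos ⟨Nat.pos_of_ne_zero m1, h3.le⟩]
      · rw [if_neg h3, if_neg (by omega), if_neg m1, sub_zero]
  · rw [sum_FG D (F3 n a b s k y) (G3 n a b s k y)]
    · unfold F3 G3
      rw [h2, h0, sx_zero, if_pos (show 0 < a by omega), if_neg (show ¬ (1 ≤ 0 ∧ 0 ≤ a) by omega),
        if_neg (lt_irrefl a), if_pos (show 1 ≤ a ∧ a ≤ a by omega), if_pos rfl, zero_add, sub_self,
        add_zero]
      ring
    · intro R m1 m2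
      unfold F3 G3
      by_cases h3 : R * b % n < a
      · rw [if_pos h3, if_pos ⟨Nat.pos_of_ne_zero m1, h3.le⟩]
      · rw [if_neg h3, if_neg (by omega), if_neg m1]

theorem mir_big (y : K) (hy : y ≠ 0) (κ e b c σ τ e1 e2 e3 e4 : ℤ) (h1 : e1 = κ + e + b + σ)
    (h2 : e2 = κ + τ) (h3 : e3 = κ + c + τ) (h4 : e4 = κ + e + c + σ) :
    y ^ (2 * e1) - y ^ (2 * e2) + y ^ (2 * e3) - y ^ (2 * e4) =
      -(y ^ (2 * κ) * ((1 - y ^ (2 * b)) * 0 + y ^ (2 * e) * (y ^ (2 * c) - y ^ (2 * b)) *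
        y ^ (2 * σ) + (1 - y ^ (2 * c)) * y ^ (2 * τ))) := by
  rw [h1, h2, h3, h4]
  simp only [mul_add, zpow_add₀ hy]
  ring

theorem mir_one (y : K) (hy : y ≠ 0) (κ e b c σ e1 e2 e3 e4 : ℤ) (h1 : e1 = e2)
    (h3 : e3 = κ + b + σ) (h4 : e4 = κ + σ) :
    y ^ (2 * e1) - y ^ (2 * e2) + y ^ (2 * e3) - y ^ (2 * e4) =
      -(y ^ (2 * κ) * ((1 - y ^ (2 * b)) * y ^ (2 * σ) + y ^ (2 * e) * (y ^ (2 * c) -
        y ^ (2 * b)) * 0 + (1 - y ^ (2 * c)) * 0)) := by
  rw [h1, h3, h4]
  simp only [mul_add, zpow_add₀ hy]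
  ring

theorem mir_zero (y : K) (hy : y ≠ 0) (κ e b c σ τ e1 e2 e3 e4 : ℤ) (h1 : e1 = e2)
    (h2 : τ = σ + e) (h3 : e3 = κ + e + b + σ) (h4 : e4 = κ + e + σ) :
    y ^ (2 * e1) - y ^ (2 * e2) + y ^ (2 * e3) - y ^ (2 * e4) =
      -(y ^ (2 * κ) * ((1 - y ^ (2 * b)) * 0 + y ^ (2 * e) * (y ^ (2 * c) - y ^ (2 * b)) *
        y ^ (2 * σ) + (1 - y ^ (2 * c)) * y ^ (2 * τ))) := by
  rw [h1, h2, h3, h4]
  simp only [mul_add, zpow_add₀ hy]
  ring

/-- the mirror images of the terms, in terms of the reflected index: `ε = 1` -/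
theorem mirP (D : Dat n a b l q ε) (h : ε = 1) (s k : ℤ) (y : K) (hy : y ≠ 0) {R : ℕ}
    (hR : R < l) :
    tM n a b s k y (2 * kap n a b l q s k + ε - k * n - b * s + b) R =
      -(y ^ (2 * kap n a b l q s k) * ((1 - y ^ (2 * (b : ℤ))) * F1 n a b s k y (l - 1 - R) +
        y ^ (2 * ε) * (y ^ (2 * (b * s)) - y ^ (2 * (b : ℤ))) * F2 n a b s k y (l - 1 - R) +
        (1 - y ^ (2 * (b * s))) * F3 n a b s k y (l - 1 - R))) := by
  have hn := D.npos
  have hl := D.nat_one h
  have hab := D.hn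
  have ha := D.ha
  have hb := D.hb
  have h1 := Nat.div_add_mod (R * b) n
  have h2 := Nat.mod_lt (R * b) hn
  obtain ⟨R', hR'⟩ : ∃ R', l = R + 1 + R' := ⟨l - 1 - R, by omega⟩
  have e0 : l - 1 - R = R' := by omega
  rw [e0]
  have hlz : (l : ℤ) = R + 1 + R' := by exact_mod_cast hR'
  have habz : (a : ℤ) + b = n := by exact_mod_cast hab
  unfold tM la F1 F2 F3 kap
  rw [sx_eq (Q := R * b / n) (j := R * b % n) h1.symm h2]
  set Q := R * b / n
  set j := R * b % n
  have h3 : n * Q + j + b + R' * b = n * q + 1 := by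
    rw [← hl, hR']
    nlinarith
  rcases Nat.lt_or_ge (a + 1) j with h4 | h4
  · -- `j ≥ a + 2`
    obtain ⟨t, ht⟩ : ∃ t, q = Q + 2 + t := by
      refine ⟨q - (Q + 2), ?_⟩
      by_contra hcon
      have h5 : q ≤ Q + 1 := by omega
      have h6 : n * q ≤ n * (Q + 1) := Nat.mul_le_mul_left n h5
      rw [mul_add] at h6
      omega
    have htz : (q : ℤ) = Q + 2 + t := by exact_mod_cast ht
    rw [ht, mul_add, mul_add] at h3
    have e1 : R' * b = n * t + (n + a + 1 - j) := by omega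
    have e2 : n + a + 1 - j < n := by omega
    rw [FT.mod_eq e1 e2, sx_eq e1 e2]
    rw [if_neg (show ¬ (1 ≤ n + a + 1 - j ∧ n + a + 1 - j ≤ a) by omega),
      if_neg (show ¬ (1 ≤ n + a + 1 - j ∧ n + a + 1 - j ≤ a) by omega),
      if_neg (show ¬ (1 ≤ n + a + 1 - j ∧ n + a + 1 - j ≤ a) by omega),
      if_neg (show ¬ n + a + 1 - j = 0 by omega), if_neg (show ¬ n + a + 1 - j = 0 by omega),
      min_eq_right (show a ≤ n + a + 1 - j by omega), min_eq_right (show a ≤ j by omega),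
      Nat.cast_sub (show a ≤ j by omega), Nat.cast_sub (show j ≤ n + a + 1 by omega)]
    push_cast
    apply mir_big y hy
    · linear_combination (k * n : ℤ) * hlz + (a + b * s : ℤ) * htz
    · linear_combination (k * n : ℤ) * hlz + (a + b * s : ℤ) * htz + habz + h
    · linear_combination (k * n : ℤ) * hlz + (a + b * s : ℤ) * htz + habz + h
    · linear_combination (k * n : ℤ) * hlz + (a + b * s : ℤ) * htz
  · obtain ⟨t, ht⟩ : ∃ t, q = Q + 1 + t := by
      refine ⟨q - (Q + 1), ?_⟩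
      by_contra hcon
      have h5 : q ≤ Q := by omega
      have h6 : n * q ≤ n * Q := Nat.mul_le_mul_left n h5
      omega
    have htz : (q : ℤ) = Q + 1 + t := by exact_mod_cast ht
    rw [ht, mul_add, mul_add] at h3
    have e1 : R' * b = n * t + (a + 1 - j) := by omega
    have e2 : a + 1 - j < n := by omega
    rw [FT.mod_eq e1 e2, sx_eq e1 e2]
    rcases Nat.eq_zero_or_pos j with h5 | h5
    · rw [h5, Nat.sub_zero, if_neg (show ¬ (1 ≤ a + 1 ∧ a + 1 ≤ a) by omega),
        if_neg (show ¬ (1 ≤ a + 1 ∧ a + 1 ≤ a) by omega),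
        if_neg (show ¬ (1 ≤ a + 1 ∧ a + 1 ≤ a) by omega), if_neg (Nat.succ_ne_zero _),
        if_neg (Nat.succ_ne_zero _), min_eq_right (show a ≤ a + 1 by omega),
        min_eq_left (Nat.zero_le a), Nat.zero_sub]
      push_cast
      apply mir_zero y hy
      · ring
      · linear_combination -h
      · linear_combination (k * n : ℤ) * hlz + (a + b * s : ℤ) * htz
      · linear_combination (k * n : ℤ) * hlz + (a + b * s : ℤ) * htz
    · rcases Nat.lt_or_ge a j with h6 | h6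
      · have h7 : j = a + 1 := by omega
        rw [h7, Nat.sub_self, if_neg (show ¬ (1 ≤ 0 ∧ 0 ≤ a) by omega),
          if_neg (show ¬ (1 ≤ 0 ∧ 0 ≤ a) by omega),
          if_neg (show ¬ (1 ≤ 0 ∧ 0 ≤ a) by omega), if_pos rfl, if_pos rfl,
          min_eq_left (Nat.zero_le a), min_eq_right (show a ≤ a + 1 by omega),
          Nat.add_sub_cancel_left]
        push_cast
        apply mir_big y hy
        · linear_combination (k * n : ℤ) * hlz + (a + b * s : ℤ) * htz
        · linear_combination (k * n : ℤ) * hlz + (a + b * s : ℤ) * htz + h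
        · linear_combination (k * n : ℤ) * hlz + (a + b * s : ℤ) * htz + h
        · linear_combination (k * n : ℤ) * hlz + (a + b * s : ℤ) * htz
      · rw [if_pos (show 1 ≤ a + 1 - j ∧ a + 1 - j ≤ a by omega),
          if_pos (show 1 ≤ a + 1 - j ∧ a + 1 - j ≤ a by omega),
          if_pos (show 1 ≤ a + 1 - j ∧ a + 1 - j ≤ a by omega), min_eq_left h6,
          min_eq_left (show a + 1 - j ≤ a by omega), Nat.sub_eq_zero_of_le h6,
          Nat.cast_sub (show j ≤ a + 1 by omega)]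
        push_cast
        apply mir_one y hy
        · ring
        · linear_combination (k * n : ℤ) * hlz + (a + b * s : ℤ) * htz + h
        · linear_combination (k * n : ℤ) * hlz + (a + b * s : ℤ) * htz + h

/-- the mirror images of the terms, in terms of the reflected index: `ε = -1` -/
theorem mirM (D : Dat n a b l q ε) (h : ε = -1) (s k : ℤ) (y : K) (hy : y ≠ 0) {R : ℕ}
    (hR : R < l) :
    tM n a b s k y (2 * kap n a b l q s k + ε - k * n - b * s + b) R =
      -(y ^ (2 * kap n a b l q s k) * ((1 - y ^ (2 * (b : ℤ))) * G1 n a b s k y (l - 1 - R) +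
        y ^ (2 * ε) * (y ^ (2 * (b * s)) - y ^ (2 * (b : ℤ))) * G2 n a b s k y (l - 1 - R) +
        (1 - y ^ (2 * (b * s))) * G3 n a b s k y (l - 1 - R))) := by
  have hn := D.npos
  have hl := D.nat_neg h
  have hab := D.hn
  have ha := D.ha
  have hb := D.hb
  have h1 := Nat.div_add_mod (R * b) n
  have h2 := Nat.mod_lt (R * b) hn
  obtain ⟨R', hR'⟩ : ∃ R', l = R + 1 + R' := ⟨l - 1 - R, by omega⟩
  have e0 : l - 1 - R = R' := by omega
  rw [e0]
  have hlz : (l : ℤ) = R + 1 + R' := by exact_mod_cast hR'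
  have habz : (a : ℤ) + b = n := by exact_mod_cast hab
  unfold tM la G1 G2 G3 kap
  rw [sx_eq (Q := R * b / n) (j := R * b % n) h1.symm h2]
  set Q := R * b / n
  set j := R * b % n
  have h3 : n * Q + j + b + R' * b + 1 = n * q := by
    rw [← hl, hR']
    nlinarith
  rcases Nat.lt_or_ge j a with h4 | h4
  · obtain ⟨t, ht⟩ : ∃ t, q = Q + 1 + t := by
      refine ⟨q - (Q + 1), ?_⟩
      by_contra hcon
      have h5 : q ≤ Q := by omega
      have h6 : n * q ≤ n * Q := Nat.mul_le_mul_left n h5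
      omega
    have htz : (q : ℤ) = Q + 1 + t := by exact_mod_cast ht
    rw [ht, mul_add, mul_add] at h3
    have e1 : R' * b = n * t + (a - 1 - j) := by omega
    have e2 : a - 1 - j < n := by omega
    rw [FT.mod_eq e1 e2, sx_eq e1 e2, if_pos (show a - 1 - j < a by omega),
      if_pos (show a - 1 - j < a by omega), if_pos (show a - 1 - j < a by omega),
      min_eq_left h4.le, min_eq_left (show a - 1 - j ≤ a by omega), Nat.sub_eq_zero_of_le h4.le,
      Nat.cast_sub (show j ≤ a - 1 by omega), Nat.cast_sub (show 1 ≤ a by omega)]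
    push_cast
    apply mir_one y hy
    · ring
    · linear_combination (k * n : ℤ) * hlz + (a + b * s : ℤ) * htz + h
    · linear_combination (k * n : ℤ) * hlz + (a + b * s : ℤ) * htz + h
  · obtain ⟨t, ht⟩ : ∃ t, q = Q + 2 + t := by
      refine ⟨q - (Q + 2), ?_⟩
      by_contra hcon
      have h5 : q ≤ Q + 1 := by omega
      have h6 : n * q ≤ n * (Q + 1) := Nat.mul_le_mul_left n h5
      rw [mul_add] at h6
      omega
    have htz : (q : ℤ) = Q + 2 + t := by exact_mod_cast ht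
    rw [ht, mul_add, mul_add] at h3
    have e1 : R' * b = n * t + (n + a - 1 - j) := by omega
    have e2 : n + a - 1 - j < n := by omega
    rw [FT.mod_eq e1 e2, sx_eq e1 e2, if_neg (show ¬ n + a - 1 - j < a by omega),
      if_neg (show ¬ n + a - 1 - j < a by omega), if_neg (show ¬ n + a - 1 - j < a by omega),
      min_eq_right (show a ≤ n + a - 1 - j by omega), min_eq_right h4,
      Nat.cast_sub h4, Nat.cast_sub (show j ≤ n + a - 1 by omega),
      Nat.cast_sub (show 1 ≤ n + a by omega)]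
    push_cast
    apply mir_big y hy
    · linear_combination (k * n : ℤ) * hlz + (a + b * s : ℤ) * htz
    · linear_combination (k * n : ℤ) * hlz + (a + b * s : ℤ) * htz + habz + h
    · linear_combination (k * n : ℤ) * hlz + (a + b * s : ℤ) * htz + habz + h
    · linear_combination (k * n : ℤ) * hlz + (a + b * s : ℤ) * htz

/-- the ring identity -/
theorem key (D : Dat n a b l q ε) (s k : ℤ) (y : K) (hy : y ≠ 0) :
    (1 - y ^ (2 * kap n a b l q s k)) * (1 - y ^ (2 * (kap n a b l q s k + ε))) *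
      (∑ R ∈ range n, tR n a b s k y R) =
    (1 - y ^ (2 * (k * n ^ 2 + a * b + s * b ^ 2))) * (∑ R ∈ range l, (tR n a b s k y R +
      tM n a b s k y (2 * kap n a b l q s k + ε - k * n - b * s + b) R)) -
    ε * (y ^ (2 * kap n a b l q s k) * (1 - y ^ (2 * ε)) * (1 - y ^ (2 * (b - b * s))) *
      (1 - y ^ (2 * (k * n ^ 2 + a * b + s * b ^ 2 - k * n)))) := by
  obtain ⟨s1, s2, s3⟩ := sumsFG D s k y
  have hu : y ^ (2 * (kap n a b l q s k + ε)) = y ^ (2 * kap n a b l q s k) * y ^ (2 * ε) := by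
    rw [← zpow_add₀ hy]
    congr 1
    ring
  have hB : y ^ (2 * (b - b * s)) = y ^ (2 * (b : ℤ)) * y ^ (2 * (-((b : ℤ) * s))) := by
    rw [← zpow_add₀ hy]
    congr 1
    ring
  have hS : y ^ (2 * ((b : ℤ) * s)) * y ^ (2 * (-((b : ℤ) * s))) = 1 := by
    rw [← zpow_add₀ hy, ← mul_add, add_neg_cancel, mul_zero, zpow_zero]
  have hW : y ^ (2 * (k * n ^ 2 + a * b + s * b ^ 2 - k * n)) =
      y ^ (2 * ((b : ℤ) * s)) * y ^ (2 * sx n a b s k (n - 1)) := by
    rw [sx_last D, ← zpow_add₀ hy]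
    congr 1
    ring
  rw [hu, hB, hW]
  rw [hB] at s3
  set B : K := y ^ (2 * (b : ℤ)) with hBd
  set S : K := y ^ (2 * ((b : ℤ) * s)) with hSd
  set S' : K := y ^ (2 * (-((b : ℤ) * s))) with hSd'
  set u : K := y ^ (2 * kap n a b l q s k) with hud
  set z : K := y ^ (2 * ε) with hzd
  set P : K := y ^ (2 * (k * n ^ 2 + a * b + s * b ^ 2)) with hPd
  set W : K := y ^ (2 * sx n a b s k (n - 1)) with hWd
  rcases D.hε with h | h
  · have hT : ∀ R, tR n a b s k y R = _ := fun R => tR_F s k y hy R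
    have hm : ∑ R ∈ range l, tM n a b s k y (2 * kap n a b l q s k + ε - k * n - b * s + b) R =
        -(u * ∑ R ∈ range l, ((1 - B) * F1 n a b s k y R + z * (S - B) * F2 n a b s k y R +
          (1 - S) * F3 n a b s k y R)) := by
      rw [sum_congr rfl fun R hR => mirP D h s k y hy (mem_range.1 hR), sum_neg_distrib,
        ← mul_sum]
      congr 2
      exact sum_range_reflect (fun R => (1 - B) * F1 n a b s k y R + z * (S - B) *
        F2 n a b s k y R + (1 - S) * F3 n a b s k y R) l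
    have key1 := abs_id n l (F1 n a b s k y) (F2 n a b s k y) (F3 n a b s k y) (G1 n a b s k y)
      (G2 n a b s k y) (G3 n a b s k y) B S u z P _ _ _
      (fun R => (shiftP D h s k y hy R).1) (fun R => (shiftP D h s k y hy R).2.1)
      (fun R => (shiftP D h s k y hy R).2.2) (fun R => (perF D s k y hy R).1)
      (fun R => (perF D s k y hy R).2.1) (fun R => (perF D s k y hy R).2.2) s1 s2 s3
      (by linear_combination (B - 1) * hS)
    have he : (ε : K) = 1 := by rw [h]; exact Int.cast_one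
    rw [sum_add_distrib, hm, he]
    simp only [hT]
    rw [key1]
    linear_combination -(u * (1 - z) * (1 - B * W)) * hS
  · have hT : ∀ R, tR n a b s k y R = _ := fun R => tR_G s k y hy R
    have hm : ∑ R ∈ range l, tM n a b s k y (2 * kap n a b l q s k + ε - k * n - b * s + b) R =
        -(u * ∑ R ∈ range l, ((1 - B) * G1 n a b s k y R + z * (S - B) * G2 n a b s k y R +
          (1 - S) * G3 n a b s k y R)) := by
      rw [sum_congr rfl fun R hR => mirM D h s k y hy (mem_range.1 hR), sum_neg_distrib,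
        ← mul_sum]
      congr 2
      exact sum_range_reflect (fun R => (1 - B) * G1 n a b s k y R + z * (S - B) *
        G2 n a b s k y R + (1 - S) * G3 n a b s k y R) l
    have key1 := abs_id n l (G1 n a b s k y) (G2 n a b s k y) (G3 n a b s k y) (F1 n a b s k y)
      (F2 n a b s k y) (F3 n a b s k y) B S u z P (-(1 - W)) (-(W - S')) (-(W - B * S'))
      (fun R => (shiftM D h s k y hy R).1) (fun R => (shiftM D h s k y hy R).2.1)
      (fun R => (shiftM D h s k y hy R).2.2) (fun R => (perG D s k y hy R).1)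
      (fun R => (perG D s k y hy R).2.1) (fun R => (perG D s k y hy R).2.2)
      (by rw [s1]; ring) (by rw [s2]; ring) (by rw [s3]; ring)
      (by linear_combination -(B - 1) * hS)
    have he : (ε : K) = -1 := by rw [h]; push_cast; rfl
    rw [sum_add_distrib, hm, he]
    simp only [hT]
    rw [key1]
    linear_combination (u * (1 - z) * (1 - B * W)) * hS

end sums

end Pool.Agent.Helper71.TG
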