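import Mathlib
import Pool.Agent.Helper71.TG.Ring
import Pool.Agent.Helper71.FT.Sig

/-!
# TG-G: the real function
-/

set_option autoImplicit false

namespace Pool.Agent.Helper71.TG

open Finset

variable {n a b l q : ℕ} {ε : ℤ}

/-- the sum of the products of sines -/
noncomputable def ww (n a b l q : ℕ) (ε s k : ℤ) (L : ℕ) (φ : ℝ) : ℝ :=
  ∑ R ∈ range L,
    (Real.sin ((la n a b R : ℝ) * φ) * Real.sin (((2 * (k * n * l + (a + b * s) * q) + ε - k * n -
        b * s + b - 2 * sx n a b s k R - 2 * b * s - la n a b R : ℤ) : ℝ) * φ) +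
      Real.sin ((((b : ℤ) - la n a b R : ℤ) : ℝ) * φ) *
        Real.sin (((2 * (k * n * l + (a + b * s) * q) + ε - k * n - b * s + b -
        2 * sx n a b s k R - la n a b R - b : ℤ) : ℝ) * φ))

/-- the real function -/
noncomputable def ff (n a b l q : ℕ) (ε s k : ℤ) (φ : ℝ) : ℝ :=
  Real.sin (((k * n ^ 2 + a * b + s * b ^ 2 : ℤ) : ℝ) * φ) * ww n a b l q ε s k l φ +
    Real.sin φ * Real.sin (((b * (s - 1) : ℤ) : ℝ) * φ) *
      Real.sin (((k * n ^ 2 + a * b + s * b ^ 2 - k * n : ℤ) : ℝ) * φ)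

theorem ff_continuous (n a b l q : ℕ) (ε s k : ℤ) : Continuous (ff n a b l q ε s k) := by
  unfold ff ww
  fun_prop

theorem one_sub (φ : ℝ) (d : ℤ) : 1 - Complex.exp (φ * Complex.I) ^ (2 * d) =
    -(Complex.exp (φ * Complex.I) ^ d * (2 * Complex.I * ((Real.sin ((d : ℝ) * φ) : ℝ) : ℂ))) := by
  have hy0 : Complex.exp (φ * Complex.I) ≠ 0 := Complex.exp_ne_zero _
  rw [← FT.y_sub, mul_sub, ← zpow_add₀ hy0, ← zpow_add₀ hy0, show d + d = 2 * d by ring,
    show d + -d = 0 by ring, zpow_zero]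
  ring

theorem prod_trig (φ : ℝ) (N d f : ℤ) : Complex.exp (φ * Complex.I) ^ N *
    (2 * Complex.I * (2 * Complex.I) * (((Real.sin ((d : ℝ) * φ) * Real.sin ((f : ℝ) * φ) : ℝ)) :
      ℂ)) = Complex.exp (φ * Complex.I) ^ (N + d + f) - Complex.exp (φ * Complex.I) ^ (N + d - f) -
      Complex.exp (φ * Complex.I) ^ (N - d + f) + Complex.exp (φ * Complex.I) ^ (N - d - f) := by
  have hy0 : Complex.exp (φ * Complex.I) ≠ 0 := Complex.exp_ne_zero _
  have h1 := FT.y_sub φ d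
  have h2 := FT.y_sub φ f
  have e : 2 * Complex.I * (2 * Complex.I) * (((Real.sin ((d : ℝ) * φ) *
      Real.sin ((f : ℝ) * φ) : ℝ)) : ℂ) = (2 * Complex.I * ((Real.sin ((d : ℝ) * φ) : ℝ) : ℂ)) *
      (2 * Complex.I * ((Real.sin ((f : ℝ) * φ) : ℝ) : ℂ)) := by
    rw [Complex.ofReal_mul]
    ring
  rw [e, ← h1, ← h2]
  simp only [sub_eq_add_neg, zpow_add₀ hy0]
  ring

/-- a term with its mirror image -/
theorem pair_trig (n a b : ℕ) (s k N : ℤ) (φ : ℝ) (R : ℕ) :
    tR n a b s k (Complex.exp (φ * Complex.I)) R + tM n a b s k (Complex.exp (φ * Complex.I)) N R =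
      Complex.exp (φ * Complex.I) ^ N * (2 * Complex.I * (2 * Complex.I) *
        ((Real.sin ((la n a b R : ℝ) * φ) *
        Real.sin (((N - 2 * sx n a b s k R - 2 * b * s - la n a b R : ℤ) : ℝ) * φ) +
        Real.sin ((((b : ℤ) - la n a b R : ℤ) : ℝ) * φ) *
        Real.sin (((N - 2 * sx n a b s k R - la n a b R - b : ℤ) : ℝ) * φ) : ℝ) : ℂ)) := by
  have h1 := prod_trig φ N (la n a b R) (N - 2 * sx n a b s k R - 2 * b * s - la n a b R)
  have h2 := prod_trig φ N ((b : ℤ) - la n a b R) (N - 2 * sx n a b s k R - la n a b R - b)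
  rw [Int.cast_natCast] at h1
  rw [Complex.ofReal_add, mul_add, mul_add, h1, h2]
  unfold tR tM
  have e1 : N + (la n a b R : ℤ) + (N - 2 * sx n a b s k R - 2 * b * s - la n a b R) =
      2 * (N - (sx n a b s k R + b * s)) := by ring
  have e2 : N + (la n a b R : ℤ) - (N - 2 * sx n a b s k R - 2 * b * s - la n a b R) =
      2 * (sx n a b s k R + b * s + la n a b R) := by ring
  have e3 : N - (la n a b R : ℤ) + (N - 2 * sx n a b s k R - 2 * b * s - la n a b R) =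
      2 * (N - (sx n a b s k R + b * s + la n a b R)) := by ring
  have e4 : N - (la n a b R : ℤ) - (N - 2 * sx n a b s k R - 2 * b * s - la n a b R) =
      2 * (sx n a b s k R + b * s) := by ring
  have e5 : N + ((b : ℤ) - la n a b R) + (N - 2 * sx n a b s k R - la n a b R - b) =
      2 * (N - (sx n a b s k R + la n a b R)) := by ring
  have e6 : N + ((b : ℤ) - la n a b R) - (N - 2 * sx n a b s k R - la n a b R - b) =
      2 * (sx n a b s k R + b) := by ring
  have e7 : N - ((b : ℤ) - la n a b R) + (N - 2 * sx n a b s k R - la n a b R - b) =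
      2 * (N - (sx n a b s k R + b)) := by ring
  have e8 : N - ((b : ℤ) - la n a b R) - (N - 2 * sx n a b s k R - la n a b R - b) =
      2 * (sx n a b s k R + la n a b R) := by ring
  rw [e1, e2, e3, e4, e5, e6, e7, e8]
  ring

theorem key_trig (D : Dat n a b l q ε) (s k : ℤ) (φ : ℝ) :
    (((Real.sin (((k * n * l + (a + b * s) * q : ℤ) : ℝ) * φ) *
      Real.sin (((k * n * l + (a + b * s) * q + ε : ℤ) : ℝ) * φ) : ℝ)) : ℂ) *
      (Complex.exp (φ * Complex.I) ^ (-(k * n ^ 2 + a * b + s * b ^ 2 - k * n - b * s + b)) *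
        ∑ R ∈ range n, tR n a b s k (Complex.exp (φ * Complex.I)) R) =
      -(2 * Complex.I) * ((ff n a b l q ε s k φ : ℝ) : ℂ) := by
  have hy0 : Complex.exp (φ * Complex.I) ≠ 0 := Complex.exp_ne_zero _
  have hk := key D s k (Complex.exp (φ * Complex.I)) hy0
  have hW : ∑ R ∈ range l, (tR n a b s k (Complex.exp (φ * Complex.I)) R +
      tM n a b s k (Complex.exp (φ * Complex.I))
        (2 * kap n a b l q s k + ε - k * n - b * s + b) R) =
      Complex.exp (φ * Complex.I) ^ (2 * kap n a b l q s k + ε - k * n - b * s + b) *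
        (2 * Complex.I * (2 * Complex.I) * ((ww n a b l q ε s k l φ : ℝ) : ℂ)) := by
    rw [sum_congr rfl fun R _ => pair_trig n a b s k _ φ R, ← mul_sum, ← mul_sum]
    unfold ww kap
    rw [Complex.ofReal_sum]
  rw [hW] at hk
  have hc : (ε : ℂ) * (Complex.exp (φ * Complex.I) ^ (2 * kap n a b l q s k) *
      (1 - Complex.exp (φ * Complex.I) ^ (2 * ε)) * (1 - Complex.exp (φ * Complex.I) ^
        (2 * ((b : ℤ) - b * s)))) = Complex.exp (φ * Complex.I) ^ (2 * kap n a b l q s k + ε +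
          ((b : ℤ) - b * s)) * (-(2 * Complex.I * (2 * Complex.I)) *
            ((Real.sin φ * Real.sin (((b * (s - 1) : ℤ) : ℝ) * φ) : ℝ) : ℂ)) := by
    have g1 := one_sub φ ε
    have g2 := one_sub φ ((b : ℤ) - b * s)
    have g3 : (ε : ℂ) * ((Real.sin ((ε : ℝ) * φ) : ℝ) : ℂ) = ((Real.sin φ : ℝ) : ℂ) := by
      rcases D.hε with h | h
      · rw [h, Int.cast_one, Int.cast_one, one_mul, one_mul]
      · rw [h]
        push_cast
        rw [neg_one_mul, neg_one_mul, Complex.sin_neg, neg_neg]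
    have g4 : Real.sin ((((b : ℤ) - b * s : ℤ) : ℝ) * φ) =
        -Real.sin (((b * (s - 1) : ℤ) : ℝ) * φ) := by
      rw [← Real.sin_neg]
      congr 1
      push_cast
      ring
    rw [g1, g2, g4, Complex.ofReal_mul, ← g3, zpow_add₀ hy0, zpow_add₀ hy0, Complex.ofReal_neg]
    ring
  rw [show (ε : ℂ) * (Complex.exp (φ * Complex.I) ^ (2 * kap n a b l q s k) *
      (1 - Complex.exp (φ * Complex.I) ^ (2 * ε)) * (1 - Complex.exp (φ * Complex.I) ^
        (2 * ((b : ℤ) - b * s))) * (1 - Complex.exp (φ * Complex.I) ^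
        (2 * (k * n ^ 2 + a * b + s * b ^ 2 - k * n)))) =
      ((ε : ℂ) * (Complex.exp (φ * Complex.I) ^ (2 * kap n a b l q s k) *
      (1 - Complex.exp (φ * Complex.I) ^ (2 * ε)) * (1 - Complex.exp (φ * Complex.I) ^
        (2 * ((b : ℤ) - b * s))))) * (1 - Complex.exp (φ * Complex.I) ^
        (2 * (k * n ^ 2 + a * b + s * b ^ 2 - k * n))) by ring, hc, one_sub, one_sub, one_sub,
    one_sub] at hk
  have hf : ((ff n a b l q ε s k φ : ℝ) : ℂ) =
      ((Real.sin (((k * n ^ 2 + a * b + s * b ^ 2 : ℤ) : ℝ) * φ) : ℝ) : ℂ) *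
        ((ww n a b l q ε s k l φ : ℝ) : ℂ) +
      ((Real.sin φ * Real.sin (((b * (s - 1) : ℤ) : ℝ) * φ) : ℝ) : ℂ) *
      ((Real.sin (((k * n ^ 2 + a * b + s * b ^ 2 - k * n : ℤ) : ℝ) * φ) : ℝ) : ℂ) := by
    unfold ff
    rw [Complex.ofReal_add, Complex.ofReal_mul, Complex.ofReal_mul]
  rw [hf]
  change (((Real.sin ((kap n a b l q s k : ℝ) * φ) *
      Real.sin (((kap n a b l q s k + ε : ℤ) : ℝ) * φ) : ℝ)) : ℂ) * _ = _
  rw [Complex.ofReal_mul]
  set Y := Complex.exp (φ * Complex.I) with hY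
  set κ : ℤ := kap n a b l q s k with hκ
  set p : ℤ := k * n ^ 2 + a * b + s * b ^ 2 with hp
  have h1 : Y ^ (κ + ε) = Y ^ κ * Y ^ ε := zpow_add₀ hy0 _ _
  have h2 : Y ^ (2 * κ + ε - k * n - b * s + b) =
      Y ^ κ * Y ^ κ * Y ^ ε * Y ^ ((b : ℤ) - b * s - k * n) := by
    rw [← zpow_add₀ hy0, ← zpow_add₀ hy0, ← zpow_add₀ hy0]
    congr 1
    ring
  have h3 : Y ^ (2 * κ + ε + ((b : ℤ) - b * s)) =
      Y ^ κ * Y ^ κ * Y ^ ε * Y ^ ((b : ℤ) - b * s) := by
    rw [← zpow_add₀ hy0, ← zpow_add₀ hy0, ← zpow_add₀ hy0]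
    congr 1
    ring
  have h4 : Y ^ ((b : ℤ) - b * s) = Y ^ ((b : ℤ) - b * s - k * n) * Y ^ (k * n) := by
    rw [← zpow_add₀ hy0]
    congr 1
    ring
  have h5 : Y ^ p = Y ^ (p - k * n) * Y ^ (k * n) := by
    rw [← zpow_add₀ hy0]
    congr 1
    ring
  have h6 : Y ^ (-(p - k * n - b * s + b)) * (Y ^ (p - k * n) * Y ^ (k * n) *
      Y ^ ((b : ℤ) - b * s - k * n)) = 1 := by
    rw [← zpow_add₀ hy0, ← zpow_add₀ hy0, ← zpow_add₀ hy0]
    rw [show -(p - k * n - b * s + b) + (p - k * n + k * n + ((b : ℤ) - b * s - k * n)) = 0 by ring,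
      zpow_zero]
  rw [h1, h2, h3, h4, h5] at hk
  have hu : Y ^ κ ≠ 0 := zpow_ne_zero _ hy0
  have hz : Y ^ ε ≠ 0 := zpow_ne_zero _ hy0
  have hI : Complex.I ≠ 0 := Complex.I_ne_zero
  generalize Y ^ κ = u at *
  generalize Y ^ ε = z at *
  generalize Y ^ (-(p - k * n - b * s + b)) = v at *
  generalize Y ^ (p - k * n) = P1 at *
  generalize Y ^ (k * n) = P2 at *
  generalize Y ^ ((b : ℤ) - b * s - k * n) = P3 at *
  generalize (∑ R ∈ range n, tR n a b s k Y R) = X at *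
  generalize ((Real.sin ((κ : ℝ) * φ) : ℝ) : ℂ) = S1 at *
  generalize ((Real.sin (((κ + ε : ℤ) : ℝ) * φ) : ℝ) : ℂ) = S2 at *
  generalize ((Real.sin ((p : ℝ) * φ) : ℝ) : ℂ) = S3 at *
  generalize ((Real.sin (((p - k * n : ℤ) : ℝ) * φ) : ℝ) : ℂ) = S4 at *
  generalize ((Real.sin φ * Real.sin (((b * (s - 1) : ℤ) : ℝ) * φ) : ℝ) : ℂ) = S5 at *
  generalize ((ww n a b l q ε s k l φ : ℝ) : ℂ) = W at *
  have hne : u * u * z * (2 * Complex.I * (2 * Complex.I)) ≠ 0 := by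
    refine mul_ne_zero (mul_ne_zero (mul_ne_zero hu hu) hz) ?_
    exact mul_ne_zero (mul_ne_zero two_ne_zero hI) (mul_ne_zero two_ne_zero hI)
  apply mul_left_cancel₀ hne
  linear_combination v * hk - (u * u * z * (2 * Complex.I * (2 * Complex.I))) *
    (2 * Complex.I * (S3 * W + S5 * S4)) * h6

end Pool.Agent.Helper71.TG
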