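import Mathlib
import Pool.Agent.Helper71.TG.Sig
import Pool.Agent.Helper71.FT.End

/-!
# TG-J: the product of cyclotomic polynomials at `exp (2 φ I)`

* `cyP_of_s`: as `cyP_of` in `Helper71/FT/End.lean`, with the additional factor `1 - T d`: take the multiset `(m + 1).divisors.erase 1 + d.divisors + M`
  (`∏_{N ∣ d} Φ_N = X ^ d - 1`: `prod_cyclotomic_eq_X_pow_sub_one`), `1 - T d = -(toLaurent (X ^ d - 1))`.  Let `F R` be a Laurent polynomial for every `R` and
  `tt φ R` its value at `x = exp (2 φ I)`; here the terms are the four powers of `alex_formula_s`.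
-/

set_option autoImplicit false

namespace Pool.Agent.Helper71.TG

open Finset Polynomial LaurentPolynomial
open Pool.Agent.Helper62.OB Pool.Agent.Helper27.TT Pool.Agent.Helper71.FT

theorem cyP_of_s (m a b : ℕ) (hb : 1 ≤ b) (s k : ℤ) (Δ : ℤ[T;T⁻¹])
    (h : (1 - T (b : ℤ)) * ((∑ i ∈ Finset.range (m + 1), (T (i : ℤ) : ℤ[T;T⁻¹])) * Δ) =
      ∑ R ∈ Finset.range (m + 1),
        (T (sx (m + 1) a b s k R + b * s) - T (sx (m + 1) a b s k R + b * s + la (m + 1) a b R) +
          T (sx (m + 1) a b s k R + la (m + 1) a b R) - T (sx (m + 1) a b s k R + b)))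
    (hc : IsCyclotomicProduct Δ) : ∃ Mu : Multiset ℕ, (∀ N ∈ Mu, 0 < N) ∧
      ∀ φ : ℝ, ∃ c : ℂ, c ≠ 0 ∧ cyP Mu φ =
        c * ∑ R ∈ range (m + 1), tR (m + 1) a b s k (Complex.exp (φ * Complex.I)) R := by
  obtain ⟨M, hM, hU⟩ := hc
  refine ⟨(((m + 1).divisors.erase 1).val + b.divisors.val) + M, ?_, ?_⟩
  · intro N hN
    rcases Multiset.mem_add.1 hN with h1 | h1
    · rcases Multiset.mem_add.1 h1 with h2 | h2
      · exact Nat.pos_of_mem_divisors (Finset.mem_of_mem_erase h2)
      · exact Nat.pos_of_mem_divisors h2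
    · exact hM N h1
  · have hG : (∑ i ∈ Finset.range (m + 1), (T (i : ℤ) : ℤ[T;T⁻¹])) =
        toLaurent (((((m + 1).divisors.erase 1).val).map (fun N => cyclotomic N ℤ)).prod) := by
      have h1 := prod_cyclotomic_eq_geom_sum (Nat.succ_pos m) ℤ
      have h2 : ((((m + 1).divisors.erase 1).val).map (fun N => cyclotomic N ℤ)).prod =
          ∑ i ∈ Finset.range (m + 1), (X : ℤ[X]) ^ i := by
        rw [← h1]
        rfl
      rw [h2, map_sum]
      exact Finset.sum_congr rfl fun i _ => by rw [toLaurent_X_pow]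
    have hB : (1 - T (b : ℤ) : ℤ[T;T⁻¹]) =
        -toLaurent (((b.divisors.val).map (fun N => cyclotomic N ℤ)).prod) := by
      have h1 := prod_cyclotomic_eq_X_pow_sub_one (show 0 < b by omega) ℤ
      have h2 : ((b.divisors.val).map (fun N => cyclotomic N ℤ)).prod = (X : ℤ[X]) ^ b - 1 := by
        rw [← h1]
        rfl
      rw [h2, map_sub, map_one, toLaurent_X_pow]
      ring
    have h4 := UpToUnit.mul_left ((1 - T (b : ℤ)) * ∑ i ∈ Finset.range (m + 1), (T (i : ℤ) : ℤ[T;T⁻¹])) hU
    rw [mul_assoc, h, hG, hB, neg_mul, neg_mul, ← map_mul, ← map_mul, mul_comm (Multiset.prod _) (Multiset.prod _),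
      ← Multiset.prod_add, ← Multiset.prod_add, ← Multiset.map_add, ← Multiset.map_add] at h4
    intro φ
    have hx0 : Complex.exp (2 * φ * Complex.I) ≠ 0 := Complex.exp_ne_zero _
    set x : ℂˣ := Units.mk0 (Complex.exp (2 * φ * Complex.I)) hx0 with hx
    have hxy : ∀ k : ℤ, ((x ^ k : ℂˣ) : ℂ) = Complex.exp (φ * Complex.I) ^ (2 * k) := by
      intro k
      rw [Units.val_zpow_eq_zpow_val, zpow_mul, hx, Units.val_mk0]
      congr 1
      rw [← Complex.exp_int_mul]
      congr 1
      push_cast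
      ring
    have hev : ∀ Mu : Multiset ℕ, LaurentPolynomial.eval₂ (Int.castRingHom ℂ) x
        (toLaurent ((Mu.map (fun N => cyclotomic N ℤ)).prod)) = cyP Mu φ := by
      intro Mu
      rw [LaurentPolynomial.eval₂_toLaurent]
      unfold cyP
      rw [← Polynomial.eval_map, Polynomial.map_multiset_prod, Multiset.map_map]
      congr 3
      funext N
      exact map_cyclotomic N _
    obtain ⟨j, h5⟩ := h4
    have hevT : ∀ j : ℤ, LaurentPolynomial.eval₂ (Int.castRingHom ℂ) x (T j) =
        Complex.exp (φ * Complex.I) ^ (2 * j) := by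
      intro j
      rw [LaurentPolynomial.eval₂_T, hxy]
    have hne : Complex.exp (φ * Complex.I) ^ (2 * j) ≠ 0 := zpow_ne_zero _ (Complex.exp_ne_zero _)
    rcases h5 with h5 | h5
    · have h6 := congrArg (LaurentPolynomial.eval₂ (Int.castRingHom ℂ) x) h5
      simp only [map_sum, map_add, map_sub, map_mul, map_neg, hev, hevT] at h6
      refine ⟨-(Complex.exp (φ * Complex.I) ^ (2 * j))⁻¹, neg_ne_zero.2 (inv_ne_zero hne), ?_⟩
      simp only [tR]
      rw [h6, mul_neg, neg_mul_neg, ← mul_assoc, inv_mul_cancel₀ hne, one_mul]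
    · have h6 := congrArg (LaurentPolynomial.eval₂ (Int.castRingHom ℂ) x) h5
      simp only [map_sum, map_add, map_sub, map_mul, map_neg, hev, hevT] at h6
      refine ⟨(Complex.exp (φ * Complex.I) ^ (2 * j))⁻¹, inv_ne_zero hne, ?_⟩
      simp only [tR]
      rw [h6]
      field_simp

end Pool.Agent.Helper71.TG
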