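import Mathlib
import Pool.Agent.Helper71.TG.Defs

/-!
# TG-H: the sizes of the frequencies

Write `K = μ n`, `c = b t`, `A = μ n² + t b² + δ n b = (K + δ b) n + c b`, `L = l - R`, `w = R b / n`, `j = R b % n`, `Q = q - w` (integers).
Facts: (i) `n Q = L b - ε + j`; (ii) `Q ≥ 1`; (iii) `L ≥ 2` and `j > a` give `Q ≥ 2`; (iv) `ε = -1` and `j > a` give `L ≥ 2` (if `L = 1` then `n Q = b + 1 + j`,
`Q = 1`, `j = a - 1`); (v) `2 L ≤ n - 1`, `Q ≤ q`, `2 q ≤ b` (`2 n q = 2 l b - 2 ε ≤ (n - 1) b + 2`), `q < l`, `K ≥ n ≥ b + 2`, `c ≥ b`.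
Case `j ≤ a` (`la = 0`, `min = j`): `f2 = (K + δ b) (2 L - 1) + c (2 Q - 1) - δ ε`.
Case `j > a` (`la = j - a`, `min = a`): `f2 = K (2 L - 1) + c (2 Q - 1) + δ (2 L b + j - ε - n)`, `f1 = f2 - 2 c - δ b`, so `f1 ≤ f2 - c`.
Lower bounds.  `j ≤ a`, `ε = -1`: `f2 ≥ (K - b) + c - 1`.  `j ≤ a`, `ε = 1` (`L ≥ 2`): `f2 ≥ 3 (K - b) + c - 1`.
`j > a`, `δ = 1`: `2 L b + j - ε - n ≥ 3 b`, `f2 ≥ 3 K + 3 c + 3 b`.  `j > a`, `δ = -1`: `f2 ≥ K (2 L - 1) - 2 L b + 3 c + ε + 1` (`j ≤ n - 1`) and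
`(2 L - 2) K ≥ (2 L - 2) (b + 2)`, so `f2 ≥ K + 3 c - 2 b + 4`, `f1 = f2 - 2 c + b ≥ K + c - b + 4`.
Upper bounds `f + X ≤ A - 1`.  `j ≤ a`: `f2 ≤ (K + δ b) (2 l - 1) + c (2 q - 1) - δ ε`; `X ≤ c`: `A - 1 - f2 - X ≥ (K + δ b) (n - 2 l + 1) + c (b - 2 q) + δ ε - 1 ≥ 2 a - 2`;
`X ≤ K`: `A - 1 - f2 - X ≥ (K + δ b) (n - 2 l + 1) - K + c (b - 2 q + 1) + δ ε - 1 ≥ K + 2 δ b + c + δ ε - 1 ≥ 0`.
`j > a`, `δ = 1`: `A - 1 - f2 - X = K (n - 2 L + 1) + c (b - 2 Q + 1) + b (n - 2 L) + (n - j) + ε - 1 - X ≥ 2 K + c + b - 1 - X`.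
`j > a`, `δ = -1`: `A - 1 - f2 - X = K (n - 2 L + 1) + c (b - 2 Q + 1) - b (n - 2 L) + j - ε - n - 1 - X` and `K (n - 2 L + 1) ≥ n (n - 2 L + 1) + 2 (K - n)`, so it is
`≥ a (n - 2 L) + 2 (K - n) + c + j - ε - 1 - X ≥ 0` (`j ≥ a + 1`).
(All these were checked numerically.)
-/

set_option autoImplicit false

namespace Pool.Agent.Helper71.TG

variable {n a b l q : ℕ} {ε : ℤ}

/-- the frequency of amplitude `la`, up to the sign `δ` -/
def f1 (n a b l q : ℕ) (ε δ μ t : ℤ) (R : ℕ) : ℤ :=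
  δ * (2 * (δ * μ * n * l + (a + b * (1 + δ * t)) * q) + ε - δ * μ * n - b * (1 + δ * t) + b -
    2 * sx n a b (1 + δ * t) (δ * μ) R - 2 * b * (1 + δ * t) - la n a b R)

/-- the frequency of amplitude `b - la`, up to the sign `δ` -/
def f2 (n a b l q : ℕ) (ε δ μ t : ℤ) (R : ℕ) : ℤ :=
  δ * (2 * (δ * μ * n * l + (a + b * (1 + δ * t)) * q) + ε - δ * μ * n - b * (1 + δ * t) + b -
    2 * sx n a b (1 + δ * t) (δ * μ) R - la n a b R - b)

/-- the two bounds -/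
def Xb (n b : ℕ) (ε μ t X : ℤ) : Prop :=
  (ε = -1 ∧ (X = b * t ∨ X = μ * n - 1)) ∨ (ε = 1 ∧ (X = b * t - 1 ∨ X = μ * n))

theorem Dat.lq (D : Dat n a b l q ε) : 2 ≤ l ∧ 1 ≤ q ∧ q < l ∧ 2 * q ≤ b := by
  obtain ⟨hn, ha, hb, hε, hl, h2⟩ := D
  have hn' : (a : ℤ) + b = n := by exact_mod_cast hn
  have ha' : (2 : ℤ) ≤ a := by exact_mod_cast ha
  have hb' : (2 : ℤ) ≤ b := by exact_mod_cast hb
  have h2' : 2 * (l : ℤ) + 1 ≤ n := by exact_mod_cast h2
  have hl0 : (0 : ℤ) ≤ l := by positivity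
  have hq0 : (0 : ℤ) ≤ q := by positivity
  have hε' : -1 ≤ ε ∧ ε ≤ 1 := by rcases hε with h | h <;> omega
  have hq1 : (1 : ℤ) ≤ q := by
    by_contra h
    have h0 : (q : ℤ) = 0 := by omega
    rw [h0, mul_zero, zero_add] at hl
    rcases hε with h | h
    · rw [h] at hl
      have h3 : (l : ℤ) ≠ 0 := by
        intro h4
        rw [h4] at hl
        omega
      have h5 : (1 : ℤ) ≤ l := by omega
      nlinarith
    · rw [h] at hl
      nlinarith
  have hl2 : (2 : ℤ) ≤ l := by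
    by_contra h
    have h0 : (l : ℤ) = 0 ∨ (l : ℤ) = 1 := by omega
    rcases h0 with h0 | h0
    · rw [h0] at hl
      nlinarith
    · rw [h0] at hl
      nlinarith
  have hql : (q : ℤ) < l := by
    by_contra h
    push Not at h
    nlinarith
  have h2q : 2 * (q : ℤ) ≤ b := by
    by_contra h
    push Not at h
    have h3 : (b : ℤ) + 1 ≤ 2 * q := by omega
    nlinarith
  refine ⟨by exact_mod_cast hl2, by exact_mod_cast hq1, by exact_mod_cast hql, by exact_mod_cast h2q⟩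

theorem la_lt (D : Dat n a b l q ε) (R : ℕ) : la n a b R < b := by
  obtain ⟨hn, ha, hb, hε, hl, h2⟩ := D
  unfold la
  have h := Nat.mod_lt (R * b) (show 0 < n by omega)
  omega

/-- the closed forms and the facts (i) - (v) -/
private theorem prep (D : Dat n a b l q ε) {δ μ t : ℤ} (hδ : δ = 1 ∨ δ = -1) (hμ : 1 ≤ μ)
    (ht : 1 ≤ t) {R : ℕ} (hR : R < l) (hR' : ε = 1 → R + 1 < l) :
    ∃ L Q K c j A' B N : ℤ, (a : ℤ) = A' ∧ (b : ℤ) = B ∧ (n : ℤ) = N ∧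
      K = μ * N ∧ c = B * t ∧ A' + B = N ∧ 2 ≤ A' ∧ 2 ≤ B ∧ (ε = 1 ∨ ε = -1) ∧
      μ * (n : ℤ) ^ 2 + t * (b : ℤ) ^ 2 + δ * n * b = K * N + c * B + δ * (N * B) ∧
      1 ≤ L ∧ (ε = 1 → 2 ≤ L) ∧ 2 * L ≤ N - 1 ∧ 1 ≤ Q ∧ 2 * Q ≤ B ∧ N * Q = L * B - ε + j ∧
      0 ≤ j ∧ j ≤ N - 1 ∧ N ≤ K ∧ B ≤ c ∧
      f1 n a b l q ε δ μ t R = f2 n a b l q ε δ μ t R - 2 * c - δ * B ∧
      ((j ≤ A' ∧ la n a b R = 0 ∧
        f2 n a b l q ε δ μ t R = (K + δ * B) * (2 * L - 1) + c * (2 * Q - 1) - δ * ε) ∨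
      (A' + 1 ≤ j ∧ 2 ≤ L ∧ 2 ≤ Q ∧
        f2 n a b l q ε δ μ t R = K * (2 * L - 1) + c * (2 * Q - 1) +
          δ * (2 * L * B + j - ε - N))) := by
  obtain ⟨-, hq1, -, h2q⟩ := D.lq
  obtain ⟨hn, ha, hb, hε, hl, h2⟩ := D
  have hn' : (a : ℤ) + b = n := by exact_mod_cast hn
  have ha' : (2 : ℤ) ≤ a := by exact_mod_cast ha
  have hb' : (2 : ℤ) ≤ b := by exact_mod_cast hb
  have h2' : 2 * (l : ℤ) + 1 ≤ n := by exact_mod_cast h2
  have h2q' : 2 * (q : ℤ) ≤ b := by exact_mod_cast h2q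
  have hRl : (R : ℤ) + 1 ≤ l := by exact_mod_cast hR
  have hRl' : ε = 1 → (R : ℤ) + 2 ≤ l := by
    intro h
    have h1 := hR' h
    have h3 : R + 2 ≤ l := h1
    exact_mod_cast h3
  have hnpos : 0 < n := by omega
  have hdm := Nat.div_add_mod (R * b) n
  have hjn := Nat.mod_lt (R * b) hnpos
  set w : ℕ := R * b / n with hw
  set j : ℕ := R * b % n with hj
  have hdm' : (n : ℤ) * w + j = R * b := by exact_mod_cast hdm
  have hjn' : (j : ℤ) + 1 ≤ n := by exact_mod_cast hjn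
  have hδ2 : δ * δ = 1 := by rcases hδ with h | h <;> rw [h] <;> norm_num
  have hnQ : (n : ℤ) * (q - w) = (l - R) * b - ε + j := by linarith
  have hε' : -1 ≤ ε ∧ ε ≤ 1 := by rcases hε with h | h <;> omega
  have hw0 : (0 : ℤ) ≤ w := by positivity
  have hj0 : (0 : ℤ) ≤ j := by positivity
  have hn0 : (0 : ℤ) < n := by exact_mod_cast hnpos
  have hQ1 : (1 : ℤ) ≤ q - w := by
    by_contra h
    push Not at h
    have h3 : (q : ℤ) - w ≤ 0 := by omega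
    nlinarith
  have hK : (n : ℤ) ≤ μ * n := by nlinarith
  have hc : (b : ℤ) ≤ b * t := by nlinarith
  refine ⟨l - R, q - w, μ * n, b * t, j, a, b, n, rfl, rfl, rfl, rfl, rfl, hn', ha', hb', hε,
    by ring, by omega, ?_, by omega, hQ1, by omega, hnQ, hj0, by omega, hK, hc, ?_, ?_⟩
  · intro h
    have := hRl' h
    omega
  · unfold f1 f2
    linear_combination (-2 * (b : ℤ) * t) * hδ2
  · rcases Nat.lt_or_ge a j with hja | hja
    · right
      have hja' : (a : ℤ) + 1 ≤ j := by exact_mod_cast hja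
      have hL2 : (2 : ℤ) ≤ l - R := by
        rcases hε with h | h
        · have := hRl' h
          omega
        · by_contra hcon
          have hL1 : (l : ℤ) - R = 1 := by omega
          rw [hL1, h] at hnQ
          have hQ2 : (q : ℤ) - w < 2 := by
            by_contra hc2
            push Not at hc2
            nlinarith
          have hQ1' : (q : ℤ) - w = 1 := by omega
          rw [hQ1'] at hnQ
          omega
      have hQ2 : (2 : ℤ) ≤ q - w := by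
        by_contra hc2
        have hQ1' : (q : ℤ) - w = 1 := by omega
        rw [hQ1'] at hnQ
        nlinarith
      refine ⟨hja', hL2, hQ2, ?_⟩
      have hmin : ((min (R * b % n) a : ℕ) : ℤ) = a := by
        rw [← hj, min_eq_right hja.le]
      have hla : ((la n a b R : ℕ) : ℤ) = j - a := by
        unfold la
        rw [← hj]
        push_cast [Nat.cast_sub hja.le]
        ring
      have hwc : ((R * b / n : ℕ) : ℤ) = w := by rw [hw]
      unfold f2 sx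
      rw [hmin, hla, ← hw]
      have hnQ2 : (n : ℤ) * w = n * q - ((l - R) * b - ε + j) := by linarith
      linear_combination (2 * μ * n * l - 2 * μ * n * R - μ * n + 2 * b * t * q - 2 * b * t * w - b * t) * hδ2
        + (2 * δ) * hnQ + (2 * δ * q - 2 * δ * w - δ) * hn'
    · left
      have hja' : (j : ℤ) ≤ a := by exact_mod_cast hja
      have hla : la n a b R = 0 := by
        unfold la
        rw [← hj]
        omega
      refine ⟨hja', hla, ?_⟩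
      have hmin : ((min (R * b % n) a : ℕ) : ℤ) = j := by
        rw [← hj, min_eq_left hja]
      unfold f2 sx
      rw [hmin, hla, ← hw]
      push_cast
      linear_combination (2 * μ * n * l - 2 * μ * n * R - μ * n + 2 * b * t * q - 2 * b * t * w - b * t) * hδ2
        + (2 * δ) * hnQ + (2 * δ * q - 2 * δ * w) * hn'

/-- the bounds for `f2`, with the stronger ones for `f1` in the case `j > a` -/
private theorem f12_bounds (D : Dat n a b l q ε) {δ μ t : ℤ} (hδ : δ = 1 ∨ δ = -1) (hμ : 1 ≤ μ)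
    (ht : 1 ≤ t) {R : ℕ} (hR : R < l) (hR' : ε = 1 → R + 1 < l)
    {X : ℤ} (hX : Xb n b ε μ t X) :
    (X ≤ f2 n a b l q ε δ μ t R ∧
      f2 n a b l q ε δ μ t R + X ≤ μ * n ^ 2 + t * b ^ 2 + δ * n * b - 1) ∧
    (1 ≤ la n a b R → X ≤ f1 n a b l q ε δ μ t R ∧
      f1 n a b l q ε δ μ t R + X ≤ μ * n ^ 2 + t * b ^ 2 + δ * n * b - 1) := by
  obtain ⟨L, Q, K, c, j, A, B, N, eA, eB, eN, eK, ec, hAB, hA, hB, hε, hM, hL1, hL2, hLN, hQ1, hQB,
    hNQ, hj0, hjN, hNK, hBc, hf1, hcase⟩ := prep D hδ hμ ht hR hR'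
  rw [hM, hf1]
  have hX' : (ε = -1 ∧ (X = c ∨ X = K - 1)) ∨ (ε = 1 ∧ (X = c - 1 ∨ X = K)) := by
    unfold Xb at hX
    rw [eB, eN, ← eK, ← ec] at hX
    exact hX
  have hXc : X ≤ c ∨ X ≤ K := by
    rcases hX' with ⟨-, h | h⟩ | ⟨-, h | h⟩ <;> omega
  have hε' : -1 ≤ ε ∧ ε ≤ 1 := by rcases hε with h | h <;> omega
  have hKB : K - B ≥ 2 := by omega
  rcases hcase with ⟨hja, hla, hf2⟩ | ⟨hja, hL, hQ, hf2⟩
  · refine ⟨?_, fun h => by omega⟩
    rw [hf2]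
    have p2 : 0 ≤ c * (B - 2 * Q) := mul_nonneg (by omega) (by omega)
    have p3 : 0 ≤ c * (Q - 1) := mul_nonneg (by omega) (by omega)
    rcases hδ with rfl | rfl
    · have p1 : 0 ≤ (K + B) * (N - 1 - 2 * L) := mul_nonneg (by omega) (by omega)
      have p4 : 0 ≤ (K + B) * (L - 1) := mul_nonneg (by omega) (by omega)
      constructor
      · rcases hXc with h | h <;> linarith
      · rcases hXc with h | h <;> linarith
    · have p1 : 0 ≤ (K - B) * (N - 1 - 2 * L) := mul_nonneg (by omega) (by omega)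
      constructor
      · rcases hX' with ⟨he, hx⟩ | ⟨he, hx⟩
        · have p4 : 0 ≤ (K - B) * (L - 1) := mul_nonneg (by omega) (by omega)
          subst he
          rcases hx with hx | hx <;> linarith
        · have p4 : 0 ≤ (K - B) * (L - 2) := mul_nonneg (by omega) (by have := hL2 he; omega)
          subst he
          rcases hx with hx | hx <;> linarith
      · rcases hXc with h | h <;> linarith
  · rw [hf2]
    have p2 : 0 ≤ c * (B - 2 * Q) := mul_nonneg (by omega) (by omega)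
    have p3 : 0 ≤ c * (Q - 2) := mul_nonneg (by omega) (by omega)
    have p4 : 0 ≤ K * (L - 2) := mul_nonneg (by omega) (by omega)
    have p5 : 0 ≤ B * (L - 2) := mul_nonneg (by omega) (by omega)
    have p6 : 0 ≤ (K - N) * (N - 1 - 2 * L) := mul_nonneg (by omega) (by omega)
    have p7 : 0 ≤ A * (N - 1 - 2 * L) := mul_nonneg (by omega) (by omega)
    have p8 : 0 ≤ B * (N - 1 - 2 * L) := mul_nonneg (by omega) (by omega)
    have p9 : 0 ≤ (K - B - 2) * (L - 2) := mul_nonneg (by omega) (by omega)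
    have hA' : A = N - B := by omega
    subst hA'
    rcases hδ with rfl | rfl
    · refine ⟨⟨?_, ?_⟩, fun _ => ⟨?_, ?_⟩⟩
      · rcases hXc with h | h <;> linarith
      · rcases hXc with h | h <;> linarith
      · rcases hXc with h | h <;> linarith
      · rcases hXc with h | h <;> linarith
    · refine ⟨⟨?_, ?_⟩, fun _ => ⟨?_, ?_⟩⟩
      · rcases hXc with h | h <;> linarith
      · rcases hXc with h | h <;> linarith
      · rcases hXc with h | h <;> linarith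
      · rcases hXc with h | h <;> linarith

theorem f1_bounds (D : Dat n a b l q ε) {δ μ t : ℤ} (hδ : δ = 1 ∨ δ = -1) (hμ : 1 ≤ μ)
    (ht : 1 ≤ t) {R : ℕ} (hR : R < l) (hR' : ε = 1 → R + 1 < l) (h : 1 ≤ la n a b R)
    {X : ℤ} (hX : Xb n b ε μ t X) :
    X ≤ f1 n a b l q ε δ μ t R ∧
      f1 n a b l q ε δ μ t R + X ≤ μ * n ^ 2 + t * b ^ 2 + δ * n * b - 1 :=
  (f12_bounds D hδ hμ ht hR hR' hX).2 h

theorem f2_bounds (D : Dat n a b l q ε) {δ μ t : ℤ} (hδ : δ = 1 ∨ δ = -1) (hμ : 1 ≤ μ)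
    (ht : 1 ≤ t) {R : ℕ} (hR : R < l) (hR' : ε = 1 → R + 1 < l)
    {X : ℤ} (hX : Xb n b ε μ t X) :
    X ≤ f2 n a b l q ε δ μ t R ∧
      f2 n a b l q ε δ μ t R + X ≤ μ * n ^ 2 + t * b ^ 2 + δ * n * b - 1 :=
  (f12_bounds D hδ hμ ht hR hR' hX).1

/-- the last term, `ε = 1` -/
theorem f_last (D : Dat n a b l q ε) (h1 : ε = 1) {δ μ t : ℤ} (hδ : δ = 1 ∨ δ = -1) :
    la n a b (l - 1) = 1 ∧ f1 n a b l q ε δ μ t (l - 1) = μ * n - b * t ∧
      f2 n a b l q ε δ μ t (l - 1) = μ * n + b * t + δ * b := by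
  obtain ⟨hl2, hq1, hql, -⟩ := D.lq
  have hn := D.hn
  have ha := D.ha
  have hb := D.hb
  have hl := D.hl
  obtain ⟨l', rfl⟩ : ∃ l', l = l' + 1 := ⟨l - 1, by omega⟩
  obtain ⟨q', rfl⟩ : ∃ q', q = q' + 1 := ⟨q - 1, by omega⟩
  have e : l' * b = n * q' + (a + 1) := by
    zify
    push_cast at hl
    have hn' : (a : ℤ) + b = n := by exact_mod_cast hn
    rw [h1] at hl
    linear_combination hl - hn'
  have hn0 : 0 < n := by omega
  have hdm : l' * b / n = q' ∧ l' * b % n = a + 1 := by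
    rw [Nat.div_mod_unique hn0]
    exact ⟨by rw [e]; ring, by omega⟩
  have hla : la n a b (l' + 1 - 1) = 1 := by
    rw [Nat.add_sub_cancel]
    unfold la
    rw [hdm.2]
    omega
  have hsx : sx n a b (1 + δ * t) (δ * μ) (l' + 1 - 1) =
      δ * μ * n * l' + (a + b * (1 + δ * t)) * q' + a := by
    rw [Nat.add_sub_cancel]
    unfold sx
    rw [hdm.1, hdm.2, min_eq_right (by omega : a ≤ a + 1)]
  refine ⟨hla, ?_, ?_⟩
  · unfold f1
    rw [hsx, hla, h1]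
    push_cast
    rcases hδ with rfl | rfl <;> ring
  · unfold f2
    rw [hsx, hla, h1]
    push_cast
    rcases hδ with rfl | rfl <;> ring

/-- the frequency of the last term and the other bounds: for `ε = 1` `F = μ n + b t + δ b` -/
theorem other_bounds (D : Dat n a b l q ε) {δ μ t : ℤ} (hδ : δ = 1 ∨ δ = -1) (hμ : 1 ≤ μ)
    (ht : 1 ≤ t) :
    (∀ X, Xb n b ε μ t X → 1 ≤ X ∧ (ε = 1 → X ≤ μ * n + b * t + δ * b ∧
      μ * n + b * t + δ * b + X ≤ μ * n ^ 2 + t * b ^ 2 + δ * n * b - 1)) ∧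
    b * t < μ * n ^ 2 + t * b ^ 2 + δ * n * b ∧ μ * n < μ * n ^ 2 + t * b ^ 2 + δ * n * b ∧
    2 * ((l : ℤ) * b) ≤ μ * n ^ 2 + t * b ^ 2 + δ * n * b - 1 ∧
    0 < δ * (δ * μ * n * l + (a + b * (1 + δ * t)) * q) ∧
    0 < δ * (δ * μ * n * l + (a + b * (1 + δ * t)) * q + ε) ∧
    δ * (δ * μ * n * l + (a + b * (1 + δ * t)) * q) < μ * n ^ 2 + t * b ^ 2 + δ * n * b - 1 ∧
    δ * (δ * μ * n * l + (a + b * (1 + δ * t)) * q + ε) <
      μ * n ^ 2 + t * b ^ 2 + δ * n * b - 1 := by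
  obtain ⟨hl2, hq1, hql, hqb⟩ := D.lq
  have hl := D.hl
  have ha : (2 : ℤ) ≤ a := by exact_mod_cast D.ha
  have hb : (2 : ℤ) ≤ b := by exact_mod_cast D.hb
  have hl2' : (2 : ℤ) ≤ l := by exact_mod_cast hl2
  have hq1' : (1 : ℤ) ≤ q := by exact_mod_cast hq1
  have hql' : (q : ℤ) + 1 ≤ l := by exact_mod_cast hql
  have hqb' : 2 * (q : ℤ) ≤ b := by exact_mod_cast hqb
  have h2 : 2 * (l : ℤ) + 1 ≤ n := by exact_mod_cast D.h2
  have hn : (n : ℤ) = a + b := by exact_mod_cast D.hn.symm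
  have hε := D.hε
  obtain ⟨A, hA⟩ : ∃ A : ℤ, A = a := ⟨_, rfl⟩
  obtain ⟨B, hB⟩ : ∃ B : ℤ, B = b := ⟨_, rfl⟩
  obtain ⟨N, hN⟩ : ∃ N : ℤ, N = n := ⟨_, rfl⟩
  obtain ⟨L, hL⟩ : ∃ L : ℤ, L = l := ⟨_, rfl⟩
  obtain ⟨Q, hQ⟩ : ∃ Q : ℤ, Q = q := ⟨_, rfl⟩
  unfold Xb
  simp only [← hA, ← hB, ← hN, ← hL, ← hQ] at *
  clear hA hB hN hL hQ D hl2 hq1 hql hqb
  subst hn
  obtain ⟨m, rfl⟩ : ∃ m, μ = 1 + m := ⟨μ - 1, by ring⟩
  obtain ⟨s, rfl⟩ : ∃ s, t = 1 + s := ⟨t - 1, by ring⟩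
  have hm : 0 ≤ m := by linarith
  have hs : 0 ≤ s := by linarith
  have e1 : (A + B) * (L - Q) = L * A + ε := by linear_combination hl
  have p1 : 0 ≤ m * (A + B) := mul_nonneg hm (by linarith)
  have p2 : 0 ≤ s * B := mul_nonneg hs (by linarith)
  have p3 : 0 ≤ m * (A + B) * (A + B - 2) := mul_nonneg p1 (by linarith)
  have p4 : 0 ≤ s * B * (B - 2) := mul_nonneg p2 (by linarith)
  have p5 : 0 ≤ m * (A + B) * (L - 1) := mul_nonneg p1 (by linarith)
  have p6 : 0 ≤ m * (A + B) * (A + B - 2 * L - 1) := mul_nonneg p1 (by linarith)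
  have p7 : 0 ≤ s * B * (Q - 1) := mul_nonneg p2 (by linarith)
  have p8 : 0 ≤ s * B * (B - 2 * Q) := mul_nonneg p2 (by linarith)
  have q1 : 0 ≤ (A - 2) * (B - 2) := mul_nonneg (by linarith) (by linarith)
  have q2 : 0 ≤ (A - 2) * (A - 2) := mul_self_nonneg _
  have q3 : 0 ≤ (B - 2) * (B - 2) := mul_self_nonneg _
  have q4 : 0 ≤ (A - 2) * (L - 2) := mul_nonneg (by linarith) (by linarith)
  have q5 : 0 ≤ (B - 2) * (L - 2) := mul_nonneg (by linarith) (by linarith)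
  have q6 : 0 ≤ (A - 2) * (A + B - 2 * L - 1) := mul_nonneg (by linarith) (by linarith)
  have q7 : 0 ≤ (B - 2) * (A + B - 2 * L - 1) := mul_nonneg (by linarith) (by linarith)
  have q8 : 0 ≤ (B - 2) * (B - 2 * Q) := mul_nonneg (by linarith) (by linarith)
  have q9 : 0 ≤ (B - 2) * (Q - 1) := mul_nonneg (by linarith) (by linarith)
  have q10 : 0 ≤ (A - 2) * (Q - 1) := mul_nonneg (by linarith) (by linarith)
  refine ⟨?_, ?_, ?_, ?_, ?_, ?_, ?_, ?_⟩
  · rintro X hX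
    rcases hX with ⟨rfl, rfl | rfl⟩ | ⟨rfl, rfl | rfl⟩
    · exact ⟨by nlinarith, fun h => by norm_num at h⟩
    · exact ⟨by nlinarith, fun h => by norm_num at h⟩
    · refine ⟨by nlinarith, fun _ => ?_⟩
      rcases hδ with rfl | rfl
      · exact ⟨by nlinarith, by nlinarith⟩
      · exact ⟨by nlinarith, by nlinarith⟩
    · refine ⟨by nlinarith, fun _ => ?_⟩
      rcases hδ with rfl | rfl
      · exact ⟨by nlinarith, by nlinarith⟩
      · exact ⟨by nlinarith, by nlinarith⟩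
  · rcases hδ with rfl | rfl <;> nlinarith
  · rcases hδ with rfl | rfl <;> nlinarith
  · rcases hδ with rfl | rfl <;> nlinarith
  · rcases hδ with rfl | rfl <;> nlinarith
  · rcases hδ with rfl | rfl <;> rcases hε with rfl | rfl <;> nlinarith
  · rcases hδ with rfl | rfl <;> rcases hε with rfl | rfl <;> nlinarith
  · rcases hδ with rfl | rfl <;> rcases hε with rfl | rfl <;> nlinarith

end Pool.Agent.Helper71.TG
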