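import Mathlib
import Pool.Agent.Helper71.TG.Sig
import Pool.Agent.Helper71.TG.Ineq
import Pool.Agent.Helper71.TG.End
import Pool.Agent.Helper71.FT.End
import Pool.Agent.Helper27.TT.C4

/-!
# TG-I: the signs of the real function
-/

set_option autoImplicit false

namespace Pool.Agent.Helper71.TG

open Finset

variable {n a b l q : ℕ} {ε : ℤ}

/-! ### Sines -/

theorem sin_add_lt {x y : ℝ} (hx : 0 < x) (hy : 0 < y) (h : x + y ≤ Real.pi) :
    Real.sin (x + y) < Real.sin x + Real.sin y := by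
  have h1 : 0 < Real.sin x := Real.sin_pos_of_pos_of_lt_pi hx (by linarith)
  have h2 : 0 < Real.sin y := Real.sin_pos_of_pos_of_lt_pi hy (by linarith)
  have h3 : Real.cos y < 1 := by
    have := Real.cos_lt_cos_of_nonneg_of_le_pi le_rfl (by linarith : y ≤ Real.pi) hy
    rwa [Real.cos_zero] at this
  rw [Real.sin_add]
  have h4 := Real.cos_le_one x
  nlinarith

theorem sin_mul_le {θ : ℝ} (hθ : 0 < θ) (L : ℕ) (h : ((L : ℝ) + 1) * θ ≤ Real.pi) :
    Real.sin (((L : ℝ) + 1) * θ) ≤ ((L : ℝ) + 1) * Real.sin θ := by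
  induction L with
  | zero => simp
  | succ L ih =>
    push_cast at h ⊢
    have h1 : ((L : ℝ) + 1) * θ ≤ Real.pi := by nlinarith
    have h2 : (0 : ℝ) < ((L : ℝ) + 1) * θ := by positivity
    have h3 := sin_add_lt h2 hθ (by linarith)
    have h4 := ih h1
    have e : ((L : ℝ) + 1 + 1) * θ = ((L : ℝ) + 1) * θ + θ := by ring
    rw [e]
    linarith

theorem sin_total {φ θ : ℝ} (hθ : 0 < θ) (L : ℕ) (hL : 1 ≤ L) (e : ℝ)
    (he : (e = 0 ∧ 2 ≤ L) ∨ 0 < e * φ) (h : (L : ℝ) * θ + e * φ ≤ Real.pi) :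
    Real.sin ((L : ℝ) * θ + e * φ) < L * Real.sin θ + Real.sin (e * φ) := by
  obtain ⟨L', rfl⟩ : ∃ L', L = L' + 1 := ⟨L - 1, by omega⟩
  push_cast at h ⊢
  rcases he with ⟨he, h2⟩ | he
  · rw [he, zero_mul, add_zero] at h ⊢
    rw [Real.sin_zero, add_zero]
    obtain ⟨L'', rfl⟩ : ∃ L'', L' = L'' + 1 := ⟨L' - 1, by omega⟩
    push_cast at h ⊢
    have h1 : ((L'' : ℝ) + 1) * θ ≤ Real.pi := by nlinarith
    have h2 : (0 : ℝ) < ((L'' : ℝ) + 1) * θ := by positivity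
    have h3 := sin_add_lt h2 hθ (by linarith)
    have h4 := sin_mul_le hθ L'' h1
    have e : ((L'' : ℝ) + 1 + 1) * θ = ((L'' : ℝ) + 1) * θ + θ := by ring
    rw [e]
    linarith
  · have h2 : (0 : ℝ) < ((L' : ℝ) + 1) * θ := by positivity
    have h3 := sin_add_lt h2 he h
    have h4 := sin_mul_le hθ L' (by linarith)
    linarith

theorem sin_ge {x z : ℝ} (hx : 0 ≤ x) (h1 : x ≤ z) (h2 : z + x ≤ Real.pi) :
    Real.sin x ≤ Real.sin z := by
  rcases le_total z (Real.pi / 2) with h | h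
  · exact Real.sin_le_sin_of_le_of_le_pi_div_two (by linarith [Real.pi_pos]) h h1
  · rw [← Real.sin_pi_sub z]
    exact Real.sin_le_sin_of_le_of_le_pi_div_two (by linarith [Real.pi_pos]) (by linarith)
      (by linarith)

/-! ### The abstract statement -/

/-- the sum -/
noncomputable def wp (b L : ℕ) (d : ℕ → ℕ) (g1 g2 : ℕ → ℤ) (φ : ℝ) : ℝ :=
  ∑ R ∈ range L, (Real.sin ((d R : ℝ) * φ) * Real.sin ((g1 R : ℝ) * φ) +
    Real.sin ((((b : ℤ) - d R : ℤ) : ℝ) * φ) * Real.sin ((g2 R : ℝ) * φ))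

theorem wp_succ (b L : ℕ) (d : ℕ → ℕ) (g1 g2 : ℕ → ℤ) (φ : ℝ) :
    wp b (L + 1) d g1 g2 φ = wp b L d g1 g2 φ +
      (Real.sin ((d L : ℝ) * φ) * Real.sin ((g1 L : ℝ) * φ) +
        Real.sin ((((b : ℤ) - d L : ℤ) : ℝ) * φ) * Real.sin ((g2 L : ℝ) * φ)) := by
  unfold wp
  rw [sum_range_succ]

/-- positivity -/
theorem core_pos (b L : ℕ) (d : ℕ → ℕ) (g1 g2 : ℕ → ℤ) (A e F x y : ℤ) (hA : 2 ≤ A)
    (hd : ∀ R < L, d R < b)
    (h1 : ∀ R < L, 1 ≤ d R → 0 < g1 R ∧ g1 R < A) (h2 : ∀ R < L, 0 < g2 R ∧ g2 R < A)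
    (hbA : (b : ℤ) < A) (he : 0 ≤ e) (heA : e < A) (hF : 0 < F) (hFA : F < A) (hx : 0 < x)
    (hxA : x < A) (hy : 0 < y) (hyA : y < A) (φ : ℝ) (h0 : 0 < φ) (hφ : φ * (A : ℝ) ≤ Real.pi) :
    0 < Real.sin ((A : ℝ) * φ) * (wp b L d g1 g2 φ + Real.sin ((e : ℝ) * φ) *
      Real.sin ((F : ℝ) * φ)) + Real.sin φ * Real.sin ((x : ℝ) * φ) *
      Real.sin (((A - y : ℤ) : ℝ) * φ) := by
  have hpos : ∀ z : ℤ, 0 ≤ z → z ≤ A → 0 ≤ Real.sin ((z : ℝ) * φ) := by
    intro z hz hzA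
    have hz' : (0 : ℝ) ≤ z := by exact_mod_cast hz
    have hzA' : (z : ℝ) ≤ A := by exact_mod_cast hzA
    apply Real.sin_nonneg_of_nonneg_of_le_pi (by positivity)
    nlinarith
  have hpos' : ∀ z : ℤ, 0 < z → z < A → 0 < Real.sin ((z : ℝ) * φ) := by
    intro z hz hzA
    exact FT.sin_pos_k h0 hφ hz (by exact_mod_cast hzA)
  have hw : 0 ≤ wp b L d g1 g2 φ := by
    unfold wp
    refine sum_nonneg fun R hR => ?_
    have hR' := mem_range.1 hR
    have hdR := hd R hR'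
    have k1 : 0 ≤ Real.sin ((d R : ℝ) * φ) := by
      have := hpos (d R) (Int.natCast_nonneg _) (by omega)
      rwa [Int.cast_natCast] at this
    have k2 := hpos ((b : ℤ) - d R) (by omega) (by omega)
    have k3 := hpos (g2 R) (h2 R hR').1.le (h2 R hR').2.le
    rcases Nat.eq_zero_or_pos (d R) with h | h
    · have e0 : Real.sin ((d R : ℝ) * φ) = 0 := by
        rw [h, Nat.cast_zero, zero_mul, Real.sin_zero]
      rw [e0, zero_mul, zero_add]
      exact mul_nonneg k2 k3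
    · have k4 := hpos (g1 R) (h1 R hR' h).1.le (h1 R hR' h).2.le
      exact add_nonneg (mul_nonneg k1 k4) (mul_nonneg k2 k3)
  have k5 := hpos A (by omega) le_rfl
  have k6 := hpos e he heA.le
  have k7 := hpos F hF.le hFA.le
  have k8 : 0 < Real.sin φ := by
    have := hpos' 1 (by norm_num) (by omega)
    rwa [Int.cast_one, one_mul] at this
  have k9 := hpos' x hx hxA
  have k10 := hpos' (A - y) (by omega) (by omega)
  have k11 := mul_nonneg k5 (add_nonneg hw (mul_nonneg k6 k7))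
  have k12 := mul_pos (mul_pos k8 k9) k10
  linarith

/-- negativity past the angle `π / A` -/
theorem core_neg (b L : ℕ) (d : ℕ → ℕ) (g1 g2 : ℕ → ℤ) (A e F x y X X' : ℤ) (hA : 3 ≤ A)
    (hb : 1 ≤ b) (hL : 1 ≤ L) (hd : ∀ R < L, d R < b)
    (h1 : ∀ R < L, 1 ≤ d R → X' ≤ g1 R ∧ g1 R + X' ≤ A - 1)
    (h2 : ∀ R < L, X' ≤ g2 R ∧ g2 R + X' ≤ A - 1)
    (he : (e = 0 ∧ 2 ≤ L) ∨ 1 ≤ e) (hF : 1 ≤ e → X' ≤ F ∧ F + X' ≤ A - 1)
    (hX : 0 < X) (hXt : X ≤ L * b + e) (ht : 2 * (L * b + e) ≤ A - 1) (hX' : 0 < X')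
    (hxy : (X = x ∧ X' = y - 1) ∨ (X' = x ∧ X = y - 1)) :
    Real.sin ((A : ℝ) * (Real.pi / ((A - 1 : ℤ) : ℝ))) *
      (wp b L d g1 g2 (Real.pi / ((A - 1 : ℤ) : ℝ)) +
        Real.sin ((e : ℝ) * (Real.pi / ((A - 1 : ℤ) : ℝ))) *
        Real.sin ((F : ℝ) * (Real.pi / ((A - 1 : ℤ) : ℝ)))) +
      Real.sin (Real.pi / ((A - 1 : ℤ) : ℝ)) *
        Real.sin ((x : ℝ) * (Real.pi / ((A - 1 : ℤ) : ℝ))) *
      Real.sin (((A - y : ℤ) : ℝ) * (Real.pi / ((A - 1 : ℤ) : ℝ))) < 0 := by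
  set B : ℝ := ((A - 1 : ℤ) : ℝ) with hB
  have hB2 : (2 : ℝ) ≤ B := by
    rw [hB]
    exact_mod_cast (show (2 : ℤ) ≤ A - 1 by omega)
  set φ : ℝ := Real.pi / B with hφd
  have hφ : 0 < φ := div_pos Real.pi_pos (by linarith)
  have hφB : φ * B = Real.pi := div_mul_cancel₀ _ (by linarith)
  have hAB : (A : ℝ) = B + 1 := by
    rw [hB]
    push_cast
    ring
  -- a bound for integers in terms of angles
  have hang : ∀ z : ℤ, z ≤ A - 1 → (z : ℝ) * φ ≤ Real.pi := by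
    intro z hz
    have hz' : (z : ℝ) ≤ B := by
      rw [hB]
      exact_mod_cast hz
    nlinarith
  have hsin1 : 0 < Real.sin φ := by
    apply Real.sin_pos_of_pos_of_lt_pi hφ
    nlinarith
  have eA : Real.sin ((A : ℝ) * φ) = -Real.sin φ := by
    rw [hAB, add_mul, one_mul, mul_comm, hφB, add_comm, Real.sin_add_pi]
  have eY : Real.sin (((A - y : ℤ) : ℝ) * φ) = Real.sin (((y - 1 : ℤ) : ℝ) * φ) := by
    rw [← Real.sin_pi_sub, ← hφB]
    congr 1
    push_cast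
    rw [hAB]
    ring
  have hX'A : 2 * X' ≤ A - 1 := by
    have := h2 0 (by omega)
    omega
  have hM0 : 0 < Real.sin ((X' : ℝ) * φ) := by
    apply Real.sin_pos_of_pos_of_lt_pi
    · have : (0 : ℝ) < X' := by exact_mod_cast hX'
      positivity
    · have h3 : ((2 * X' : ℤ) : ℝ) * φ ≤ Real.pi := hang _ hX'A
      push_cast at h3
      have : (0 : ℝ) < X' := by exact_mod_cast hX'
      nlinarith
  have hge : ∀ z : ℤ, X' ≤ z → z + X' ≤ A - 1 →
      Real.sin ((X' : ℝ) * φ) ≤ Real.sin ((z : ℝ) * φ) := by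
    intro z hz hz2
    apply sin_ge
    · have : (0 : ℝ) ≤ X' := by exact_mod_cast hX'.le
      positivity
    · have : (X' : ℝ) ≤ z := by exact_mod_cast hz
      nlinarith
    · have h3 := hang _ hz2
      push_cast at h3
      linarith
  have hnn : ∀ z : ℤ, 0 ≤ z → z ≤ A - 1 → 0 ≤ Real.sin ((z : ℝ) * φ) := by
    intro z hz hz2
    apply Real.sin_nonneg_of_nonneg_of_le_pi
    · have : (0 : ℝ) ≤ z := by exact_mod_cast hz
      positivity
    · exact hang _ hz2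
  have hLb : (b : ℤ) ≤ L * b := by
    have : (1 : ℤ) ≤ L := by exact_mod_cast hL
    nlinarith
  have he0 : 0 ≤ e := by omega
  have hbA : 2 * (b : ℤ) ≤ A - 1 := by linarith
  -- the sum
  have hw : Real.sin ((X' : ℝ) * φ) * (L * Real.sin ((b : ℝ) * φ)) ≤ wp b L d g1 g2 φ := by
    have e0 : Real.sin ((X' : ℝ) * φ) * (L * Real.sin ((b : ℝ) * φ)) =
        ∑ R ∈ range L, Real.sin ((X' : ℝ) * φ) * Real.sin ((b : ℝ) * φ) := by
      rw [sum_const, card_range, nsmul_eq_mul]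
      ring
    rw [e0]
    unfold wp
    refine sum_le_sum fun R hR => ?_
    have hR' := mem_range.1 hR
    have hdR := hd R hR'
    have k1 : 0 ≤ Real.sin ((d R : ℝ) * φ) := by
      have := hnn (d R) (Int.natCast_nonneg _) (by omega)
      rwa [Int.cast_natCast] at this
    have k2 := hnn ((b : ℤ) - d R) (by omega) (by omega)
    have k3 := hge (g2 R) (h2 R hR').1 (h2 R hR').2
    have k5 : Real.sin ((X' : ℝ) * φ) * Real.sin ((((b : ℤ) - d R : ℤ) : ℝ) * φ) ≤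
        Real.sin ((((b : ℤ) - d R : ℤ) : ℝ) * φ) * Real.sin ((g2 R : ℝ) * φ) := by
      rw [mul_comm]
      exact mul_le_mul_of_nonneg_left k3 k2
    rcases Nat.eq_zero_or_pos (d R) with h | h
    · have e1 : Real.sin ((d R : ℝ) * φ) = 0 := by
        rw [h, Nat.cast_zero, zero_mul, Real.sin_zero]
      have e2 : (((b : ℤ) - d R : ℤ) : ℝ) = (b : ℝ) := by
        rw [h]
        push_cast
        ring
      rw [e1, zero_mul, zero_add]
      rw [e2] at k5 ⊢
      exact k5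
    · have k4 := hge (g1 R) (h1 R hR' h).1 (h1 R hR' h).2
      have k6 : Real.sin ((X' : ℝ) * φ) * Real.sin ((d R : ℝ) * φ) ≤
          Real.sin ((d R : ℝ) * φ) * Real.sin ((g1 R : ℝ) * φ) := by
        rw [mul_comm]
        exact mul_le_mul_of_nonneg_left k4 k1
      have k7 : Real.sin ((b : ℝ) * φ) ≤ Real.sin ((d R : ℝ) * φ) +
          Real.sin ((((b : ℤ) - d R : ℤ) : ℝ) * φ) := by
        have e1 : (b : ℝ) * φ = (d R : ℝ) * φ + (((b : ℤ) - d R : ℤ) : ℝ) * φ := by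
          push_cast
          ring
        rw [e1]
        refine (sin_add_lt ?_ ?_ ?_).le
        · have : (0 : ℝ) < d R := by exact_mod_cast h
          positivity
        · have : (0 : ℝ) < (((b : ℤ) - d R : ℤ) : ℝ) := by
            exact_mod_cast (show (0 : ℤ) < (b : ℤ) - d R by omega)
          positivity
        · rw [← e1]
          have := hang b (by omega)
          rwa [Int.cast_natCast] at this
      have k8 := mul_le_mul_of_nonneg_left k7 hM0.le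
      rw [mul_add] at k8
      linarith
  have hs : Real.sin ((X' : ℝ) * φ) * Real.sin ((e : ℝ) * φ) ≤
      Real.sin ((e : ℝ) * φ) * Real.sin ((F : ℝ) * φ) := by
    rcases he with ⟨h, -⟩ | h
    · rw [h, Int.cast_zero, zero_mul, Real.sin_zero, mul_zero, zero_mul]
    · rw [mul_comm]
      exact mul_le_mul_of_nonneg_left (hge F (hF h).1 (hF h).2) (hnn e he0 (by omega))
  have htot : Real.sin ((X : ℝ) * φ) < L * Real.sin ((b : ℝ) * φ) + Real.sin ((e : ℝ) * φ) := by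
    have hb0 : (0 : ℝ) < b := by exact_mod_cast (show 0 < b by omega)
    have ht' : (L : ℝ) * ((b : ℝ) * φ) + (e : ℝ) * φ ≤ Real.pi / 2 := by
      have h3 := hang _ ht
      push_cast at h3
      linarith
    have h4 : Real.sin ((X : ℝ) * φ) ≤ Real.sin ((L : ℝ) * ((b : ℝ) * φ) + (e : ℝ) * φ) := by
      have hX0 : (0 : ℝ) < X := by exact_mod_cast hX
      have hXt' : (X : ℝ) ≤ L * b + e := by exact_mod_cast hXt
      apply Real.sin_le_sin_of_le_of_le_pi_div_two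
      · have : 0 ≤ (X : ℝ) * φ := by positivity
        linarith [Real.pi_pos]
      · exact ht'
      · nlinarith
    refine lt_of_le_of_lt h4 (sin_total (by positivity) L hL _ ?_ (by linarith [Real.pi_pos]))
    rcases he with ⟨h, h'⟩ | h
    · left
      exact ⟨by rw [h, Int.cast_zero], h'⟩
    · right
      have : (0 : ℝ) < e := by exact_mod_cast (show 0 < e by omega)
      positivity
  have hfin : Real.sin ((x : ℝ) * φ) * Real.sin (((y - 1 : ℤ) : ℝ) * φ) <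
      wp b L d g1 g2 φ + Real.sin ((e : ℝ) * φ) * Real.sin ((F : ℝ) * φ) := by
    have h5 := mul_lt_mul_of_pos_left htot hM0
    have h6 : Real.sin ((x : ℝ) * φ) * Real.sin (((y - 1 : ℤ) : ℝ) * φ) =
        Real.sin ((X' : ℝ) * φ) * Real.sin ((X : ℝ) * φ) := by
      rcases hxy with ⟨h7, h8⟩ | ⟨h7, h8⟩
      · rw [h7, h8, mul_comm]
      · rw [h7, h8]
    rw [h6]
    rw [mul_add] at h5
    linarith
  rw [eA, eY]
  have := mul_lt_mul_of_pos_left hfin hsin1
  nlinarith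

/-! ### The function -/

theorem sin_delta {δ : ℤ} (hδ : δ = 1 ∨ δ = -1) (z : ℤ) (φ : ℝ) :
    Real.sin (((δ * z : ℤ) : ℝ) * φ) = (δ : ℝ) * Real.sin ((z : ℝ) * φ) := by
  rcases hδ with h | h
  · rw [h, one_mul, Int.cast_one, one_mul]
  · rw [h]
    push_cast
    rw [neg_one_mul, neg_mul, Real.sin_neg]
    ring

theorem ff_eq {δ : ℤ} (hδ : δ = 1 ∨ δ = -1) (hn : a + b = n) (μ t : ℤ) (φ : ℝ) :
    ff n a b l q ε (1 + δ * t) (δ * μ) φ =
      Real.sin (((μ * n ^ 2 + t * b ^ 2 + δ * n * b : ℤ) : ℝ) * φ) *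
        wp b l (la n a b) (f1 n a b l q ε δ μ t) (f2 n a b l q ε δ μ t) φ +
      Real.sin φ * Real.sin (((b * t : ℤ) : ℝ) * φ) *
        Real.sin (((μ * n ^ 2 + t * b ^ 2 + δ * n * b - μ * n : ℤ) : ℝ) * φ) := by
  have hd2 : δ * δ = 1 := by
    rcases hδ with h | h <;> rw [h] <;> norm_num
  have hd2' : (δ : ℝ) * δ = 1 := by exact_mod_cast hd2
  have hnz : (a : ℤ) + b = n := by exact_mod_cast hn
  have hw : ww n a b l q ε (1 + δ * t) (δ * μ) l φ =
      δ * wp b l (la n a b) (f1 n a b l q ε δ μ t) (f2 n a b l q ε δ μ t) φ := by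
    unfold ww wp
    rw [mul_sum]
    refine sum_congr rfl fun R _ => ?_
    have e1 : 2 * (δ * μ * n * l + (a + b * (1 + δ * t)) * q) + ε - δ * μ * n -
        b * (1 + δ * t) + b - 2 * sx n a b (1 + δ * t) (δ * μ) R - 2 * b * (1 + δ * t) -
        la n a b R = δ * f1 n a b l q ε δ μ t R := by
      unfold f1
      rw [← mul_assoc, hd2, one_mul]
    have e2 : 2 * (δ * μ * n * l + (a + b * (1 + δ * t)) * q) + ε - δ * μ * n -
        b * (1 + δ * t) + b - 2 * sx n a b (1 + δ * t) (δ * μ) R - la n a b R - b =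
        δ * f2 n a b l q ε δ μ t R := by
      unfold f2
      rw [← mul_assoc, hd2, one_mul]
    rw [e1, e2, sin_delta hδ, sin_delta hδ]
    ring
  have e3 : δ * μ * n ^ 2 + a * b + (1 + δ * t) * b ^ 2 =
      δ * (μ * n ^ 2 + t * b ^ 2 + δ * n * b) := by
    linear_combination (b : ℤ) * hnz - (n * b : ℤ) * hd2
  have e4 : (b : ℤ) * (1 + δ * t - 1) = δ * (b * t) := by ring
  have e5 : δ * μ * n ^ 2 + a * b + (1 + δ * t) * b ^ 2 - δ * μ * n =
      δ * (μ * n ^ 2 + t * b ^ 2 + δ * n * b - μ * n) := by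
    rw [e3]
    ring
  unfold ff
  rw [e5, e3, e4, hw, sin_delta hδ, sin_delta hδ, sin_delta hδ]
  linear_combination (Real.sin (((μ * n ^ 2 + t * b ^ 2 + δ * n * b : ℤ) : ℝ) * φ) *
        wp b l (la n a b) (f1 n a b l q ε δ μ t) (f2 n a b l q ε δ μ t) φ +
      Real.sin φ * Real.sin (((b * t : ℤ) : ℝ) * φ) *
        Real.sin (((μ * n ^ 2 + t * b ^ 2 + δ * n * b - μ * n : ℤ) : ℝ) * φ)) * hd2'

theorem ff_eq_one (D : Dat n a b l q ε) (h1 : ε = 1) {δ : ℤ} (hδ : δ = 1 ∨ δ = -1) (μ t : ℤ)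
    (φ : ℝ) :
    ff n a b l q ε (1 + δ * t) (δ * μ) φ =
      Real.sin (((μ * n ^ 2 + t * b ^ 2 + δ * n * b : ℤ) : ℝ) * φ) *
        (wp b (l - 1) (la n a b) (f1 n a b l q ε δ μ t) (f2 n a b l q ε δ μ t) φ +
          Real.sin ((((b : ℤ) - 1 : ℤ) : ℝ) * φ) *
            Real.sin (((μ * n + b * t + δ * b : ℤ) : ℝ) * φ)) +
      Real.sin φ * Real.sin (((μ * n : ℤ) : ℝ) * φ) *
        Real.sin (((μ * n ^ 2 + t * b ^ 2 + δ * n * b - b * t : ℤ) : ℝ) * φ) := by
  obtain ⟨g1, g2, g3⟩ := f_last D h1 (μ := μ) (t := t) hδ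
  have hl : l = l - 1 + 1 := by
    have := D.lpos
    omega
  have hw := wp_succ b (l - 1) (la n a b) (f1 n a b l q ε δ μ t) (f2 n a b l q ε δ μ t) φ
  rw [← hl, g1, g2, g3, Nat.cast_one, one_mul, Nat.cast_one] at hw
  rw [ff_eq hδ D.hn, hw]
  set A : ℝ := ((μ * n ^ 2 + t * b ^ 2 + δ * n * b : ℤ) : ℝ) with hA
  have e1 : ((μ * n - b * t : ℤ) : ℝ) * φ =
      ((μ * n : ℤ) : ℝ) * φ - ((b * t : ℤ) : ℝ) * φ := by
    push_cast
    ring
  have e2 : ((μ * n ^ 2 + t * b ^ 2 + δ * n * b - μ * n : ℤ) : ℝ) * φ =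
      A * φ - ((μ * n : ℤ) : ℝ) * φ := by
    rw [hA]
    push_cast
    ring
  have e3 : ((μ * n ^ 2 + t * b ^ 2 + δ * n * b - b * t : ℤ) : ℝ) * φ =
      A * φ - ((b * t : ℤ) : ℝ) * φ := by
    rw [hA]
    push_cast
    ring
  rw [e1, e2, e3, Real.sin_sub, Real.sin_sub, Real.sin_sub]
  ring

/-- the signs -/
theorem signs (D : Dat n a b l q ε) {δ μ t : ℤ} (hδ : δ = 1 ∨ δ = -1) (hμ : 1 ≤ μ) (ht : 1 ≤ t)
    (hc : μ ≤ q ∨ t ≤ l) : ∃ L : ℕ, 2 ≤ L ∧
    (∀ φ : ℝ, 0 < φ → φ ≤ Real.pi / (L : ℝ) →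
      Real.sin (((δ * μ * n * l + (a + b * (1 + δ * t)) * q : ℤ) : ℝ) * φ) *
        Real.sin (((δ * μ * n * l + (a + b * (1 + δ * t)) * q + ε : ℤ) : ℝ) * φ) ≠ 0) ∧
    (∀ φ : ℝ, 0 < φ → φ ≤ Real.pi / ((L : ℝ) + 1) →
      0 < ff n a b l q ε (1 + δ * t) (δ * μ) φ) ∧
    ff n a b l q ε (1 + δ * t) (δ * μ) (Real.pi / (L : ℝ)) < 0 := by
  obtain ⟨o1, o2, o3, o4, o5, o6, o7, o8⟩ := other_bounds D hδ hμ ht
  obtain ⟨q1, q2, q3, q4⟩ := D.lq
  set A : ℤ := μ * n ^ 2 + t * b ^ 2 + δ * n * b with hA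
  have ha := D.ha
  have hb := D.hb
  have hn := D.hn
  have hb0 : (2 : ℤ) ≤ b := by exact_mod_cast hb
  have hl0 : (2 : ℤ) ≤ l := by exact_mod_cast q1
  have hn0 : (4 : ℤ) ≤ n := by omega
  have hbt : (b : ℤ) ≤ b * t := by nlinarith
  have hμn : (n : ℤ) ≤ μ * n := by nlinarith
  have hlb : (2 : ℤ) * b ≤ l * b := by nlinarith
  have hA3 : 9 ≤ A := by nlinarith
  obtain ⟨L, hL⟩ := Int.eq_ofNat_of_zero_le (show 0 ≤ A - 1 by omega)
  have hLA : (L : ℝ) = ((A - 1 : ℤ) : ℝ) := by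
    rw [hL]
    push_cast
    rfl
  have hLR : (8 : ℝ) ≤ (L : ℝ) := by
    rw [hLA]
    exact_mod_cast (show (8 : ℤ) ≤ A - 1 by omega)
  have hA1 : (L : ℝ) + 1 = (A : ℝ) := by
    rw [hLA]
    push_cast
    ring
  -- the bounds for the frequencies
  have hbt0 : (0 : ℤ) < b * t := by linarith
  have hμn0 : (0 : ℤ) < μ * n := by linarith
  have hlt : (n : ℤ) * q + ε = l * b := D.hl.symm
  refine ⟨L, by exact_mod_cast (show (2 : ℤ) ≤ A - 1 by omega) |>.trans_eq hL, ?_, ?_, ?_⟩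
  · intro φ h0 h1
    rw [le_div_iff₀ (by linarith), hLA] at h1
    have hdd : δ * δ = 1 := by
      rcases hδ with h | h <;> rw [h] <;> norm_num
    have e : ∀ z : ℤ, Real.sin ((z : ℝ) * φ) = (δ : ℝ) * Real.sin (((δ * z : ℤ) : ℝ) * φ) := by
      intro z
      rw [← sin_delta hδ, ← mul_assoc, hdd, one_mul]
    rw [e (δ * μ * n * l + (a + b * (1 + δ * t)) * q),
      e (δ * μ * n * l + (a + b * (1 + δ * t)) * q + ε)]
    have hd : (δ : ℝ) ≠ 0 := by
      rcases hδ with h | h <;> rw [h] <;> norm_num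
    refine mul_ne_zero (mul_ne_zero hd ?_) (mul_ne_zero hd ?_)
    · exact (FT.sin_pos_k h0 h1 o5 (by exact_mod_cast o7)).ne'
    · exact (FT.sin_pos_k h0 h1 o6 (by exact_mod_cast o8)).ne'
  · intro φ h0 h1
    rw [le_div_iff₀ (by linarith), hA1] at h1
    rcases D.hε with h | h
    · rw [ff_eq_one D h hδ]
      have hX : Xb n b ε μ t (μ * n) := Or.inr ⟨h, Or.inr rfl⟩
      obtain ⟨x1, x2⟩ := o1 _ hX
      obtain ⟨x3, x4⟩ := x2 h
      refine core_pos b (l - 1) _ _ _ A ((b : ℤ) - 1) (μ * n + b * t + δ * b) (μ * n) (b * t)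
        (by omega) (fun R hR => la_lt D R) ?_ ?_ (by omega) (by omega) (by omega) (by omega)
        (by omega) hμn0 o3 hbt0 o2 φ h0 h1
      · intro R hR hd
        obtain ⟨y1, y2⟩ := f1_bounds D hδ hμ ht (show R < l by omega) (fun _ => by omega) hd hX
        omega
      · intro R hR
        obtain ⟨y1, y2⟩ := f2_bounds D hδ hμ ht (show R < l by omega) (fun _ => by omega) hX
        omega
    · rw [ff_eq hδ hn]
      have hX : Xb n b ε μ t (b * t) := Or.inl ⟨h, Or.inl rfl⟩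
      have := core_pos b l (la n a b) (f1 n a b l q ε δ μ t) (f2 n a b l q ε δ μ t) A 0 1 (b * t)
        (μ * n)
        (by omega) (fun R hR => la_lt D R) (by
          intro R hR hd
          obtain ⟨y1, y2⟩ := f1_bounds D hδ hμ ht hR (fun h' => by omega) hd hX
          omega) (by
          intro R hR
          obtain ⟨y1, y2⟩ := f2_bounds D hδ hμ ht hR (fun h' => by omega) hX
          omega) (by omega) (by omega) (by omega) (by omega)
        (by omega) hbt0 o2 hμn0 o3 φ h0 h1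
      rw [Int.cast_zero, zero_mul, Real.sin_zero, zero_mul, add_zero] at this
      exact this
  · rw [hLA]
    rcases D.hε with h | h
    · rw [ff_eq_one D h hδ]
      rw [h] at hlt
      have hX1 : Xb n b ε μ t (μ * n) := Or.inr ⟨h, Or.inr rfl⟩
      have hX2 : Xb n b ε μ t (b * t - 1) := Or.inr ⟨h, Or.inl rfl⟩
      obtain ⟨l', hl'⟩ : ∃ l', l = l' + 1 := ⟨l - 1, by omega⟩
      have hl1 : ((l - 1 : ℕ) : ℤ) * b + ((b : ℤ) - 1) = l * b - 1 := by
        rw [hl', Nat.add_sub_cancel]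
        push_cast
        ring
      have gen : ∀ X X' : ℤ, Xb n b ε μ t X' → 0 < X → X ≤ l * b - 1 →
          ((X = μ * n ∧ X' = b * t - 1) ∨ (X' = μ * n ∧ X = b * t - 1)) → _ :=
        fun X X' hX' hX0 hXt hxy => core_neg b (l - 1) (la n a b) (f1 n a b l q ε δ μ t)
          (f2 n a b l q ε δ μ t) A ((b : ℤ) - 1) (μ * n + b * t + δ * b) (μ * n) (b * t) X X'
          (by omega) (by omega) (by omega) (fun R hR => la_lt D R)
          (fun R hR hd => f1_bounds D hδ hμ ht (show R < l by omega) (fun _ => by omega) hd hX')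
          (fun R hR => f2_bounds D hδ hμ ht (show R < l by omega) (fun _ => by omega) hX')
          (Or.inr (by omega)) (fun _ => (o1 X' hX').2 h) hX0 (by rw [hl1]; exact hXt)
          (by rw [hl1]; omega) (lt_of_lt_of_le one_pos (o1 X' hX').1) hxy
      rcases hc with hc | hc
      · have hμq : μ * n ≤ q * n := mul_le_mul_of_nonneg_right hc (by omega)
        exact gen (μ * n) (b * t - 1) hX2 hμn0 (by linarith) (Or.inl ⟨rfl, rfl⟩)
      · have htl : b * t ≤ b * l := mul_le_mul_of_nonneg_left hc (by omega)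
        exact gen (b * t - 1) (μ * n) hX1 (by omega) (by linarith) (Or.inr ⟨rfl, rfl⟩)
    · rw [ff_eq hδ hn]
      rw [h] at hlt
      have hX1 : Xb n b ε μ t (b * t) := Or.inl ⟨h, Or.inl rfl⟩
      have hX2 : Xb n b ε μ t (μ * n - 1) := Or.inl ⟨h, Or.inr rfl⟩
      have gen : ∀ X X' : ℤ, Xb n b ε μ t X' → 0 < X → X ≤ l * b →
          ((X = b * t ∧ X' = μ * n - 1) ∨ (X' = b * t ∧ X = μ * n - 1)) → _ :=
        fun X X' hX' hX0 hXt hxy => core_neg b l (la n a b) (f1 n a b l q ε δ μ t)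
          (f2 n a b l q ε δ μ t) A 0 1 (b * t) (μ * n) X X'
          (by omega) (by omega) (by omega) (fun R hR => la_lt D R)
          (fun R hR hd => f1_bounds D hδ hμ ht hR (fun h' => by omega) hd hX')
          (fun R hR => f2_bounds D hδ hμ ht hR (fun h' => by omega) hX')
          (Or.inl ⟨rfl, q1⟩) (fun h' => by omega) hX0 (by rw [add_zero]; exact hXt)
          (by rw [add_zero]; exact o4) (lt_of_lt_of_le one_pos (o1 X' hX').1) hxy
      have fin : Real.sin ((A : ℝ) * (Real.pi / ((A - 1 : ℤ) : ℝ))) *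
          (wp b l (la n a b) (f1 n a b l q ε δ μ t) (f2 n a b l q ε δ μ t)
            (Real.pi / ((A - 1 : ℤ) : ℝ)) +
            Real.sin (((0 : ℤ) : ℝ) * (Real.pi / ((A - 1 : ℤ) : ℝ))) *
            Real.sin (((1 : ℤ) : ℝ) * (Real.pi / ((A - 1 : ℤ) : ℝ)))) +
          Real.sin (Real.pi / ((A - 1 : ℤ) : ℝ)) *
            Real.sin (((b * t : ℤ) : ℝ) * (Real.pi / ((A - 1 : ℤ) : ℝ))) *
          Real.sin (((A - μ * n : ℤ) : ℝ) * (Real.pi / ((A - 1 : ℤ) : ℝ))) < 0 := by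
        rcases hc with hc | hc
        · have hμq : μ * n ≤ q * n := mul_le_mul_of_nonneg_right hc (by omega)
          exact gen (μ * n - 1) (b * t) hX1 (by omega) (by linarith) (Or.inr ⟨rfl, rfl⟩)
        · have htl : b * t ≤ b * l := mul_le_mul_of_nonneg_left hc (by omega)
          exact gen (b * t) (μ * n - 1) hX2 hbt0 (by linarith) (Or.inl ⟨rfl, rfl⟩)
      rw [Int.cast_zero, zero_mul, Real.sin_zero, zero_mul, add_zero] at fin
      exact fin


end Pool.Agent.Helper71.TG
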