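import Mathlib
import Pool.Agent.Helper71.TG.Signs
import Pool.Agent.Helper71.TG.BurD
import Pool.Agent.Helper71.TG.Braid

/-!
# Twisted torus knots `T(n, k n ± r; r, s)`
-/

set_option autoImplicit false

namespace Pool.Agent.Helper71.TG

open Finset Polynomial LaurentPolynomial
open Pool.Agent.Helper62.OB Pool.Agent.Helper27.TT

variable {n a b l q : ℕ} {ε : ℤ}

theorem no_cyc (D : Dat n a b l q ε) {δ μ t : ℤ} (hδ : δ = 1 ∨ δ = -1) (hμ : 1 ≤ μ)
    (ht : 1 ≤ t) (hc : μ ≤ q ∨ t ≤ l) (Mu : Multiset ℕ) (hMu : ∀ N ∈ Mu, 0 < N)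
    (h : ∀ φ : ℝ, ∃ c : ℂ, c ≠ 0 ∧ cyP Mu φ =
      c * ∑ R ∈ range n, tR n a b (1 + δ * t) (δ * μ) (Complex.exp (φ * Complex.I)) R) :
    False := by
  obtain ⟨L, hL, s1, s2, s3⟩ := signs D hδ hμ ht hc
  have hLR : (2 : ℝ) ≤ L := by exact_mod_cast hL
  have hpi := Real.pi_pos
  have h2I : -(2 * Complex.I) ≠ 0 := neg_ne_zero.2 (mul_ne_zero two_ne_zero Complex.I_ne_zero)
  obtain ⟨N, hN, e1, e2, e3, -⟩ := engine Mu hMu (ff n a b l q ε (1 + δ * t) (δ * μ))
    (ff_continuous n a b l q ε _ _)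
    (Real.pi / ((L : ℝ) + 1)) (Real.pi / (L : ℝ)) (by positivity)
    (div_lt_div_of_pos_left hpi (by linarith) (by linarith))
    (by
      rw [div_lt_iff₀ (by linarith)]
      nlinarith)
    (by
      intro φ p0
      obtain ⟨c, hc, p1⟩ := h φ
      rw [p0] at p1
      have p2 := (mul_eq_zero.1 p1.symm).resolve_left hc
      have p3 := key_trig D (1 + δ * t) (δ * μ) φ
      rw [p2, mul_zero, mul_zero] at p3
      have p4 := (mul_eq_zero.1 p3.symm).resolve_left h2I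
      exact Complex.ofReal_eq_zero.1 p4)
    (by
      intro φ p0 p1 p2
      obtain ⟨c, hc, p4⟩ := h φ
      have p3 := key_trig D (1 + δ * t) (δ * μ) φ
      rw [p2, Complex.ofReal_zero, mul_zero] at p3
      have p5 := (mul_eq_zero.1 p3).resolve_left
        (fun h0 => s1 φ p0 p1 (Complex.ofReal_eq_zero.1 h0))
      have p6 := (mul_eq_zero.1 p5).resolve_left (zpow_ne_zero _ (Complex.exp_ne_zero _))
      rw [p4, p6, mul_zero])
    s2 s3.le
  have hNR : (0 : ℝ) < N := by exact_mod_cast hN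
  have f1 : (N : ℝ) < L + 1 := by
    by_contra hcon
    push Not at hcon
    have := div_le_div_of_nonneg_left hpi.le (by linarith : (0 : ℝ) < (L : ℝ) + 1) hcon
    linarith
  have f2 : (L : ℝ) ≤ N := by
    by_contra hcon
    push Not at hcon
    have := div_lt_div_of_pos_left hpi hNR hcon
    linarith
  have f3 : N = L := by
    have g1 : N < L + 1 := by exact_mod_cast f1
    have g2 : L ≤ N := by exact_mod_cast f2
    omega
  rw [f3] at e3
  linarith

theorem main_tg (m a b l q : ℕ) (D : Dat (m + 1) a b l q ε) {δ μ t : ℤ}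
    (hδ : δ = 1 ∨ δ = -1) (hμ : 1 ≤ μ) (ht : 1 ≤ t) (hc : μ ≤ q ∨ t ≤ l) :
    ¬ IsCyclotomicProduct (alexander (tg m a b (1 + δ * t) (δ * μ))) := by
  intro hΔ
  have ha := D.ha
  have hb := D.hb
  have hab := D.hn
  have hco : Nat.Coprime a b := by
    have h := D.cop
    rw [← hab, Nat.coprime_add_self_left] at h
    exact h
  have hk : δ * μ ≠ 0 := by
    apply mul_ne_zero
    · rcases hδ with h | h <;> rw [h] <;> norm_num
    · omega
  have hf := alex_formula_s m a b (by omega) (by omega) hab hco (1 + δ * t) (δ * μ) hk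
  obtain ⟨Mu, h1, h2⟩ := cyP_of_s m a b (by omega) (1 + δ * t) (δ * μ) _ hf hΔ
  exact no_cyc D hδ hμ ht hc Mu h1 h2

/-- the numbers `l`, `q` -/
theorem exists_dat (ha : 2 ≤ a) (hb : 2 ≤ b) (hab : a + b = n) (hc : Nat.Coprime n b) :
    ∃ (l q : ℕ) (ε : ℤ), Dat n a b l q ε := by
  obtain ⟨l, hl, hl1⟩ := Nat.exists_mul_mod_eq_one_of_coprime (Nat.Coprime.symm hc)
    (show 1 < n by omega)
  have h1 := Nat.div_add_mod (b * l) n
  rw [hl1] at h1
  set q := b * l / n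
  have hne : 2 * l ≠ n := by
    intro h
    have h2 : l ∣ n * q := by
      rw [← h]
      exact ⟨2 * q, by ring⟩
    have h3 : l ∣ n * q + 1 := by
      rw [h1]
      exact ⟨b, by ring⟩
    have h4 : l ∣ 1 := (Nat.dvd_add_right h2).1 h3
    have h5 := Nat.dvd_one.1 h4
    omega
  have h1z : (n : ℤ) * q + 1 = b * l := by exact_mod_cast h1
  rcases Nat.lt_or_ge (2 * l) n with h2 | h2
  · exact ⟨l, q, 1, hab, ha, hb, Or.inl rfl, by rw [h1z]; ring, h2⟩
  · obtain ⟨k, hk⟩ : ∃ k, n = l + k := ⟨n - l, by omega⟩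
    obtain ⟨r, hr⟩ : ∃ r, b = q + r := by
      refine ⟨b - q, ?_⟩
      by_contra hcon
      have h5 : b ≤ q := by omega
      have h6 : n * b ≤ n * q := Nat.mul_le_mul_left n h5
      have h7 : b * l ≤ b * n := Nat.mul_le_mul_left b hl.le
      nlinarith
    have hkz : (n : ℤ) = l + k := by exact_mod_cast hk
    have hrz : (b : ℤ) = q + r := by exact_mod_cast hr
    refine ⟨k, r, -1, hab, ha, hb, Or.inr rfl, ?_, by omega⟩
    linear_combination (-(b : ℤ)) * hkz + (n : ℤ) * hrz + h1z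

/-- the condition on `k` and `s` -/
theorem main (m r s k q : ℕ) (hr : 2 ≤ r) (hrm : r + 1 ≤ m) (hc : Nat.Coprime r (m + 1))
    (hk : 1 ≤ k) (hs : 1 ≤ s) (hq : q = k * (m + 1) + r ∨ q + r = k * (m + 1))
    (hks : k = 1 ∨ s = 1 ∨ ∃ l w : ℕ, 2 * l < m + 1 ∧
      (l * r = w * (m + 1) + 1 ∨ l * r + 1 = w * (m + 1)) ∧ (k ≤ w ∨ s ≤ l)) :
    ¬ IsCyclotomicProduct (alexander (tt m q r s)) := by
  obtain ⟨a, ha⟩ : ∃ a, a + r = m + 1 := ⟨m + 1 - r, by omega⟩
  have ha2 : 2 ≤ a := by omega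
  -- the data
  obtain ⟨l, w, ε, D, hcond⟩ : ∃ (l w : ℕ) (ε : ℤ), Dat (m + 1) a r l w ε ∧
      ((k : ℤ) ≤ w ∨ (s : ℤ) ≤ l) := by
    by_cases h1 : k = 1 ∨ s = 1
    · obtain ⟨l, w, ε, D⟩ := exists_dat ha2 hr ha hc.symm
      obtain ⟨q1, q2, q3, q4⟩ := D.lq
      refine ⟨l, w, ε, D, ?_⟩
      rcases h1 with h1 | h1
      · left
        omega
      · right
        omega
    · obtain ⟨l, w, h2, h3, h4⟩ : ∃ l w : ℕ, 2 * l < m + 1 ∧
          (l * r = w * (m + 1) + 1 ∨ l * r + 1 = w * (m + 1)) ∧ (k ≤ w ∨ s ≤ l) := by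
        rcases hks with h | h | h
        · exact absurd (Or.inl h) h1
        · exact absurd (Or.inr h) h1
        · exact h
      have h5 : (k : ℤ) ≤ w ∨ (s : ℤ) ≤ l := by omega
      rcases h3 with h3 | h3
      · have h3z : (l : ℤ) * r = w * (m + 1) + 1 := by exact_mod_cast h3
        refine ⟨l, w, 1, ⟨ha, ha2, hr, Or.inl rfl, ?_, h2⟩, h5⟩
        push_cast
        linear_combination h3z
      · have h3z : (l : ℤ) * r + 1 = w * (m + 1) := by exact_mod_cast h3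
        refine ⟨l, w, -1, ⟨ha, ha2, hr, Or.inr rfl, ?_, h2⟩, h5⟩
        push_cast
        linear_combination h3z
  have hk' : (1 : ℤ) ≤ k := by exact_mod_cast hk
  have hs' : (1 : ℤ) ≤ s := by exact_mod_cast hs
  intro hΔ
  rcases hq with hq | hq
  · obtain ⟨g, hg⟩ := tt_plus m a r s k q (by omega) (by omega) ha hq
    rw [hg, alex_conj] at hΔ
    refine main_tg m a r l w D (δ := 1) (Or.inl rfl) hk' hs' hcond ?_
    rw [one_mul, one_mul, add_comm]
    exact hΔ
  · obtain ⟨g, hg⟩ := tt_minus m a r s k q (by omega) (by omega) ha hq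
    rw [hg, alex_conj] at hΔ
    refine main_tg m a r l w D (δ := -1) (Or.inr rfl) hk' hs' hcond ?_
    have h6 := cyc_upToUnit (alex_inv m (tg m a r (1 - s) (-k))) hΔ
    rw [neg_one_mul, neg_one_mul, ← sub_eq_add_neg]
    exact h6

end Pool.Agent.Helper71.TG
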