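import Mathlib
import Pool.Agent.Helper27.TT.H
import Pool.Agent.Helper62.SAT.Three

/-!
# The twisted torus knots `T(p, k p ± 1; r, s)`, `p ≥ 3`
-/

set_option autoImplicit false

namespace Pool.Agent.Helper71.TG

open Pool.Agent.Helper62.OB Pool.Agent.Helper27.TT

theorem main3 (p k r s q : ℕ) (hp : 3 ≤ p) (hk : 1 ≤ k) (hs : 1 ≤ s) (hr2 : 2 ≤ r)
    (hq : q = k * p + 1 ∨ q + 1 = k * p) (hr : r = p - 1 ∨ (s = 1 ∧ (r = 2 ∨ r = p - 2)))
    (hc : IsCyclotomicProduct (alexander (tt (p - 1) q r s))) :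
    (IsTorusKnot ⟨p - 1, tt (p - 1) q r s⟩ ∧
      ((r = p - 1 ∧ s = 1 ∧ q = k * p + 1) ∨ (r = p - 1 ∧ q = p - 1) ∨
        (r = p - 2 ∧ s = 1 ∧ q = p - 1))) ∨
      (IsIterTorus ⟨p - 1, tt (p - 1) q r s⟩ ∧
        r = 2 ∧ s = 1 ∧ ((p = 4 ∧ q = 4 * k + 1) ∨ (p = 5 ∧ q = 4))) := by
  rcases (show p = 3 ∨ 4 ≤ p by omega) with h3 | h4
  · subst h3
    have hr' : r = 2 := by omega
    subst hr'
    have hco : Nat.Coprime 3 q := by
      rw [Nat.Prime.coprime_iff_not_dvd Nat.prime_three]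
      intro h
      omega
    have h5 := Pool.Agent.Helper62.SAT.three_cyc q s hco hc
    left
    rcases h5 with h5 | h5 | ⟨h5, h6⟩
    · have hq2 : q = 2 := by omega
      subst hq2
      exact ⟨torus_minus 2 s (by norm_num), Or.inr (Or.inl ⟨rfl, rfl⟩)⟩
    · omega
    · have hq1 : q = k * (2 + 1) + 1 := by omega
      subst h5
      subst hq1
      exact ⟨torus_plus 2 k (by norm_num), Or.inl ⟨rfl, rfl, rfl⟩⟩
  · exact main2 p k r s q h4 hk hs hq hr hc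

end Pool.Agent.Helper71.TG
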